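import Pool.Agent.H52.BR.Cls

/-!
# Broad families

A family is `(j, c)`-broad with freedom `e` if, given the point (position at full resolution, time,
side information), the direction is within `2 ^ (-g)` of an affine `j`-plane with probability at
most `exp (-(c g - e))`. This property is preserved by the operations of the theory.
-/

set_option autoImplicit false

namespace Pool.BR

open Finset Real
open Pool.Agent.H49.Ent Pool.Agent.H32.Dense Pool.STK Pool.KA Pool.K2S Pool.PB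

variable {m J : ℕ}

/-- Broad families. -/
def BrP (j : ℕ) (c : ℝ) (J : ℕ) (F : Fam m J) (e : ℝ) : Prop :=
  ∀ g ≤ J, ∀ B : F.Ω → Prop, Real.exp (-(c * g - e)) < Pe F.p B →
    ¬ PlU j (1 / 2 ^ g) (Fam.pt F) F.d B

/-! ### Pigeonhole -/

section Gen

variable {Ω S S' T T' ι : Type} [Fintype Ω]

theorem Pe_le_card {p : Ω → ℝ} (hp : IsLaw p) {κ : Type} (I : Finset κ) (k : Ω → κ)
    (B : Ω → Prop) (hk : ∀ ω, B ω → k ω ∈ I) (hI : I.Nonempty) :
    ∃ k₀ ∈ I, Pe p B ≤ I.card * Pe p (fun ω => B ω ∧ k ω = k₀) := by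
  classical
  by_contra hcon
  push Not at hcon
  have h1 : Pe p B ≤ ∑ k₀ ∈ I, Pe p (fun ω => B ω ∧ k ω = k₀) := by
    simp only [Pe_eq]
    rw [Finset.sum_comm]
    refine Finset.sum_le_sum fun ω _ => ?_
    by_cases hB : B ω
    · rw [if_pos hB]
      have h2 := Finset.single_le_sum (f := fun k₀ => if B ω ∧ k ω = k₀ then p ω else 0)
        (fun k₀ _ => by split_ifs; exacts [hp.nonneg ω, le_rfl]) (hk ω hB)
      simpa [hB] using h2
    · simp [hB]
  have h2 : ∑ k₀ ∈ I, (I.card : ℝ) * Pe p (fun ω => B ω ∧ k ω = k₀) < ∑ _k₀ ∈ I, Pe p B :=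
    Finset.sum_lt_sum_of_nonempty hI fun k₀ hk₀ => hcon k₀ hk₀
  rw [← Finset.mul_sum, Finset.sum_const, nsmul_eq_mul] at h2
  have h3 : (0 : ℝ) < I.card := by exact_mod_cast hI.card_pos
  have h4 := mul_le_mul_of_nonneg_left h1 h3.le
  linarith

/-- A function of finer labels with boundedly many values is a function of the coarse labels, on
an event of comparable probability. -/
theorem fn_fine [Fintype ι] {p : Ω → ℝ} (hp : IsLaw p) {c : Ω → S'} {r : S' → S → Prop}
    {g : Ω → T} {g' : Ω → T'} (E : Ω → ι → ℤ) (K : ℕ)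
    (hg : ∀ ω ω', g ω = g ω' → E ω = E ω' → g' ω = g' ω')
    (hE : ∀ ω ω', g ω = g ω' → ∀ i, |E ω i - E ω' i| ≤ K) {B : Ω → Prop}
    (h : Fn c g' r B) : ∃ B' : Ω → Prop, Sub B' B ∧ Fn c g r B' ∧
      Pe p B ≤ (2 * K + 1) ^ Fintype.card ι * Pe p B' := by
  classical
  have hne : Nonempty Ω := by
    by_contra h
    rw [not_nonempty_iff] at h
    have := hp.sum_one
    rw [Finset.univ_eq_empty, Finset.sum_empty] at this
    exact zero_ne_one this
  obtain ⟨ref, href⟩ : ∃ ref : T → Ω, ∀ ω, g (ref (g ω)) = g ω := by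
    refine ⟨fun t => if h : ∃ ω, g ω = t then h.choose else Classical.arbitrary Ω, fun ω => ?_⟩
    have h : ∃ ω', g ω' = g ω := ⟨ω, rfl⟩
    simp only [h, dite_true]
    exact h.choose_spec
  obtain ⟨I, hI⟩ : ∃ I : Finset (ι → ℤ), I = Fintype.piFinset fun _ : ι =>
    Finset.Icc (-(K : ℤ)) K := ⟨_, rfl⟩
  have hcard : (I.card : ℝ) = (2 * K + 1) ^ Fintype.card ι := by
    rw [hI, Fintype.card_piFinset]
    simp only [Int.card_Icc, Finset.prod_const, Finset.card_univ]
    have : ((K : ℤ) + 1 - -K).toNat = 2 * K + 1 := by omega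
    rw [this]
    push_cast
    rfl
  have hmem : ∀ ω, B ω → (fun i => E ω i - E (ref (g ω)) i) ∈ I := by
    intro ω _
    rw [hI, Fintype.mem_piFinset]
    intro i
    rw [Finset.mem_Icc]
    have := hE ω (ref (g ω)) (href ω).symm i
    rw [abs_le] at this
    exact this
  have hIne : I.Nonempty := by
    refine ⟨fun _ => 0, ?_⟩
    rw [hI, Fintype.mem_piFinset]
    intro i
    rw [Finset.mem_Icc]
    omega
  obtain ⟨k₀, -, hk₀⟩ := Pe_le_card hp I (fun ω i => E ω i - E (ref (g ω)) i) B hmem hIne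
  rw [hcard] at hk₀
  refine ⟨_, fun ω hω => hω.1, ?_, hk₀⟩
  obtain ⟨ζ, hζ⟩ := h
  refine ⟨fun t => ζ (g' (if h : ∃ ω, (B ω ∧ (fun i => E ω i - E (ref (g ω)) i) = k₀) ∧ g ω = t
    then h.choose else Classical.arbitrary Ω)), fun ω hω => ?_⟩
  have h : ∃ ω', (B ω' ∧ (fun i => E ω' i - E (ref (g ω')) i) = k₀) ∧ g ω' = g ω :=
    ⟨ω, hω, rfl⟩
  simp only [h, dite_true]
  have h1 := h.choose_spec
  obtain ⟨ω', hω'⟩ : ∃ ω', ω' = h.choose := ⟨_, rfl⟩
  rw [← hω'] at h1 ⊢
  have h2 : E ω = E ω' := by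
    have a1 := hω.2
    have a2 := h1.1.2
    rw [h1.2] at a2
    funext i
    have b1 : E ω i - E (ref (g ω)) i = k₀ i := congrFun a1 i
    have b2 : E ω' i - E (ref (g ω)) i = k₀ i := congrFun a2 i
    omega
  rw [← hg ω ω' h1.2.symm h2]
  exact hζ ω hω.1

end Gen

/-- Floors of numbers at distance less than `K`. -/
theorem floor_diff {x y : ℝ} {K : ℕ} (h : |x - y| < K) : |⌊x⌋ - ⌊y⌋| ≤ (K : ℤ) := by
  have a1 := Int.floor_le x
  have a2 := Int.lt_floor_add_one x
  have b1 := Int.floor_le y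
  have b2 := Int.lt_floor_add_one y
  rw [abs_lt] at h
  have h1 : (⌊x⌋ : ℝ) - ⌊y⌋ < K + 1 := by linarith
  have h2 : (⌊y⌋ : ℝ) - ⌊x⌋ < K + 1 := by linarith
  have h3 : ⌊x⌋ - ⌊y⌋ < (K : ℤ) + 1 := by exact_mod_cast h1
  have h4 : ⌊y⌋ - ⌊x⌋ < (K : ℤ) + 1 := by exact_mod_cast h2
  rw [abs_le]
  constructor <;> omega

theorem close_of_floor {x y : ℝ} (h : ⌊x⌋ = ⌊y⌋) : |x - y| < 1 := Int.abs_sub_lt_one_of_floor_eq_floor h

/-- Equal floors at scale `2 ^ (-J)`. -/
theorem fl_close {j : ℕ} {x y : Fin m → ℝ} (h : fl j x = fl j y) (i : Fin m) :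
    |2 ^ j * x i - 2 ^ j * y i| < 1 := close_of_floor (congrFun h i)

/-- Equal floors at a fine scale are equal at a coarse scale. -/
theorem fl_coarse {j k : ℕ} (hk : k ≤ j) {x y : Fin m → ℝ} (h : fl j x = fl j y) :
    fl k x = fl k y := by
  have key : ∀ z : ℝ, ⌊(2 : ℝ) ^ k * z⌋ = ⌊(2 : ℝ) ^ j * z⌋ / 2 ^ (j - k) := by
    intro z
    have e : (2 : ℝ) ^ k * z = (2 ^ j * z) / ((2 ^ (j - k) : ℕ) : ℝ) := by
      have : (2 : ℝ) ^ j = 2 ^ k * 2 ^ (j - k) := by
        rw [← pow_add]; congr 1; omega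
      rw [this]
      push_cast
      field_simp
    rw [e, Int.floor_div_natCast]
    push_cast
    rfl
  funext i
  have h1 : ⌊(2 : ℝ) ^ j * x i⌋ = ⌊(2 : ℝ) ^ j * y i⌋ := congrFun h i
  change ⌊(2 : ℝ) ^ k * x i⌋ = ⌊(2 : ℝ) ^ k * y i⌋
  rw [key, key, h1]

/-! ### Elementary closure properties -/

theorem BrP.mono {j : ℕ} {c e e' : ℝ} {F : Fam m J} (he : e ≤ e') (h : BrP j c J F e) :
    BrP j c J F e' := by
  intro g hg B hB
  exact h g hg B ((Real.exp_le_exp.2 (by linarith)).trans_lt hB)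

theorem BrP.nonneg {j : ℕ} {c e : ℝ} {F : Fam m J} (h : BrP j c J F e) : 0 ≤ e := by
  by_contra hcon
  push Not at hcon
  refine h 0 (Nat.zero_le _) (fun _ => True) ?_ ⟨fun _ => (0, 0), fun ω _ => ⟨0, fun i => ?_⟩⟩
  · rw [Pe_univ F.isLaw, Real.exp_lt_one_iff]
    simp only [Nat.cast_zero, mul_zero]
    linarith
  · have := F.dir ω i
    simp only [Pi.zero_apply, sub_zero, mul_zero, Finset.sum_const_zero, pow_zero, div_one]
    exact this

/-- The general form of the closure properties: an operation which replaces the label by a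
function of the label and of `card ι` integers in intervals of length `K`. -/
theorem BrP.transfer {j : ℕ} {c e : ℝ} {F : Fam m J} (h : BrP j c J F e) {ι : Type} [Fintype ι]
    {T' : Type} {g' : F.Ω → T'} (E : F.Ω → ι → ℤ) (K : ℕ) {g : ℕ} (hg' : g ≤ J)
    (hg : ∀ ω ω', Fam.pt F ω = Fam.pt F ω' → E ω = E ω' → g' ω = g' ω')
    (hE : ∀ ω ω', Fam.pt F ω = Fam.pt F ω' → ∀ i, |E ω i - E ω' i| ≤ K) {B : F.Ω → Prop}
    (hB : PlU j (1 / 2 ^ g) g' F.d B) :
    Pe F.p B ≤ Real.exp (-(c * g - (e + Fintype.card ι * Real.log (2 * K + 1)))) := by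
  obtain ⟨B', hB', hfn, hP⟩ := fn_fine F.isLaw E K hg hE hB
  have h1 : Pe F.p B' ≤ Real.exp (-(c * g - e)) := by
    by_contra hcon
    push Not at hcon
    exact h g hg' B' hcon hfn
  have hK : (0 : ℝ) < 2 * K + 1 := by positivity
  calc Pe F.p B ≤ (2 * K + 1) ^ Fintype.card ι * Pe F.p B' := hP
    _ ≤ (2 * K + 1) ^ Fintype.card ι * Real.exp (-(c * g - e)) :=
        mul_le_mul_of_nonneg_left h1 (by positivity)
    _ = Real.exp (-(c * g - (e + Fintype.card ι * Real.log (2 * K + 1)))) := by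
        have h2 : ((2 : ℝ) * K + 1) ^ Fintype.card ι =
            Real.exp (Fintype.card ι * Real.log (2 * K + 1)) := by
          rw [Real.exp_nat_mul, Real.exp_log hK]
        rw [h2, ← Real.exp_add]
        congr 1
        ring

theorem BrP.res {j : ℕ} {c e : ℝ} {F : Fam m J} (e' : ℝ) {κ : Type} (A : F.Ω → κ) (a : κ)
    (hl : IsLaw (Pool.Agent.H49.Ent.cond F.p A a)) (hA : Real.exp (-e') ≤ law F.p A a)
    (h : BrP j c J F e) : BrP j c J (F.res A a hl) (e + e') := by
  classical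
  intro g hg B hB hPl
  have hA0 : 0 < law F.p A a := lt_of_lt_of_le (Real.exp_pos _) hA
  have e1 : Pe (F.res A a hl).p B = Pe F.p (fun ω => B ω ∧ A ω = a) / law F.p A a := by
    rw [Pe_eq, Pe_eq F.p, Finset.sum_div]
    refine Finset.sum_congr rfl fun ω _ => ?_
    change (if B ω then Pool.Agent.H49.Ent.cond F.p A a ω else 0) = _
    unfold Pool.Agent.H49.Ent.cond
    by_cases h1 : B ω <;> by_cases h2 : A ω = a <;> simp [h1, h2]
  rw [e1, lt_div_iff₀ hA0] at hB
  refine h g hg (fun ω => B ω ∧ A ω = a) (lt_of_le_of_lt ?_ hB) ?_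
  · calc Real.exp (-(c * g - e)) = Real.exp (-(c * g - (e + e'))) * Real.exp (-e') := by
          rw [← Real.exp_add]
          congr 1
          ring
      _ ≤ _ := mul_le_mul_of_nonneg_left hA (Real.exp_pos _).le
  · exact PlU.hered _ _ _ _ _ _ (fun ω hω => hω.1) hPl

theorem BrP.val {j : ℕ} {c e : ℝ} {F : Fam m J} (e' : ℝ) (G : F.ζ → Prop) (h : BrP j c J F e)
    (hG : ∀ z, G z → 0 < law F.p F.Z z → ∀ hl : IsLaw (Pool.Agent.H49.Ent.cond F.p F.Z z),
      ¬ BrP j c J (F.res F.Z z hl) (e + e')) :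
    Pe F.p (fun ω => G (F.Z ω)) ≤ ((J : ℝ) + 1) ^ 2 * Real.exp (-e') := by
  classical
  have hlaw : ∀ z, 0 < law F.p F.Z z → IsLaw (Pool.Agent.H49.Ent.cond F.p F.Z z) := fun z hz =>
    ⟨cond_nonneg F.isLaw.nonneg F.Z z, sum_cond F.p F.Z hz.ne'⟩
  have key : ∀ z : F.ζ, ∃ (g : ℕ) (B : F.Ω → Prop), G z → 0 < law F.p F.Z z → g ≤ J ∧
      Real.exp (-(c * g - (e + e'))) < Pe (Pool.Agent.H49.Ent.cond F.p F.Z z) B ∧
      PlU j (1 / 2 ^ g) (Fam.pt F) F.d B := by
    intro z
    by_cases hz : G z ∧ 0 < law F.p F.Z z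
    · have h1 := hG z hz.1 hz.2 (hlaw z hz.2)
      unfold BrP at h1
      push Not at h1
      obtain ⟨g, hg, B, hB, hPl⟩ := h1
      exact ⟨g, B, fun _ _ => ⟨hg, hB, hPl⟩⟩
    · exact ⟨0, fun _ => False, fun h1 h2 => absurd ⟨h1, h2⟩ hz⟩
  choose g B hqg using key
  -- the events of the scales `g`
  obtain ⟨D, hD⟩ : ∃ D : ℕ → F.Ω → Prop, D = fun b ω => (G (F.Z ω) ∧
    0 < law F.p F.Z (F.Z ω)) ∧ (g (F.Z ω) = b) ∧ B (F.Z ω) ω := ⟨_, rfl⟩
  have hD1 : ∀ b ≤ J, Pe F.p (D b) ≤ Real.exp (-(c * b - e)) := by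
    intro b hab
    by_contra hcon
    push Not at hcon
    refine h b hab (D b) hcon ?_
    have hex : ∀ z, ∃ ζ : (Fin m → ℤ) × (ℕ × F.ζ) →
        (Fin m → ℝ) × (Fin j → Fin m → ℝ), G z → 0 < law F.p F.Z z → g z = b →
        ∀ ω, B z ω → ∃ cc : Fin j → ℝ, ∀ i, |F.d ω i - (ζ (Fam.pt F ω)).1 i -
          ∑ l, cc l * (ζ (Fam.pt F ω)).2 l i| ≤ 1 / 2 ^ b := by
      intro z
      by_cases hz : (G z ∧ 0 < law F.p F.Z z) ∧ g z = b
      · obtain ⟨ζ, hζ⟩ := (hqg z hz.1.1 hz.1.2).2.2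
        rw [hz.2] at hζ
        exact ⟨ζ, fun _ _ _ => hζ⟩
      · exact ⟨fun _ => (0, 0), fun h1 h2 h4 => absurd ⟨⟨h1, h2⟩, h4⟩ hz⟩
    choose ζ hζ using hex
    refine ⟨fun y => ζ y.2.2 y, fun ω hω => ?_⟩
    rw [hD] at hω
    exact hζ (F.Z ω) hω.1.1 hω.1.2 hω.2.1 ω hω.2.2
  obtain ⟨D', hD'⟩ : ∃ D' : ℕ → F.Ω → Prop, D' = fun b ω => (G (F.Z ω) ∧
    0 < law F.p F.Z (F.Z ω)) ∧ (g (F.Z ω) = b) := ⟨_, rfl⟩
  have hD2 : ∀ b : ℕ, Real.exp (-(c * b - (e + e'))) * Pe F.p (D' b) ≤ Pe F.p (D b) := by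
    intro b
    have s1 : Pe F.p (D' b) = ∑ z ∈ univ.image F.Z, (if (G z ∧ 0 < law F.p F.Z z) ∧
        (g z = b) then law F.p F.Z z else 0) := by
      rw [Pe_eq]
      have h2 : ∀ z, (if (G z ∧ 0 < law F.p F.Z z) ∧ (g z = b) then law F.p F.Z z
          else 0) = ∑ ω, if F.Z ω = z then (if D' b ω then F.p ω else 0) else 0 := by
        intro z
        by_cases hz : (G z ∧ 0 < law F.p F.Z z) ∧ (g z = b)
        · rw [if_pos hz]
          unfold law
          refine Finset.sum_congr rfl fun ω _ => ?_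
          by_cases h3 : F.Z ω = z
          · have : D' b ω := by rw [hD']; simp only [h3]; exact hz
            simp [h3, this]
          · simp [h3]
        · rw [if_neg hz]
          symm
          refine Finset.sum_eq_zero fun ω _ => ?_
          by_cases h3 : F.Z ω = z
          · have : ¬ D' b ω := by rw [hD']; simp only [h3]; exact hz
            simp [this]
          · simp [h3]
      rw [Finset.sum_congr rfl fun z _ => h2 z, Finset.sum_comm]
      refine Finset.sum_congr rfl fun ω _ => ?_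
      rw [Finset.sum_ite_eq]
      simp
    have s2 : Pe F.p (D b) = ∑ z ∈ univ.image F.Z, (if (G z ∧ 0 < law F.p F.Z z) ∧
        (g z = b) then law F.p F.Z z * Pe (Pool.Agent.H49.Ent.cond F.p F.Z z) (B z)
        else 0) := by
      rw [Pe_eq]
      have h2 : ∀ z, (if (G z ∧ 0 < law F.p F.Z z) ∧ (g z = b) then
          law F.p F.Z z * Pe (Pool.Agent.H49.Ent.cond F.p F.Z z) (B z) else 0) =
          ∑ ω, if F.Z ω = z then (if D b ω then F.p ω else 0) else 0 := by
        intro z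
        by_cases hz : (G z ∧ 0 < law F.p F.Z z) ∧ (g z = b)
        · rw [if_pos hz, Pe_eq, Finset.mul_sum]
          refine Finset.sum_congr rfl fun ω _ => ?_
          have hz0 := hz.1.2.ne'
          unfold Pool.Agent.H49.Ent.cond
          by_cases h3 : F.Z ω = z
          · by_cases h4 : B z ω
            · have : D b ω := by rw [hD]; simp only [h3]; exact ⟨hz.1, hz.2, h4⟩
              simp only [h4, h3, this, if_true]
              field_simp
            · have : ¬ D b ω := by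
                rw [hD]; simp only [h3]; exact fun h5 => h4 h5.2.2
              simp [h4, this]
          · simp [h3]
        · rw [if_neg hz]
          symm
          refine Finset.sum_eq_zero fun ω _ => ?_
          by_cases h3 : F.Z ω = z
          · have : ¬ D b ω := by
              rw [hD]; simp only [h3]; exact fun h5 => hz ⟨h5.1, h5.2.1⟩
            simp [this]
          · simp [h3]
      rw [Finset.sum_congr rfl fun z _ => h2 z, Finset.sum_comm]
      refine Finset.sum_congr rfl fun ω _ => ?_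
      rw [Finset.sum_ite_eq]
      simp
    rw [s1, s2, Finset.mul_sum]
    refine Finset.sum_le_sum fun z _ => ?_
    by_cases hz : (G z ∧ 0 < law F.p F.Z z) ∧ (g z = b)
    · rw [if_pos hz, if_pos hz]
      have h3 := (hqg z hz.1.1 hz.1.2).2.1
      rw [hz.2] at h3
      rw [mul_comm (law F.p F.Z z)]
      exact mul_le_mul_of_nonneg_right h3.le hz.1.2.le
    · rw [if_neg hz, if_neg hz, mul_zero]
  have hD3 : ∀ b ≤ J, Pe F.p (D' b) ≤ Real.exp (-e') := by
    intro b hab
    have h1 := (hD2 b).trans (hD1 b hab)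
    have h2 : Real.exp (-(c * b - e)) = Real.exp (-(c * b - (e + e'))) * Real.exp (-e') := by
      rw [← Real.exp_add]
      congr 1
      ring
    rw [h2] at h1
    exact le_of_mul_le_mul_left h1 (Real.exp_pos _)
  have hJ : (0 : ℝ) ≤ J := Nat.cast_nonneg J
  calc Pe F.p (fun ω => G (F.Z ω)) ≤ ∑ b ∈ range (J + 1), Pe F.p (D' b) := by
        simp only [Pe_eq]
        rw [Finset.sum_comm]
        refine Finset.sum_le_sum fun ω _ => ?_
        have hp0 := F.isLaw.nonneg ω
        by_cases hGω : G (F.Z ω)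
        · rw [if_pos hGω]
          rcases hp0.eq_or_lt with h0 | h0
          · rw [← h0]; simp
          have hl : 0 < law F.p F.Z (F.Z ω) := law_pos F.isLaw.nonneg F.Z h0
          have h2 := (hqg (F.Z ω) hGω hl).1
          have h3 : g (F.Z ω) ∈ range (J + 1) := by
            rw [Finset.mem_range]
            omega
          have h4 := Finset.single_le_sum (f := fun b : ℕ => if D' b ω then F.p ω else 0)
            (fun b _ => by split_ifs; exacts [hp0, le_rfl]) h3
          have h5 : D' (g (F.Z ω)) ω := by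
            rw [hD']; exact ⟨⟨hGω, hl⟩, rfl⟩
          simpa [h5] using h4
        · rw [if_neg hGω]
          exact Finset.sum_nonneg fun ab _ => by split_ifs; exacts [hp0, le_rfl]
    _ ≤ ∑ b ∈ range (J + 1), Real.exp (-e') := by
        refine Finset.sum_le_sum fun b hb => ?_
        rw [Finset.mem_range] at hb
        exact hD3 _ (by omega)
    _ = ((J : ℝ) + 1) * Real.exp (-e') := by
        rw [Finset.sum_const, Finset.card_range, nsmul_eq_mul]
        push_cast
        ring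
    _ ≤ ((J : ℝ) + 1) ^ 2 * Real.exp (-e') :=
        mul_le_mul_of_nonneg_right (by nlinarith) (Real.exp_pos _).le

end Pool.BR
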