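import Pool.Agent.H18.PB.Skel2

/-!
# Classes of families

A class is a property of families, with a freedom `e` (in nats), which is preserved by the
operations which occur in the theory of maximal families (restriction to events and to values of
the side information, truncation, rounding), up to a constant. For every class there
are the extremal value `R` of the functional (`UBc`, `LBc`), and the class `FCl.mxc` of the maximal
families of the class.
-/

set_option autoImplicit false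

namespace Pool.BR

open Finset Real
open Pool.Agent.H49.Ent Pool.Agent.H32.Dense Pool.STK Pool.KA Pool.K2S Pool.PB

/-- A class of families. -/
structure KCl (m : ℕ) where
  /-- the property, with freedom `e` -/
  P : ∀ (J : ℕ), Fam m J → ℝ → Prop
  /-- the cost of the operations -/
  C : ℝ
  hC : 0 ≤ C
  mono : ∀ {J : ℕ} {F : Fam m J} {e e' : ℝ}, e ≤ e' → P J F e → P J F e'
  res : ∀ {J : ℕ} {F : Fam m J} {e : ℝ} (e' : ℝ) {κ : Type} (A : F.Ω → κ) (a : κ)
    (h : IsLaw (cond F.p A a)), Real.exp (-e') ≤ law F.p A a → P J F e →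
    P J (F.res A a h) (e + e')
  trc : ∀ {J : ℕ} {F : Fam m J} {e : ℝ} (x : ℕ) (hx : x ≤ J), P J F e →
    P x (F.trc x hx) (e + C)
  rnd : ∀ {J : ℕ} {F : Fam m J} {e : ℝ}, P J F e → P J F.rnd (e + C)
  val : ∀ {J : ℕ} {F : Fam m J} {e : ℝ} (e' : ℝ) (G : F.ζ → Prop), P J F e →
    (∀ z, G z → 0 < law F.p F.Z z → ∀ h : IsLaw (cond F.p F.Z z),
      ¬ P J (F.res F.Z z h) (e + e')) →
    Pe F.p (fun ω => G (F.Z ω)) ≤ ((J : ℝ) + 1) ^ 2 * Real.exp (-e')

variable {m : ℕ}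

/-- The class of all families. -/
def KCl.all (m : ℕ) : KCl m where
  P := fun _ _ _ => True
  C := 0
  hC := le_rfl
  mono := fun _ h => h
  res := fun _ _ _ _ _ _ h => h
  trc := fun _ _ h => h
  rnd := fun h => h
  val := by
    intro J F e e' G _ h
    have h0 : Pe F.p (fun ω => G (F.Z ω)) = 0 := by
      classical
      rw [Pe_eq]
      refine Finset.sum_eq_zero fun ω _ => ?_
      split_ifs with hG
      · by_contra hp
        have hpos : 0 < F.p ω := lt_of_le_of_ne (F.isLaw.nonneg ω) (Ne.symm hp)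
        have hl : 0 < law F.p F.Z (F.Z ω) := law_pos F.isLaw.nonneg F.Z hpos
        exact h _ hG hl ⟨cond_nonneg F.isLaw.nonneg F.Z _, sum_cond F.p F.Z hl.ne'⟩ trivial
      · rfl
    rw [h0]
    positivity

/-- Upper bound `R` for the functional, for the families of the class. -/
def UBc (C : KCl m) (a R : ℝ) : Prop :=
  ∀ η > 0, ∃ θ > 0, ∃ J₀ : ℕ, ∀ J ≥ J₀, ∀ F : Fam m J, F.Tm (θ * J) → C.P J F (θ * J) →
    F.Ga a ≤ (R + η) * J

/-- The value `R` of the functional is attained in the class. -/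
def LBc (C : KCl m) (a R : ℝ) : Prop :=
  ∀ η > 0, ∀ θ > 0, ∀ J₀ : ℕ, ∃ J ≥ J₀, ∃ F : Fam m J, F.Tm (θ * J) ∧ C.P J F (θ * J) ∧
    (R - η) * J ≤ F.Ga a

/-- The entropy inequality for the families of the class whose times are uniform up to small
deficits. -/
def KPc (C : KCl m) : Prop :=
  ∀ ε > 0, ∃ θ > 0, ∃ J₀ : ℕ, ∀ J ≥ J₀, ∀ F : Fam m J, F.Tm (θ * J) → C.P J F (θ * J) →
    F.V J ≤ ε * J

/-- The class of the maximal families of the class. -/
def mxc (C : KCl m) (a R : ℝ) : FCl m where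
  T τ J F := (F.Tr ∧ F.Mx a R τ ∧ F.Rb (τ * J)) ∧ C.P J F (τ * J)
  mono := fun h hS => ⟨(FCl.mx m a R).mono h hS.1,
    C.mono (mul_le_mul_of_nonneg_right h (Nat.cast_nonneg _)) hS.2⟩
  tr h := h.1.1
  tm h := h.1.2.1.1
  rb h := h.1.2.2

theorem st_mxc {C : KCl m} {a R τ : ℝ} {J : ℕ} {F : Fam m J} {A : F.Ω → Prop} :
    (mxc C a R).St τ F A ↔ Fam.Stt F a R τ A ∧ C.P J F (τ * J) :=
  ⟨fun h => ⟨⟨h.1.1.1, h.1.1.2.1, h.1.1.2.2, h.2⟩, h.1.2⟩,
    fun h => ⟨⟨⟨h.1.1, h.1.2.1, h.1.2.2.1⟩, h.2⟩, h.1.2.2.2⟩⟩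

theorem UBa_iff (m : ℕ) (a R : ℝ) : UBc (KCl.all m) a R ↔ UBa m a R := by
  unfold UBc UBa KCl.all
  simp

theorem LBa_iff (m : ℕ) (a R : ℝ) : LBc (KCl.all m) a R ↔ LBa m a R := by
  unfold LBc LBa KCl.all
  simp

theorem KPc_iff (m : ℕ) : KPc (KCl.all m) ↔ KP m := by
  unfold KPc KP KCl.all
  simp

/-- Claims for all maximal families which need no upper bound. -/
theorem clg_mxc {C : KCl m} {a R : ℝ} {Φ : Stat m} (h : Clg (FCl.mx m a R) Φ) :
    Clg (mxc C a R) Φ := by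
  induction h with
  | base τ hτ J₁ h => exact Clg.base τ hτ J₁ fun J hJ F A hA => h J hJ F A (st_mx.2 (st_mxc.1 hA).1)
  | step L h ih => exact Clg.step L ih

/-! ### Existence of the extremal value -/

theorem aexc (C : KCl m) (hK : ¬ KPc C) : ∃ a₀ : ℝ, 1 < a₀ ∧ ∀ a : ℝ, 1 < a → a ≤ a₀ →
    ∃ R : ℝ, 0 < R ∧ R ≤ m * Real.log 2 ∧ UBc C a R ∧ LBc C a R := by
  obtain ⟨K, hK0, hG⟩ := gro_thm m
  have hlog : 0 < Real.log 2 := Real.log_pos (by norm_num)
  have hGa : ∀ {J : ℕ} (F : Fam m J) (a : ℝ),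
      F.Ga a = F.V J - (a - 1) * CH F.p (F.X J) F.W := by
    intro J F a
    unfold Fam.Ga Fam.V
    ring
  unfold KPc at hK
  push Not at hK
  obtain ⟨ε, hε, hKP⟩ := hK
  obtain ⟨L, hL⟩ : ∃ L : ℝ, L = m * Real.log 2 := ⟨_, rfl⟩
  have hL0 : 0 ≤ L := by rw [hL]; positivity
  refine ⟨1 + ε / (2 * (4 * L + 1)), by
    have : 0 < ε / (2 * (4 * L + 1)) := by positivity
    linarith, fun a ha1 ha2 => ?_⟩
  have hup : ∀ x y, x ≤ y → UBc C a x → UBc C a y := by
    intro x y hxy h η hη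
    obtain ⟨θ, hθ, J₀, h1⟩ := h η hη
    refine ⟨θ, hθ, J₀, fun J hJ F hF hP => (h1 J hJ F hF hP).trans ?_⟩
    have : (0 : ℝ) ≤ J := Nat.cast_nonneg J
    nlinarith
  have hcl : ∀ x, (∀ y > x, UBc C a y) → UBc C a x := by
    intro x h η hη
    obtain ⟨θ, hθ, J₀, h1⟩ := h (x + η / 2) (by linarith) (η / 2) (by linarith)
    exact ⟨θ, hθ, J₀, fun J hJ F hF hP => (h1 J hJ F hF hP).trans (le_of_eq (by ring))⟩
  have hone : UBc C a (m * Real.log 2) := by
    intro η hη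
    obtain ⟨J₀, hJ₀⟩ := exists_nat_ge (K / η)
    refine ⟨1, one_pos, J₀, fun J hJ F _ _ => ?_⟩
    have h1 := (hG J F).2.2 J
    have h2 : K ≤ η * J := by
      have h3 : (J₀ : ℝ) ≤ J := by exact_mod_cast hJ
      have h4 : K / η ≤ J := hJ₀.trans h3
      rw [div_le_iff₀ hη] at h4
      linarith
    have h5 : 0 ≤ CH F.p (F.X J) F.W := CH_nonneg F.isLaw.nonneg _ _
    rw [hGa]
    nlinarith
  have hzero : ¬ UBc C a 0 := by
    intro h
    obtain ⟨θ, hθ, J₀, h1⟩ := h (ε / 4) (by linarith)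
    obtain ⟨J, hJ, F, hF, hP, hV⟩ := hKP θ hθ (J₀ + 1)
    have h2 := h1 J (by omega) F hF hP
    rw [hGa] at h2
    have hJ1 : (1 : ℝ) ≤ J := by exact_mod_cast (by omega : 1 ≤ J)
    have h3 := aex_dir F
    have h4 : CH F.p (F.X J) F.W ≤ CH F.p (F.D J) F.Z := by
      have : F.V J = CH F.p (F.D J) F.Z - CH F.p (F.X J) F.W := by
        unfold Fam.V
        ring
      rw [this] at hV
      nlinarith
    have h5 : CH F.p (F.X J) F.W ≤ (4 * L + 1) * J := by
      have : (m : ℝ) * (((J : ℝ) + 3) * Real.log 2) = L * (J + 3) := by rw [hL]; ring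
      rw [this] at h3
      nlinarith
    have h6 : (a - 1) * CH F.p (F.X J) F.W ≤ ε / 2 * J := by
      have h7 : a - 1 ≤ ε / (2 * (4 * L + 1)) := by linarith
      have h8 : 0 ≤ CH F.p (F.X J) F.W := CH_nonneg F.isLaw.nonneg _ _
      calc (a - 1) * CH F.p (F.X J) F.W ≤ ε / (2 * (4 * L + 1)) * ((4 * L + 1) * J) :=
            mul_le_mul h7 h5 h8 (by positivity)
        _ = ε / 2 * J := by field_simp
    nlinarith
  obtain ⟨R, hR, hUR, hRs⟩ := exi_inf hup hcl ⟨_, hone⟩ hzero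
  refine ⟨R, hR, ?_, hUR, ?_⟩
  · by_contra hc
    exact hRs _ (not_le.mp hc) hone
  · intro η hη θ hθ J₀
    have hn := hRs (R - η) (by linarith)
    unfold UBc at hn
    push Not at hn
    obtain ⟨η', hη', hn⟩ := hn
    obtain ⟨J, hJ, F, hF, hP, h1⟩ := hn θ hθ J₀
    refine ⟨J, hJ, F, hF, hP, ?_⟩
    have : (0 : ℝ) ≤ J := Nat.cast_nonneg J
    nlinarith

end Pool.BR
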