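import Pool.Agent.H53.Dense.Restr
import Pool.Agent.H52.BR.Br

/-!
# Tubes and a cubic grid
-/

set_option autoImplicit false

namespace Pool.BR

open Finset Real MeasureTheory
open scoped RealInnerProductSpace ENNReal
open Pool.Agent.H53.Kak (E tube measurableSet_tube volume_tube_le norm_le_of_coord card_Icc_floor)
open Pool.Agent.H53.Dns (slp psl Mx slab near_psl height_near vol_slab Cv Cv_pos
  measurableSet_slab)

variable {d : ℕ}

/-- The cube of side `2 ^ (-J)` which contains `x`. -/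
noncomputable def cub (J : ℕ) (x : E d) (r : Fin (d + 1)) : ℤ := ⌊x r * 2 ^ J⌋

/-- The cube number `q`. -/
def cube (J : ℕ) (q : Fin (d + 1) → ℤ) : Set (E d) := {x | cub J x = q}

lemma measurableSet_cube (J : ℕ) (q : Fin (d + 1) → ℤ) : MeasurableSet (cube J q) := by
  have e : cube J q = ⋂ r, (slab r J (q r) : Set (E d)) := by
    ext x
    simp only [cube, Set.mem_setOf_eq, Set.mem_iInter, slab, funext_iff, cub]
  rw [e]
  exact MeasurableSet.iInter fun r => measurableSet_slab r J (q r)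

lemma cube_disjoint (J : ℕ) {q q' : Fin (d + 1) → ℤ} (h : q ≠ q') :
    Disjoint (cube J q) (cube J q') := by
  rw [Set.disjoint_left]
  intro x hx hy
  exact h (hx.symm.trans hy)

/-- The position of the axis at the beginning of the slab, rounded. -/
noncomputable def axs (k : Fin (d + 1)) (J : ℕ) (c e : E d) (a : ℤ) (l : Fin d) : ℤ :=
  ⌊2 ^ J * psl k c e ((a : ℝ) / 2 ^ J) l⌋

/-- A cube which meets the tube is close to the axis. -/
lemma near_cub {δ : ℝ} (hδ : 0 ≤ δ) {k : Fin (d + 1)} {c e x : E d} (h : Mx k e) (he : ‖e‖ = 1)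
    {J : ℕ} (hJ : δ * 2 ^ J ≤ 1) (hx : x ∈ tube δ c e) (l : Fin d) :
    |cub J x (k.succAbove l) - axs k J c e (cub J x k) l| ≤ 4 := by
  have h2 : (0 : ℝ) < 2 ^ J := by positivity
  have h1 := near_psl hδ h he hx l
  have h3 := h.slp he l
  refine floor_diff (K := 4) ?_
  have h4 := Int.floor_le (x k * 2 ^ J)
  have h5 := Int.lt_floor_add_one (x k * 2 ^ J)
  obtain ⟨q, hq⟩ : ∃ q : ℝ, q = ((cub J x k : ℤ) : ℝ) := ⟨_, rfl⟩
  have h4' : q ≤ x k * 2 ^ J := by rw [hq]; exact h4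
  have h5' : x k * 2 ^ J < q + 1 := by rw [hq]; exact h5
  rw [← hq]
  have e1 : x (k.succAbove l) * 2 ^ J - 2 ^ J * psl k c e (q / 2 ^ J) l =
      (x (k.succAbove l) - psl k c e (x k) l) * 2 ^ J + (x k * 2 ^ J - q) * slp k e l := by
    unfold psl
    field_simp
    ring
  rw [e1]
  have a1 : |(x (k.succAbove l) - psl k c e (x k) l) * 2 ^ J| ≤ 2 := by
    rw [abs_mul, abs_of_pos h2]
    nlinarith
  have a2 : |(x k * 2 ^ J - q) * slp k e l| ≤ 1 := by
    rw [abs_mul, abs_of_nonneg (by linarith)]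
    nlinarith [abs_nonneg (slp k e l)]
  calc _ ≤ |(x (k.succAbove l) - psl k c e (x k) l) * 2 ^ J| + |(x k * 2 ^ J - q) * slp k e l| :=
        abs_add_le _ _
    _ < ((4 : ℕ) : ℝ) := by push_cast; linarith

open Classical in
/-- The cubes near the tube. -/
noncomputable def tcub (k : Fin (d + 1)) (J : ℕ) (c e : E d) : Finset (Fin (d + 1) → ℤ) :=
  (Finset.Icc ⌊(c k - 3 / 2) * 2 ^ J⌋ ⌊(c k + 3 / 2) * 2 ^ J⌋ ×ˢ
    (Fintype.piFinset fun _ : Fin d => Finset.Icc (-4 : ℤ) 4)).image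
    fun ab => Fin.insertNth (α := fun _ => ℤ) k ab.1 (fun l => axs k J c e ab.1 l + ab.2 l)

lemma mem_tcub {δ : ℝ} (hδ : 0 ≤ δ) (hδ1 : δ < 1) {k : Fin (d + 1)} {c e x : E d} (h : Mx k e)
    (he : ‖e‖ = 1) {J : ℕ} (hJ : δ * 2 ^ J ≤ 1) (hx : x ∈ tube δ c e) :
    cub J x ∈ tcub k J c e := by
  classical
  have h2 : (0 : ℝ) < 2 ^ J := by positivity
  unfold tcub
  rw [Finset.mem_image]
  refine ⟨(cub J x k, fun l => cub J x (k.succAbove l) - axs k J c e (cub J x k) l), ?_, ?_⟩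
  · rw [Finset.mem_product]
    constructor
    · have h3 := abs_le.mp (height_near (k := k) hδ1 he hx)
      simp only [cub]
      rw [Finset.mem_Icc]
      constructor
      · apply Int.floor_le_floor
        apply mul_le_mul_of_nonneg_right _ h2.le
        linarith [h3.1]
      · apply Int.floor_le_floor
        apply mul_le_mul_of_nonneg_right _ h2.le
        linarith [h3.2]
    · rw [Fintype.mem_piFinset]
      intro l
      rw [Finset.mem_Icc]
      exact abs_le.mp (near_cub hδ h he hJ hx l)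
  · refine (Fin.forall_iff_succAbove (p := k) (P := fun r => Fin.insertNth (α := fun _ => ℤ) k
      (cub J x k) (fun l => axs k J c e (cub J x k) l + (cub J x (k.succAbove l) -
        axs k J c e (cub J x k) l)) r = cub J x r)).2 ⟨?_, fun l => ?_⟩ |> funext
    · simp
    · simp

lemma card_tcub (k : Fin (d + 1)) (J : ℕ) (c e : E d) :
    ((tcub k J c e).card : ℝ) ≤ 5 * 2 ^ J * 9 ^ d := by
  classical
  have h2m : (0 : ℝ) < 2 ^ J := by positivity
  have h0 : (tcub k J c e).card ≤ (Finset.Icc ⌊(c k - 3 / 2) * 2 ^ J⌋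
      ⌊(c k + 3 / 2) * 2 ^ J⌋).card * 9 ^ d := by
    refine Finset.card_image_le.trans ?_
    rw [Finset.card_product, Fintype.card_piFinset]
    simp
  have h1 := card_Icc_floor ((c k - 3 / 2) * 2 ^ J) ((c k + 3 / 2) * 2 ^ J) (by
    apply mul_le_mul_of_nonneg_right _ h2m.le; linarith)
  have h2 : (1 : ℝ) ≤ 2 ^ J := one_le_pow₀ (by norm_num)
  have h3 : ((Finset.Icc ⌊(c k - 3 / 2) * 2 ^ J⌋ ⌊(c k + 3 / 2) * 2 ^ J⌋).card : ℝ) ≤
      5 * 2 ^ J := by
    calc _ ≤ (c k + 3 / 2) * 2 ^ J - (c k - 3 / 2) * 2 ^ J + 2 := h1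
      _ ≤ 5 * 2 ^ J := by linarith
  calc ((tcub k J c e).card : ℝ) ≤ (((Finset.Icc ⌊(c k - 3 / 2) * 2 ^ J⌋
        ⌊(c k + 3 / 2) * 2 ^ J⌋).card * 9 ^ d : ℕ) : ℝ) := by exact_mod_cast h0
    _ = ((Finset.Icc ⌊(c k - 3 / 2) * 2 ^ J⌋ ⌊(c k + 3 / 2) * 2 ^ J⌋).card : ℝ) * 9 ^ d := by
        push_cast; ring
    _ ≤ _ := by gcongr

/-! ### Planes -/

/-- The vector with the coordinate `k` equal to `a`. -/
noncomputable def lft (k : Fin (d + 1)) (a : ℝ) (z : Fin d → ℝ) : E d :=
  WithLp.toLp 2 (Fin.insertNth (α := fun _ => ℝ) k a z)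

@[simp] lemma lft_same (k : Fin (d + 1)) (a : ℝ) (z : Fin d → ℝ) : lft k a z k = a := by
  simp [lft]

@[simp] lemma lft_succ (k : Fin (d + 1)) (a : ℝ) (z : Fin d → ℝ) (l : Fin d) :
    lft k a z (k.succAbove l) = z l := by
  simp [lft]

/-- The subspace of an affine plane of slopes. -/
noncomputable def lfV {j : ℕ} (k : Fin (d + 1)) (s : (Fin d → ℝ) × (Fin j → Fin d → ℝ)) :
    Submodule ℝ (E d) :=
  Submodule.span ℝ (Set.range fun o : Option (Fin j) =>
    o.elim (lft k 1 s.1) fun l => lft k 0 (s.2 l))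

lemma finrank_lfV {j : ℕ} (k : Fin (d + 1)) (s : (Fin d → ℝ) × (Fin j → Fin d → ℝ)) :
    Module.finrank ℝ (lfV k s) ≤ j + 1 := by
  unfold lfV
  have h := finrank_range_le_card (R := ℝ) (fun o : Option (Fin j) =>
    o.elim (lft k 1 s.1) fun l => lft k 0 (s.2 l))
  rw [Fintype.card_option, Fintype.card_fin] at h
  exact h

/-- A direction whose slopes are close to an affine plane is close to the subspace. -/
lemma infDist_lfV {j : ℕ} {k : Fin (d + 1)} {e : E d} (h : Mx k e) (he : ‖e‖ = 1)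
    (s : (Fin d → ℝ) × (Fin j → Fin d → ℝ)) (cc : Fin j → ℝ) {r : ℝ} (hr : 0 ≤ r)
    (hs : ∀ i, |slp k e i - s.1 i - ∑ l, cc l * s.2 l i| ≤ r) :
    Metric.infDist e (lfV k s : Set (E d)) ≤ (d + 1) * r := by
  obtain ⟨v, hv⟩ : ∃ v : E d, v = e k • (lft k 1 s.1 + ∑ l, cc l • lft k 0 (s.2 l)) := ⟨_, rfl⟩
  have hmem : v ∈ lfV k s := by
    rw [hv]
    refine Submodule.smul_mem _ _ (Submodule.add_mem _ ?_ (Submodule.sum_mem _ fun l _ =>
      Submodule.smul_mem _ _ ?_))
    · exact Submodule.subset_span ⟨none, rfl⟩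
    · exact Submodule.subset_span ⟨some l, rfl⟩
  refine (Metric.infDist_le_dist_of_mem hmem).trans ?_
  rw [dist_eq_norm]
  refine norm_le_of_coord hr fun i => ?_
  have hek : |e k| ≤ 1 := by
    rw [← he]
    simpa using PiLp.norm_apply_le e k
  have hne := h.ne he
  rcases eq_or_ne i k with rfl | hi
  · have e1 : (e - v) i = 0 := by
      rw [hv]
      simp [lft_same]
    rw [e1, abs_zero]
    exact hr
  · obtain ⟨l, rfl⟩ := Fin.exists_succAbove_eq hi
    have e1 : (e - v) (k.succAbove l) = e k * (slp k e l - s.1 l - ∑ l', cc l' * s.2 l' l) := by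
      rw [hv]
      simp only [PiLp.sub_apply, PiLp.smul_apply, PiLp.add_apply, smul_eq_mul, lft_succ, slp]
      have e2 : (∑ l', cc l' • lft k 0 (s.2 l')) (k.succAbove l) = ∑ l', cc l' * s.2 l' l := by
        rw [WithLp.ofLp_sum, Finset.sum_apply]
        refine Finset.sum_congr rfl fun l' _ => ?_
        simp
      rw [e2]
      field_simp
      ring
    rw [e1, abs_mul]
    calc |e k| * |slp k e l - s.1 l - ∑ l', cc l' * s.2 l' l| ≤ 1 * r :=
          mul_le_mul hek (hs l) (abs_nonneg _) zero_le_one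
      _ = r := one_mul r

/-! ### Integration of pointwise counts -/

open Classical in
/-- A pointwise inequality between multiplicities can be integrated. -/
lemma sum_vol_le {ι : Type} {S A : Finset ι} {Y : Set (E d)} (hY : MeasurableSet Y)
    {T : ι → Set (E d)} (hT : ∀ i, MeasurableSet (T i)) {L : ℝ} (hL : 0 ≤ L)
    (h : ∀ x ∈ Y, ((A.filter fun i => x ∈ T i).card : ℝ) ≤
      L * ((S.filter fun i => x ∈ T i).card : ℝ)) :
    ∑ i ∈ A, volume (Y ∩ T i) ≤ ENNReal.ofReal L * ∑ i ∈ S, volume (Y ∩ T i) := by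
  have key : ∀ B : Finset ι, ∑ i ∈ B, volume (Y ∩ T i) =
      ∫⁻ x in Y, ((B.filter fun i => x ∈ T i).card : ℝ≥0∞) := by
    intro B
    have e1 : ∀ x, ((B.filter fun i => x ∈ T i).card : ℝ≥0∞) =
        ∑ i ∈ B, (T i).indicator (fun _ => (1 : ℝ≥0∞)) x := by
      intro x
      rw [Finset.card_filter]
      push_cast
      exact Finset.sum_congr rfl fun i _ => by rw [Set.indicator_apply]
    simp only [e1]
    rw [lintegral_finset_sum _ fun i _ => measurable_const.indicator (hT i)]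
    refine Finset.sum_congr rfl fun i _ => ?_
    rw [lintegral_indicator (hT i), setLIntegral_const, one_mul, Measure.restrict_apply (hT i),
      Set.inter_comm]
  rw [key, key, ← lintegral_const_mul']
  · refine setLIntegral_mono' hY fun x hx => ?_
    have h1 := h x hx
    rw [← ENNReal.ofReal_natCast, ← ENNReal.ofReal_natCast, ← ENNReal.ofReal_mul hL]
    exact ENNReal.ofReal_le_ofReal h1
  · exact ENNReal.ofReal_ne_top

end Pool.BR
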