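import Pool.Agent.H52.BR.Br

/-!
# Broad families: truncation and rounded lines
-/

set_option autoImplicit false

namespace Pool.BR

open Finset Real
open Pool.Agent.H49.Ent Pool.Agent.H32.Dense Pool.STK Pool.KA Pool.K2S Pool.PB

variable {m J : ℕ}

theorem pt_eq {F : Fam m J} {ω ω' : F.Ω} (h : Fam.pt F ω = Fam.pt F ω') :
    F.X J ω = F.X J ω' ∧ F.T ω = F.T ω' ∧ F.Z ω = F.Z ω' := by
  obtain ⟨h3, h4⟩ := Prod.ext_iff.1 h
  obtain ⟨h5, h6⟩ := Prod.ext_iff.1 h4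
  exact ⟨h3, h5, h6⟩

theorem d_diff (F : Fam m J) (ω ω' : F.Ω) (i : Fin m) : |F.d ω i - F.d ω' i| ≤ 2 := by
  have h1 := abs_le.1 (F.dir ω i)
  have h2 := abs_le.1 (F.dir ω' i)
  rw [abs_le]
  constructor <;> linarith [h1.1, h1.2, h2.1, h2.2]

theorem tail_frac (T k : ℕ) : 0 ≤ (T : ℝ) / 2 ^ k - ((T / 2 ^ k : ℕ) : ℝ) ∧
    (T : ℝ) / 2 ^ k - ((T / 2 ^ k : ℕ) : ℝ) < 1 := by
  have h2 : (0 : ℝ) < 2 ^ k := by positivity
  have h3 := Nat.div_add_mod T (2 ^ k)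
  have h4 : T % 2 ^ k < 2 ^ k := Nat.mod_lt _ (by positivity)
  have h5 : (T : ℝ) = 2 ^ k * ((T / 2 ^ k : ℕ) : ℝ) + ((T % 2 ^ k : ℕ) : ℝ) := by
    exact_mod_cast h3.symm
  have h6 : ((T % 2 ^ k : ℕ) : ℝ) < 2 ^ k := by exact_mod_cast h4
  have h7 : (0 : ℝ) ≤ ((T % 2 ^ k : ℕ) : ℝ) := Nat.cast_nonneg _
  constructor
  · rw [sub_nonneg, le_div_iff₀ h2]
    linarith
  · rw [sub_lt_iff_lt_add, div_lt_iff₀ h2]
    linarith

/-- The constant of the operations. -/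
noncomputable def CB (m : ℕ) (c : ℝ) : ℝ := |c| + (2 * m) * Real.log 13

theorem CB_nonneg (m : ℕ) (c : ℝ) : 0 ≤ CB m c := by
  unfold CB
  have : 0 ≤ Real.log 13 := Real.log_nonneg (by norm_num)
  positivity

theorem card_log_le (m K : ℕ) (c : ℝ) (hK : K ≤ 6) {n : ℕ} (hn : n ≤ 2 * m) :
    (n : ℝ) * Real.log (2 * K + 1) + |c| ≤ CB m c := by
  unfold CB
  have h1 : Real.log (2 * K + 1) ≤ Real.log 13 := by
    refine Real.log_le_log (by positivity) ?_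
    have : (K : ℝ) ≤ 6 := by exact_mod_cast hK
    linarith
  have h0 : 0 ≤ Real.log (2 * (K : ℝ) + 1) := Real.log_nonneg (by
    have : (0 : ℝ) ≤ K := Nat.cast_nonneg K
    linarith)
  have h2 : (n : ℝ) ≤ 2 * m := by exact_mod_cast hn
  have h3 : (n : ℝ) * Real.log (2 * K + 1) ≤ 2 * m * Real.log 13 :=
    mul_le_mul h2 h1 h0 (by positivity)
  linarith

theorem BrP.of_transfer {c e : ℝ} {p : ℝ} {g K n : ℕ} (hK : K ≤ 6) (hn : n ≤ 2 * m)
    (hp : Real.exp (-(c * g - (e + CB m c))) < p)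
    (h : p ≤ Real.exp (-(c * g - (e + n * Real.log (2 * K + 1))))) : False := by
  have h1 := card_log_le m K c hK hn
  have h2 := abs_nonneg c
  have h3 : Real.exp (-(c * g - (e + n * Real.log (2 * K + 1)))) ≤
      Real.exp (-(c * g - (e + CB m c))) := Real.exp_le_exp.2 (by linarith)
  linarith

/-- Truncation. -/
theorem BrP.trc {j : ℕ} {c e : ℝ} {F : Fam m J} (x : ℕ) (hx : x ≤ J) (h : BrP j c J F e) :
    BrP j c x (F.trc x hx) (e + CB m c) := by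
  intro g hg B hB hPl
  have key : ∀ ω i, (2 : ℝ) ^ x * (F.trc x hx).x ω i = 2 ^ x * F.x ω i -
      ((F.T ω : ℝ) / 2 ^ (J - x) - ((F.T ω / 2 ^ (J - x) : ℕ) : ℝ)) * F.d ω i := by
    intro ω i
    have hJ : (2 : ℝ) ^ J = 2 ^ x * 2 ^ (J - x) := by rw [← pow_add]; congr 1; omega
    change (2 : ℝ) ^ x * (F.u ω i + ((F.T ω / 2 ^ (J - x) : ℕ) : ℝ) / 2 ^ x * F.d ω i) =
      2 ^ x * (F.u ω i + (F.T ω : ℝ) / 2 ^ J * F.d ω i) - _
    rw [hJ]
    field_simp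
    ring
  refine BrP.of_transfer (m := m) (e := e) (K := 3) (n := Fintype.card (Fin m))
    (by norm_num) (by rw [Fintype.card_fin]; omega) hB (h.transfer
      (g' := Fam.pt (F.trc x hx)) (fun ω => (F.trc x hx).X x ω) 3 (by omega : g ≤ J) ?_ ?_ hPl)
  · intro ω ω' h1 h2
    obtain ⟨-, hT, hZ⟩ := pt_eq h1
    have e1 : (F.trc x hx).T ω = (F.trc x hx).T ω' := by
      change F.T ω / 2 ^ (J - x) = F.T ω' / 2 ^ (J - x)
      rw [hT]
    exact Prod.ext h2 (Prod.ext e1 hZ)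
  · intro ω ω' h1 i
    obtain ⟨hX, hT, -⟩ := pt_eq h1
    refine floor_diff ?_
    change |(2 : ℝ) ^ x * (F.trc x hx).x ω i - 2 ^ x * (F.trc x hx).x ω' i| < _
    rw [key, key, hT]
    have h3 := fl_close (fl_coarse hx hX) i
    have h4 := tail_frac (F.T ω') (J - x)
    have h5 := d_diff F ω ω' i
    obtain ⟨r, hr⟩ : ∃ r, r = (F.T ω' : ℝ) / 2 ^ (J - x) - ((F.T ω' / 2 ^ (J - x) : ℕ) : ℝ) :=
      ⟨_, rfl⟩
    rw [← hr] at h4 ⊢
    have h6 : |r * (F.d ω i - F.d ω' i)| ≤ 2 := by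
      rw [abs_mul, abs_of_nonneg h4.1]
      nlinarith [abs_nonneg (F.d ω i - F.d ω' i)]
    rw [abs_lt] at h3 ⊢
    rw [abs_le] at h6
    push_cast
    constructor <;> nlinarith [h3.1, h3.2, h6.1, h6.2]

/-- Rounded lines. -/
theorem BrP.rnd {j : ℕ} {c e : ℝ} {F : Fam m J} (h : BrP j c J F e) :
    BrP j c J F.rnd (e + CB m c) := by
  intro g hgJ B hB hPl
  rcases Nat.eq_zero_or_pos g with hg | hg
  · -- trivial scale
    have h0 := h.nonneg
    have h1 := CB_nonneg m c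
    have h2 : Pe F.rnd.p B ≤ 1 := by
      have := Pe_mono F.rnd.isLaw (A := fun _ => True) (B := B) (fun _ _ => trivial)
      rwa [Pe_univ F.rnd.isLaw] at this
    rw [hg] at hB
    have h3 : (1 : ℝ) ≤ Real.exp (-(c * ((0 : ℕ) : ℝ) - (e + CB m c))) := by
      rw [← Real.exp_zero]
      refine Real.exp_le_exp.2 ?_
      push_cast
      linarith
    linarith
  have hPl' : PlU j (1 / 2 ^ (g - 1)) (Fam.pt F.rnd) F.d B := by
    obtain ⟨ζ, hζ⟩ := hPl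
    refine ⟨ζ, fun ω hω => ?_⟩
    obtain ⟨cc, hcc⟩ := hζ ω hω
    refine ⟨cc, fun i => ?_⟩
    have h1 := hcc i
    have e1 : |F.d ω i - F.rnd.d ω i| ≤ 1 / 2 ^ g := by
      change |F.d ω i - (⌊(2 : ℝ) ^ J * F.d ω i⌋ : ℝ) / 2 ^ J| ≤ _
      have a1 := Int.floor_le ((2 : ℝ) ^ J * F.d ω i)
      have a2 := Int.lt_floor_add_one ((2 : ℝ) ^ J * F.d ω i)
      have hJ0 : (0 : ℝ) < 2 ^ J := by positivity
      have e : F.d ω i - (⌊(2 : ℝ) ^ J * F.d ω i⌋ : ℝ) / 2 ^ J =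
          (2 ^ J * F.d ω i - (⌊(2 : ℝ) ^ J * F.d ω i⌋ : ℝ)) / 2 ^ J := by field_simp
      have h5 : |F.d ω i - (⌊(2 : ℝ) ^ J * F.d ω i⌋ : ℝ) / 2 ^ J| ≤ 1 / 2 ^ J := by
        rw [e, abs_div, abs_of_pos hJ0]
        refine div_le_div_of_nonneg_right ?_ hJ0.le
        rw [abs_le]
        constructor <;> linarith
      exact h5.trans (inv_mono hgJ)
    have e2 : (1 : ℝ) / 2 ^ (g - 1) = 1 / 2 ^ g + 1 / 2 ^ g := by
      have : g = (g - 1) + 1 := by omega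
      rw [this, pow_succ, Nat.add_sub_cancel]
      field_simp
      norm_num
    rw [e2]
    have e3 : F.d ω i - (ζ (Fam.pt F.rnd ω)).1 i -
        ∑ l, cc l * (ζ (Fam.pt F.rnd ω)).2 l i =
        (F.rnd.d ω i - (ζ (Fam.pt F.rnd ω)).1 i -
        ∑ l, cc l * (ζ (Fam.pt F.rnd ω)).2 l i) + (F.d ω i - F.rnd.d ω i) := by
      ring
    rw [e3]
    exact (abs_add_le _ _).trans (add_le_add h1 e1)
  have key := h.transfer (g' := Fam.pt F.rnd)
      (fun ω => F.rnd.X J ω) 5 (by omega : g - 1 ≤ J) ?_ ?_ hPl'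
  · have h1 := card_log_le m 5 c (by norm_num) (n := Fintype.card (Fin m))
      (by rw [Fintype.card_fin]; omega)
    have h2 : ((g - 1 : ℕ) : ℝ) = g - 1 := by rw [Nat.cast_sub hg]; simp
    rw [h2] at key
    have h3 : Real.exp (-(c * ((g : ℝ) - 1) - (e + Fintype.card (Fin m) *
        Real.log (2 * ((5 : ℕ) : ℝ) + 1)))) ≤ Real.exp (-(c * g - (e + CB m c))) := by
      refine Real.exp_le_exp.2 ?_
      have := le_abs_self c
      nlinarith
    have h4 : Pe F.rnd.p B = Pe F.p B := rfl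
    rw [h4] at hB
    linarith
  · intro ω ω' h1 h2
    obtain ⟨-, hT, hZ⟩ := pt_eq h1
    exact Prod.ext h2 (Prod.ext hT hZ)
  · intro ω ω' h1 i
    obtain ⟨hX, -, -⟩ := pt_eq h1
    refine floor_diff ?_
    have h3 := fl_close hX i
    have h4 := MRN.x_close F ω i
    have h5 := MRN.x_close F ω' i
    rw [abs_lt] at h3 ⊢
    push_cast
    constructor <;> linarith [h3.1, h3.2, h4.1, h4.2, h5.1, h5.2]

/-- **The class of the `(j, c)`-broad families.** -/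
noncomputable def KCl.br (m j : ℕ) (c : ℝ) : KCl m where
  P := fun J F e => BrP j c J F e
  C := CB m c
  hC := CB_nonneg m c
  mono := fun he h => h.mono he
  res := fun e' _ A a hl hA h => h.res e' A a hl hA
  trc := fun x hx h => h.trc x hx
  rnd := fun h => h.rnd
  val := fun e' G h hG => h.val e' G hG

/-- The fans of broad families are spread. -/
theorem sps_br {m j : ℕ} {c : ℝ} (hc : 0 < c) (a R : ℝ) : SPS (mxc (KCl.br m j c) a R) j := by
  intro g hg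
  obtain ⟨g', hg'⟩ : ∃ g', g' = min g 1 := ⟨_, rfl⟩
  have hg0 : 0 < g' := by rw [hg']; exact lt_min hg one_pos
  have hg1 : g' ≤ 1 := by rw [hg']; exact min_le_right _ _
  have hgg : g' ≤ g := by rw [hg']; exact min_le_left _ _
  refine ⟨c * g' / 4, by positivity, Clg.of (τ := c * g' / 8) (by positivity) (⌈8 / g'⌉₊ + 1)
    fun J hJ F A hS => ?_⟩
  refine Sp.mono le_rfl hgg ?_
  intro B hB hP hPl
  have hBr : BrP j c J F (c * g' / 8 * J) := hS.1.2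
  have hA : Real.exp (-(c * g' / 8 * J)) ≤ Pe F.p A := hS.2
  have hJ1 : 8 / g' + 1 ≤ J := by
    have h1 : ((⌈8 / g'⌉₊ + 1 : ℕ) : ℝ) ≤ J := by exact_mod_cast hJ
    push_cast at h1
    linarith [Nat.le_ceil (8 / g')]
  have hJ2 : 8 < g' * J := by
    have h1 : 8 / g' < J := by linarith
    rw [div_lt_iff₀ hg0] at h1
    linarith
  obtain ⟨h, hh⟩ : ∃ h, h = ⌊g' * J⌋₊ := ⟨_, rfl⟩
  have hh1 : g' * J < h + 1 := by rw [hh]; exact Nat.lt_floor_add_one _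
  have hJr : (0 : ℝ) ≤ J := Nat.cast_nonneg J
  have hhJ : h ≤ J := by
    have h1 : (h : ℝ) ≤ g' * J := by rw [hh]; exact Nat.floor_le (by positivity)
    have h2 : g' * J ≤ 1 * J := mul_le_mul_of_nonneg_right hg1 hJr
    have h3 : (h : ℝ) ≤ J := by linarith
    exact_mod_cast h3
  refine hBr h hhJ B ?_ ?_
  · have h1 : Real.exp (-(c * g' / 4 * J)) * Real.exp (-(c * g' / 8 * J)) ≤ Pe F.p B :=
      (mul_le_mul_of_nonneg_left hA (Real.exp_pos _).le).trans hP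
    refine lt_of_lt_of_le ?_ h1
    rw [← Real.exp_add]
    refine Real.exp_lt_exp.2 ?_
    have h2 : c * (g' * J) < c * (h + 1) := mul_lt_mul_of_pos_left hh1 hc
    nlinarith
  · rw [hh]
    exact hPl

end Pool.BR
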