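import Pool.Agent.H52.BR.Rows
import Pool.Agent.H52.BR.Ops
import Pool.Agent.H60.PB.CHT
import Pool.Agent.H18.PB.End

/-!
# Charts and ends for the maximal families of a class
-/

set_option autoImplicit false

namespace Pool.BR

open Finset Real
open Pool.Agent.H49.Ent Pool.Agent.H32.Dense Pool.STK Pool.KA Pool.KSAT Pool.K2S Pool.PB
open Pool.KA.TRC Pool.KEND Pool.KQ
open Pool.Agent.H60.PB (exists_normal ch_hered exists_large)

/-- **(CHS)** The fans of the maximal families of a class are flat in a fixed chart. -/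
theorem chsc (k : ℕ) (C : KCl (k + 1)) {a R : ℝ} (ha : 1 ≤ a) (hR : 0 < R) (hU : UBc C a R) :
    CHS (mxc C a R) := by
  classical
  obtain ⟨c, hc, hlin⟩ := hypc k C ha hR hU
  obtain ⟨c₁, hc₁⟩ : ∃ c₁, c₁ = c / 2 := ⟨_, rfl⟩
  have hc₁0 : 0 < c₁ := by rw [hc₁]; linarith
  refine ⟨c₁, hc₁0, Clg.mp ?_ hlin⟩
  refine Clg.one ⟨k + 1, fun J F i => Ch F i ⌊c₁ * J⌋₊,
    fun _ _ _ => ch_hered _ _ _⟩ fun κ hκ => ?_
  -- `2 ^ s ≥ k + 1` digits are lost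
  obtain ⟨s, hs⟩ : ∃ s, s = Nat.clog 2 (k + 1) := ⟨_, rfl⟩
  have hs1 : ((k + 1 : ℕ) : ℝ) ≤ 2 ^ s := by
    have : k + 1 ≤ 2 ^ s := by rw [hs]; exact Nat.le_pow_clog (by norm_num) _
    exact_mod_cast this
  obtain ⟨J₁, hJ₁⟩ := exists_nat_gt (Real.log (k + 1 : ℕ) / κ + 2 * s / c)
  refine ⟨1, one_pos, J₁, fun J hJ F A _ hSb hH => ?_⟩
  have hJr : Real.log (k + 1 : ℕ) / κ + 2 * s / c < J := hJ₁.trans_le (by exact_mod_cast hJ)
  have hk1 : (1 : ℝ) ≤ ((k + 1 : ℕ) : ℝ) := by exact_mod_cast Nat.succ_le_succ (Nat.zero_le k)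
  have q1 : 0 ≤ Real.log (k + 1 : ℕ) / κ := div_nonneg (Real.log_nonneg hk1) hκ.le
  have q2 : 0 ≤ 2 * s / c := by positivity
  have k1 : Real.log (k + 1 : ℕ) ≤ κ * J := by
    have : Real.log (k + 1 : ℕ) / κ < J := by linarith
    rw [div_lt_iff₀ hκ] at this
    linarith
  have k2 : ((⌊c₁ * J⌋₊ + s : ℕ) : ℝ) ≤ c * J := by
    push_cast
    have h1 : (⌊c₁ * J⌋₊ : ℝ) ≤ c₁ * J := Nat.floor_le (by positivity)
    have h3 : 2 * s < J * c := by
      have : 2 * s / c < J := by linarith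
      rwa [div_lt_iff₀ hc] at this
    rw [hc₁] at h1
    rw [hc₁]
    linarith
  obtain ⟨ζ, hζ'⟩ := hH
  have k3 : (1 : ℝ) / 2 ^ ⌊c * J⌋₊ ≤ 1 / 2 ^ (⌊c₁ * J⌋₊ + s) :=
    one_div_le_one_div_of_le (by positivity)
      (pow_le_pow_right₀ (by norm_num) (Nat.le_floor k2))
  have hζ : ∀ ω, A ω → ∃ c : Fin k → ℝ, ∀ j, |F.d ω j - (ζ (Fam.pt F ω)).1 j -
      ∑ i, c i * (ζ (Fam.pt F ω)).2 i j| ≤ 1 / 2 ^ (⌊c₁ * J⌋₊ + s) := by
    intro ω hω
    obtain ⟨c', hc'⟩ := hζ' ω hω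
    exact ⟨c', fun j => (hc' j).trans k3⟩
  have hp := F.isLaw
  have hnor : ∀ y : (Fin (k + 1) → ℤ) × (ℕ × F.ζ), ∃ (ν : Fin (k + 1) → ℝ) (i : Fin (k + 1)),
      ν i = 1 ∧ (∀ j, |ν j| ≤ 1) ∧ ∀ l, ∑ j, ν j * (ζ y).2 l j = 0 := fun y => exists_normal _
  choose ν ci hν1 hν2 hν3 using hnor
  obtain ⟨i, hi⟩ := exists_large (p := F.p) (n := k + 1) (by omega) (A := A)
    (fun ω => ci (Fam.pt F ω))
  refine ⟨i, (hSb i).of_sub (B := fun ω => A ω ∧ ci (Fam.pt F ω) = i) (fun ω hω => hω.1) ?_ ?_⟩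
  · refine le_trans ?_ hi
    rw [div_eq_mul_inv, mul_comm]
    refine mul_le_mul_of_nonneg_left ?_ (Pe_nonneg hp A)
    rw [← Real.exp_log (lt_of_lt_of_le one_pos hk1), ← Real.exp_neg]
    exact Real.exp_le_exp.2 (by linarith)
  · refine ⟨fun y => ∑ j, ν y j * (ζ y).1 j, fun y j => if j = i then 0 else - ν y j,
      fun ω hω => ⟨by simp, fun j => ?_, ?_⟩⟩
    · show |if j = i then (0 : ℝ) else - ν (Fam.pt F ω) j| ≤ 1
      split_ifs
      · simp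
      · rw [abs_neg]; exact hν2 _ _
    · obtain ⟨y, hy⟩ : ∃ y, y = Fam.pt F ω := ⟨_, rfl⟩
      obtain ⟨c', hc'⟩ := hζ ω hω.1
      have hci := hω.2
      rw [← hy] at hc' hci ⊢
      have e1 : F.d ω i - ∑ j, ν y j * (ζ y).1 j -
          ∑ j, (if j = i then (0 : ℝ) else - ν y j) * F.d ω j =
          ∑ j, ν y j * (F.d ω j - (ζ y).1 j - ∑ l, c' l * (ζ y).2 l j) := by
        have e2 : ∑ j, ν y j * ∑ l, c' l * (ζ y).2 l j = 0 := by
          simp only [Finset.mul_sum]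
          rw [Finset.sum_comm]
          refine Finset.sum_eq_zero fun l _ => ?_
          have := hν3 y l
          calc ∑ j, ν y j * (c' l * (ζ y).2 l j) = c' l * ∑ j, ν y j * (ζ y).2 l j := by
                rw [Finset.mul_sum]
                exact Finset.sum_congr rfl fun j _ => by ring
            _ = 0 := by rw [this, mul_zero]
        have e3 : ∑ j, ν y j * F.d ω j = F.d ω i - ∑ j, (if j = i then (0 : ℝ) else - ν y j) *
            F.d ω j := by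
          have h4 : F.d ω i = ∑ j, (if j = i then F.d ω j else 0) := by simp
          rw [h4, ← Finset.sum_sub_distrib]
          refine Finset.sum_congr rfl fun j _ => ?_
          by_cases h : j = i
          · have : ν y j = 1 := by rw [h, ← hci]; exact hν1 y
            rw [if_pos h, if_pos h, this]
            ring
          · rw [if_neg h, if_neg h]
            ring
        simp only [mul_sub, Finset.sum_sub_distrib]
        rw [e2, e3]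
        ring
      rw [e1]
      calc |∑ j, ν y j * (F.d ω j - (ζ y).1 j - ∑ l, c' l * (ζ y).2 l j)|
          ≤ ∑ j, |ν y j * (F.d ω j - (ζ y).1 j - ∑ l, c' l * (ζ y).2 l j)| :=
            Finset.abs_sum_le_sum_abs _ _
        _ ≤ ∑ _j : Fin (k + 1), 1 / 2 ^ (⌊c₁ * J⌋₊ + s) := by
            refine Finset.sum_le_sum fun j _ => ?_
            rw [abs_mul]
            calc _ ≤ 1 * |F.d ω j - (ζ y).1 j - ∑ l, c' l * (ζ y).2 l j| :=
                  mul_le_mul_of_nonneg_right (hν2 y j) (abs_nonneg _)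
              _ ≤ _ := by rw [one_mul]; exact hc' j
        _ = ((k + 1 : ℕ) : ℝ) * (1 / 2 ^ (⌊c₁ * J⌋₊ + s)) := by
            rw [Finset.sum_const, Finset.card_univ, Fintype.card_fin, nsmul_eq_mul]
        _ ≤ 2 ^ s * (1 / 2 ^ (⌊c₁ * J⌋₊ + s)) :=
            mul_le_mul_of_nonneg_right hs1 (by positivity)
        _ = 1 / 2 ^ ⌊c₁ * J⌋₊ := by
            rw [pow_add]
            field_simp


open PB.End in
open Classical in
/-- **(END)** for a class of maximal families with spread fans. -/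
theorem end_cls (k : ℕ) {a R : ℝ} (ha : 1 ≤ a) (hR : 0 < R) {S : FCl (k + 2)}
    (hT : ∀ (τ : ℝ) (J : ℕ) (F : Fam (k + 2) J), S.T τ J F → (FCl.mx (k + 2) a R).T τ J F)
    (hS : SPS S k) : ENDS S := by
  obtain ⟨C, hC, hfull⟩ := full_lab k
  have hl2 : 0 < Real.log 2 := Real.log_pos (by norm_num)
  have hl2' : Real.log 2 ≤ 1 := by
    have := Real.log_le_sub_one_of_pos (show (0 : ℝ) < 2 by norm_num)
    linarith
  have hk : (0 : ℝ) ≤ k := by positivity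
  have ha0 : 0 < a := by linarith
  -- constants
  obtain ⟨x, hx⟩ : ∃ x, x = min (1 / 4) (R / (8 * ((k : ℝ) + 3))) := ⟨_, rfl⟩
  have hx0 : 0 < x := by rw [hx]; positivity
  have hx4 : x ≤ 1 / 4 := by rw [hx]; exact min_le_left _ _
  have hx1 : ((k : ℝ) + 3) * x ≤ R / 8 := by
    have : x ≤ R / (8 * ((k : ℝ) + 3)) := by rw [hx]; exact min_le_right _ _
    rw [le_div_iff₀ (by positivity)] at this
    linarith
  obtain ⟨g₁, hg₁⟩ : ∃ g₁, g₁ = min (R / (48 * ((k : ℝ) + 2) ^ 3)) (1 / (4 * ((k : ℝ) + 2))) :=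
    ⟨_, rfl⟩
  have hg₁0 : 0 < g₁ := by rw [hg₁]; positivity
  have hg₁R : 6 * ((k : ℝ) + 2) ^ 3 * g₁ ≤ R / 8 := by
    have : g₁ ≤ R / (48 * ((k : ℝ) + 2) ^ 3) := by rw [hg₁]; exact min_le_left _ _
    rw [le_div_iff₀ (by positivity)] at this
    linarith
  have hg₁4 : ((k : ℝ) + 2) * g₁ ≤ 1 / 4 := by
    have : g₁ ≤ 1 / (4 * ((k : ℝ) + 2)) := by rw [hg₁]; exact min_le_right _ _
    rw [le_div_iff₀ (by positivity)] at this
    linarith
  obtain ⟨ψ, hψ, hsp⟩ := hS g₁ hg₁0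
  have hKE : 0 ≤ KE (k + 2) := by unfold KE; positivity
  obtain ⟨τ', hτ'⟩ : ∃ τ', τ' = R / (8 * (((k : ℝ) + 3) / g₁ + KE (k + 2) + 3)) := ⟨_, rfl⟩
  have hτ'0 : 0 < τ' := by rw [hτ']; positivity
  have hτ'1 : (((k : ℝ) + 3) / g₁ + KE (k + 2) + 3) * τ' ≤ R / 8 := by
    rw [hτ']
    refine le_of_eq ?_
    field_simp
  obtain ⟨τ, hτ⟩ : ∃ τ, τ = τ' / (7 * (1 + a)) := ⟨_, rfl⟩
  have hτ0 : 0 < τ := by rw [hτ]; positivity
  refine ⟨x, hx0, fun K => ⟨1, fun N hN i₁ i p ρ' hi hiρ hp hpρ hρN => ?_⟩⟩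
  have hN0 : (1 : ℝ) ≤ N := by exact_mod_cast hN
  obtain ⟨δ, hδ⟩ : ∃ δ, δ = CV (k + 2) K + cc (k + 2) / g₁ + 1 := ⟨_, rfl⟩
  have hcc := cc_nonneg (k + 2)
  have hCV := CV_nonneg (k + 2) K
  have hδ0 : 0 < δ := by
    have : 0 ≤ cc (k + 2) / g₁ := by positivity
    rw [hδ]; linarith
  obtain ⟨Lρ, hLρ⟩ : ∃ L, L = Real.log (16 * ((k : ℝ) + 2) ^ 2 / R + 1) := ⟨_, rfl⟩
  have hLρ0 : 0 ≤ Lρ := by
    rw [hLρ]
    exact Real.log_nonneg (by linarith [show 0 ≤ 16 * ((k : ℝ) + 2) ^ 2 / R by positivity])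
  obtain ⟨Cst, hCst⟩ : ∃ Cst, Cst = N + 30 * ((k : ℝ) + 2) ^ 3 + C / g₁ + C + |CF (k + 2) K| :=
    ⟨_, rfl⟩
  have hCst0 : 0 ≤ Cst := by
    have := abs_nonneg (CF (k + 2) K)
    rw [hCst]; positivity
  obtain ⟨J₁, hJ₁⟩ := exists_nat_gt (16 * Cst / R + Real.log 2 / τ +
    (4 * δ + 4 * Real.log 2 + 4 * Lρ) / ψ + 20 * ((k : ℝ) + 2) + 2 + N)
  refine Clg.mp ?_ hsp
  refine Clg.of (τ := τ) hτ0 J₁ ?_
  intro J hJ F A hSt hSpr hBl
  have hJr : (J₁ : ℝ) ≤ J := by exact_mod_cast hJ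
  have t1 : 0 ≤ 16 * Cst / R := by positivity
  have t2 : 0 ≤ Real.log 2 / τ := by positivity
  have t3 : 0 ≤ (4 * δ + 4 * Real.log 2 + 4 * Lρ) / ψ := by positivity
  have t4 : 0 ≤ 20 * ((k : ℝ) + 2) := by positivity
  have hJ0 : (0 : ℝ) < J := by linarith
  have j1 : 16 * Cst / R < J := by linarith
  have j2 : Real.log 2 / τ < J := by linarith
  have j3 : (4 * δ + 4 * Real.log 2 + 4 * Lρ) / ψ < J := by linarith
  have j4 : 20 * ((k : ℝ) + 2) < J := by linarith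
  have j5 : (2 : ℝ) < J := by linarith
  have hJ2 : 2 ≤ J := by
    have : 2 < J := by exact_mod_cast j5
    omega
  rw [div_lt_iff₀ hR] at j1
  rw [div_lt_iff₀ hτ0] at j2
  rw [div_lt_iff₀ hψ] at j3
  obtain ⟨hST, hPA⟩ := hSt
  obtain ⟨hTr, hMx, hRb⟩ := hT _ _ _ hST
  have hpl := F.isLaw
  have hA0 : 0 < Pe F.p A := lt_of_lt_of_le (Real.exp_pos _) hPA
  -- the label
  obtain ⟨G, H, hG, hH, hGH⟩ := hBl
  obtain ⟨w, hw⟩ : ∃ w, w = i * (J / N) := ⟨_, rfl⟩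
  obtain ⟨P, hP⟩ : ∃ P, P = p * (J / N) := ⟨_, rfl⟩
  obtain ⟨r, hr⟩ : ∃ r, r = ρ' * (J / N) := ⟨_, rfl⟩
  rw [← hw, ← hP, ← hr] at hGH
  have hNJ : N * (J / N) ≤ J := Nat.mul_div_le J N
  have hNJ2 : (J : ℝ) ≤ N * ((J / N : ℕ) : ℝ) + N := by
    have h1 := Nat.lt_mul_div_succ J (show 0 < N by omega)
    have h2 : (J : ℝ) < ((N * (J / N + 1) : ℕ) : ℝ) := by exact_mod_cast h1
    push_cast at h2
    linarith
  have hu0 : (0 : ℝ) ≤ ((J / N : ℕ) : ℝ) := by positivity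
  have hNJr : (N : ℝ) * ((J / N : ℕ) : ℝ) ≤ J := by exact_mod_cast hNJ
  have hrJ : r ≤ J := by
    rw [hr]
    exact (Nat.mul_le_mul_right _ hρN).trans hNJ
  have hPr : P ≤ r := by
    rw [hP, hr]
    exact Nat.mul_le_mul_right _ hpρ
  have hwx : (w : ℝ) ≤ x * J := by
    rw [hw]
    push_cast
    calc (i : ℝ) * ((J / N : ℕ) : ℝ) ≤ x * N * ((J / N : ℕ) : ℝ) :=
          mul_le_mul_of_nonneg_right hi hu0
      _ = x * (N * ((J / N : ℕ) : ℝ)) := by ring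
      _ ≤ x * J := mul_le_mul_of_nonneg_left hNJr hx0.le
  have hPx : (J : ℝ) - P ≤ x * J + N := by
    have h1 : (1 - x) * N * ((J / N : ℕ) : ℝ) ≤ P := by
      rw [hP]
      push_cast
      exact mul_le_mul_of_nonneg_right hp hu0
    have h2 : (1 - x) * (J - N) ≤ (1 - x) * N * ((J / N : ℕ) : ℝ) := by
      have := mul_le_mul_of_nonneg_left (show (J : ℝ) - N ≤ N * ((J / N : ℕ) : ℝ) by linarith)
        (show 0 ≤ 1 - x by linarith)
      linarith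
    have h3 : (1 - x) * ((J : ℝ) - N) = J - x * J - N + x * N := by ring
    have h4 : 0 ≤ x * N := by positivity
    linarith
  have hwJ4 : (w : ℝ) ≤ J / 4 := by
    have : x * J ≤ 1 / 4 * J := mul_le_mul_of_nonneg_right hx4 hJ0.le
    linarith
  have h2w : 2 * w ≤ J := by
    have : ((2 * w : ℕ) : ℝ) ≤ J := by push_cast; linarith
    exact_mod_cast this
  have hwJ : w ≤ J := by omega
  -- the blocks
  obtain ⟨h, hh⟩ : ∃ h, h = ⌊g₁ * J⌋₊ := ⟨_, rfl⟩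
  have hh1 : (h : ℝ) ≤ g₁ * J := by rw [hh]; exact Nat.floor_le (by positivity)
  have hh2 : g₁ * J < h + 1 := by rw [hh]; exact Nat.lt_floor_add_one _
  obtain ⟨g, hg⟩ : ∃ g, g = (h + 2 + 3) * (k + 1) + (h + 2) := ⟨_, rfl⟩
  have hgr : (g : ℝ) = (h + 2 + 3) * (k + 1) + (h + 2) := by rw [hg]; push_cast; ring
  have hg2 : (g : ℝ) ≤ (k + 2) * (g₁ * J + 5) := by
    have h1 : (h + 2 + 3) * ((k : ℝ) + 1) + (h + 2) = (k + 2) * (h + 5) - 3 := by ring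
    have h2 : ((k : ℝ) + 2) * (h + 5) ≤ (k + 2) * (g₁ * J + 5) :=
      mul_le_mul_of_nonneg_left (by linarith) (by linarith)
    rw [hgr, h1]
    linarith
  have hg3 : g₁ * J ≤ g := by
    have h1 : (0 : ℝ) ≤ (h + 2 + 3) * ((k : ℝ) + 1) := by positivity
    rw [hgr]
    linarith
  have hg0 : 0 < g := by rw [hg]; omega
  have hg0r : (0 : ℝ) < g := by exact_mod_cast hg0
  have hwg : w + g ≤ J := by
    have h1 : ((k : ℝ) + 2) * (g₁ * J + 5) = ((k + 2) * g₁) * J + 5 * (k + 2) := by ring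
    have h2 : (((k : ℝ) + 2) * g₁) * J ≤ 1 / 4 * J := mul_le_mul_of_nonneg_right hg₁4 hJ0.le
    have : ((w + g : ℕ) : ℝ) ≤ J := by push_cast; linarith
    exact_mod_cast this
  obtain ⟨Rr, hRr⟩ : ∃ Rr, Rr = (J - w) / g - 1 := ⟨_, rfl⟩
  obtain ⟨b1, b2⟩ := blocks hg0 hwg hRr
  have b1r : (w : ℝ) + (Rr + 1) * g ≤ J := by exact_mod_cast b1
  have b2r : (J : ℝ) < w + (Rr + 2) * g := by exact_mod_cast b2
  have hRg : (Rr : ℝ) * g ≤ J := by
    have : (0 : ℝ) ≤ w := by positivity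
    nlinarith
  have hRr1 : (Rr : ℝ) * g₁ ≤ 1 := by
    have h1 : (Rr : ℝ) * (g₁ * J) ≤ J := (mul_le_mul_of_nonneg_left hg3 (by positivity)).trans hRg
    have h2 : (Rr * g₁) * J ≤ 1 * J := by linarith
    exact le_of_mul_le_mul_right h2 hJ0
  -- the labels of the blocks
  obtain ⟨L, hL⟩ : ∃ L : F.Ω → (((ℕ × (Fin (k + 2) → ℤ)) × F.ζ) × (Fin (nex (k + 2) K) → ℤ)) ×
      (Fin Rr → (ℕ × (Fin (k + 2) → ℤ)) × F.ζ),
    L = fun ω => (zlab F i₁ K w P H ω, fun l : Fin Rr => F.c (w + (l : ℕ) * g) ω) := ⟨_, rfl⟩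
  have hlw : ∀ l : Fin Rr, w + (l : ℕ) * g ≤ J := by
    intro l
    have : (l : ℕ) * g ≤ (Rr + 1) * g := Nat.mul_le_mul_right g (by omega)
    omega
  have hres : ∀ B : F.Ω → Prop, Sub B A → 0 < Pe F.p B →
      CH (Pool.Agent.H49.Ent.cond F.p B True) L (Fam.pt F) ≤ δ := by
    intro B hBA hB
    have hlaw := isLaw_cond hpl hB
    have h1 := CH_pi_le hlaw.nonneg (c := cc (k + 2)) (Fam.pt F) Rr
      (fun (l : Fin Rr) ω => F.c (w + (l : ℕ) * g) ω)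
      (fun l => Rows.CH_c_pt (F.res B True hlaw) (hlw l))
    have h2 := zlab_vis (F.res B True hlaw) i₁ hwJ hrJ G H hG hH
      (fun ω hω => fun b hb => ((hGH ω (hBA ω (of_cond_pos hω))).2 b hb).2)
    have h3 := CH_subadd hlaw.nonneg (zlab F i₁ K w P H)
      (fun ω (l : Fin Rr) => F.c (w + (l : ℕ) * g) ω) (Fam.pt F)
    have h4 : (Rr : ℝ) * cc (k + 2) ≤ cc (k + 2) / g₁ := by
      rw [le_div_iff₀ hg₁0]
      calc (Rr : ℝ) * cc (k + 2) * g₁ = (Rr * g₁) * cc (k + 2) := by ring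
        _ ≤ 1 * cc (k + 2) := mul_le_mul_of_nonneg_right hRr1 hcc
        _ = _ := one_mul _
    have h5 : CH (Pool.Agent.H49.Ent.cond F.p B True) (zlab F i₁ K w P H) (Fam.pt F) ≤
        CV (k + 2) K := h2
    rw [hL, hδ]
    linarith
  have hκJ : 0 ≤ ψ * J := by positivity
  have hstab : Stb F.p (ψ * J) A (PlU k (1 / 2 ^ ⌊g₁ * J⌋₊) (Fam.pt F) F.d) := Or.inr hSpr
  have hnot : ¬ PlU k (1 / 2 ^ ⌊g₁ * J⌋₊) (Fam.pt F) F.d A := by
    refine hSpr A (fun _ h => h) ?_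
    have : Real.exp (-(ψ * J)) ≤ 1 := by
      rw [Real.exp_le_one_iff]
      linarith
    calc _ ≤ 1 * Pe F.p A := mul_le_mul_of_nonneg_right this hA0.le
      _ = _ := one_mul _
  obtain ⟨s1, s2⟩ := Stb.refine hpl hstab hnot hA0 hδ0 (fun B hBA hB => hres B hBA hB)
    (by linarith)
  -- cleaning
  obtain ⟨κ', hκ'⟩ : ∃ κ', κ' = ψ * J - (2 * δ + Real.log 2) := ⟨_, rfl⟩
  rw [← hκ'] at s1
  have hκ'1 : ψ * J / 2 ≤ κ' := by rw [hκ']; linarith
  have hκ'2 : 2 * Real.log 2 ≤ κ' := by linarith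
  obtain ⟨c1, c2⟩ := Stb.clean hpl hκ'2 hA0 s1 s2 rfl
  obtain ⟨Nb, hNb⟩ : ∃ Nb : F.Ω → Prop, Nb = Pop (Pool.Agent.H49.Ent.cond F.p A True) F.d
    (fun ω => (Fam.pt F ω, L ω)) (fun D (s : (Fin (k + 2) → ℝ) × (Fin k → Fin (k + 2) → ℝ)) =>
      ∃ c : Fin k → ℝ, ∀ j, |D j - s.1 j - ∑ i, c i * s.2 i j| ≤ 1 / 2 ^ ⌊g₁ * J⌋₊)
    (Real.exp (-(κ' / 2))) := ⟨_, rfl⟩
  rw [← hNb] at c1 c2
  obtain ⟨A', hA'⟩ : ∃ A' : F.Ω → Prop, A' = fun ω => A ω ∧ ¬ Nb ω := ⟨_, rfl⟩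
  have c2' := c2
  rw [← hA'] at c2'
  have hPA' : Real.exp (-((2 * τ) * J)) ≤ Pe F.p A' := by
    have d1 := Pe_diff c1
    rw [hA']
    refine le_trans ?_ d1
    have d2 : Real.exp (-(2 * τ * J)) ≤ Real.exp (-Real.log 2) * Real.exp (-(τ * J)) := by
      rw [← Real.exp_add]
      exact Real.exp_le_exp.2 (by linarith)
    exact d2.trans (mul_le_mul_of_nonneg_left hPA (Real.exp_pos _).le)
  have hA'A : Sub A' A := by rw [hA']; exact fun _ h => h.1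
  obtain ⟨hlaw, -, hMx', -⟩ := max_res F ha hτ0.le (by linarith : (0 : ℝ) ≤ 2 * τ) hTr hMx hRb
    A' hPA'
  have e7 : (1 + a) * (5 * τ + 2 * τ) = τ' := by
    rw [hτ]
    field_simp
    ring
  rw [e7] at hMx'
  have hTm : (F.res A' True hlaw).Tm (τ' * J) := hMx'.1
  have hGa : (R - τ') * J ≤ (F.res A' True hlaw).Ga a := hMx'.2
  have hV : (R - τ') * J ≤ (F.res A' True hlaw).V J := hGa.trans (ga_le_V _ ha)
  -- fullness
  obtain ⟨ρ, hρ⟩ : ∃ ρ, ρ = Real.exp (-(κ' / 2)) := ⟨_, rfl⟩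
  have e4 : (4 : ℝ) / 2 ^ (h + 2) = 1 / 2 ^ h := by
    rw [pow_add]
    field_simp
    norm_num
  have hf := hfull J (F.res A' True hlaw) _ _ (zlab F i₁ K w P H) L w g (h + 2) Rr (τ' * J) ρ b1
    hTm ?_ ?_ ?_ (by omega) (by rw [hg]) ?_
  rotate_left
  · -- the label is a function of the window
    intro ω ω' _ _ e
    have e1 : slam F w ω = slam F w ω' := e
    unfold zlab
    rw [e1]
    have e2 : F.c w ω = F.c w ω' := by
      unfold slam at e1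
      simp only [Prod.mk.injEq, Fam.l] at e1
      obtain ⟨⟨a1, a2⟩, a3, a4⟩ := e1
      unfold Fam.c
      have : F.x1 w ω = F.x1 w ω' := by
        funext i
        unfold Fam.x1
        rw [a1, a2, a4]
      rw [this, a3, a4]
    rw [e2]
  · intro ω ω' _ _ e
    rw [hL] at e
    exact (Prod.ext_iff.mp e).1
  · intro l hl ω ω' _ _ e
    rw [hL] at e
    exact congrFun (Prod.ext_iff.mp e).2 ⟨l, hl⟩
  · rw [e4, hρ, hh]
    exact c2'
  -- the end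
  obtain ⟨L2, hL2⟩ : ∃ L2, L2 = Real.log 2 := ⟨_, rfl⟩
  obtain ⟨τ₁, hτ₁⟩ : ∃ τ₁, τ₁ = ((J : ℝ) - P) * L2 + 6 * ((k : ℝ) + 2) ^ 2 * (g * L2) +
    Rr * ((k + 3) * (τ' * J) + (k + 2) ^ 2 * (g * L2) * ρ + C) + C := ⟨_, rfl⟩
  have hL20 : 0 ≤ L2 := by rw [hL2]; exact hl2.le
  have hend := end_one (F.res A' True hlaw) i₁ h2w hJ2 (hPr.trans hrJ) hrJ G H hG hH
    (fun ω hω => hGH ω (hA'A ω (of_cond_pos hω))) (τ := τ₁) hTm (by positivity) (by
      have e1 : CH (F.res A' True hlaw).p ((F.res A' True hlaw).X J)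
          (fun ω => (zlab (F.res A' True hlaw) i₁ K w P H ω, (F.res A' True hlaw).W ω)) =
          CH (F.res A' True hlaw).p ((F.res A' True hlaw).X J)
          (fun ω => (zlab F i₁ K w P H ω, (F.res A' True hlaw).W ω)) := rfl
      rw [e1, hτ₁]
      rw [← hL2] at hf ⊢
      have e3 : (((k + 2 : ℕ) : ℝ) - 1) = k + 1 := by push_cast; ring
      rw [e3]
      exact fin_arith hk hL20 hg0r.le b2r hf)
  refine arith (k := k) (J := J) (w := w) (P := P) (g := g) (Rr := Rr) (e := τ' * J) (ρ := ρ)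
    (x := x) (g₁ := g₁) (R := R) (N := N) (τ := τ') (V := (F.res A' True hlaw).V J) (L2 := L2)
    (KE' := KE (k + 2)) (CF' := CF (k + 2) K) (C := C) (τ₁ := τ₁) hk (by rw [hL2]; exact hl2.le)
    (by rw [hL2]; exact hl2') hJ0 hR hg₁0 hx0.le hx1 hwx (by positivity) hPx (by positivity) hg2
    hg0r.le (by positivity) hRr1 hRg (by rw [hρ]; positivity) ?_ hg₁R rfl hτ'0.le hτ'1 hC ?_
    hτ₁ hV ?_
  · refine small_rho hR hρ ?_
    rw [← hLρ]
    linarith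
  · have := le_abs_self (CF (k + 2) K)
    rw [hCst] at j1
    linarith
  · have e5 : ((k + 2 : ℕ) : ℝ) = (k : ℝ) + 2 := by push_cast; ring
    rw [e5, ← hL2] at hend
    exact hend


/-- **(END)** for the maximal families of a class. -/
theorem endc (k : ℕ) (C : KCl (k + 2)) {a R : ℝ} (ha : 1 ≤ a) (hR : 0 < R)
    (hS : SPS (mxc C a R) k) : ENDS (mxc C a R) :=
  end_cls k ha hR (fun _ _ _ h => h.1) hS

/-- **Plan B for a class**: the lossy step and the slope are the only inputs. -/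
theorem kpc_of_spread (k : ℕ) (C : KCl (k + 2))
    (hSPS : ∀ a R : ℝ, 1 < a → 0 < R → UBc C a R → SPS (mxc C a R) k)
    (hSTP : ∀ S : FCl (k + 2), SPS S k → STP S) (hSLP : ∀ S : FCl (k + 2), SPS S k → SLP S) :
    KPc C := by
  refine kpc_of_clg C fun a R ha hR hU => ?_
  have h := hSPS a R ha hR hU
  exact clg_false (leaf_thm (chsc (k + 1) C ha.le hR hU) (rowc C ha hR hU) (hSTP _ h)
    (hSLP _ h)) (endc k C ha.le hR h)

/-- **The entropy inequality for families without concentration near planes of codimension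
one in the direction space of the hyperplanes** (`k` planes in dimension `k + 2`). -/
theorem kpc_br (k : ℕ) {c : ℝ} (hc : 0 < c)
    (hSTP : ∀ S : FCl (k + 2), SPS S k → STP S) (hSLP : ∀ S : FCl (k + 2), SPS S k → SLP S) :
    KPc (KCl.br (k + 2) k c) :=
  kpc_of_spread k _ (fun a R _ _ _ => sps_br hc a R) hSTP hSLP

end Pool.BR
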