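import Pool.Agent.H52.BR.Cls

/-!
# Maximal families of a class: restriction, one value of the side information, regular families
-/

set_option autoImplicit false

namespace Pool.BR

open Finset Real
open Pool.Agent.H49.Ent Pool.Agent.H32.Dense Pool.STK Pool.KA Pool.K2S Pool.PB

variable {m : ℕ}

theorem exp_neg_abs_log {x : ℝ} (hx : 0 < x) : Real.exp (-|Real.log x|) ≤ x := by
  calc Real.exp (-|Real.log x|) ≤ Real.exp (Real.log x) :=
        Real.exp_le_exp.2 (by linarith [neg_abs_le (Real.log x)])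
    _ = x := Real.exp_log hx

open AP5

open Classical in
/-- Restriction of near-maximisers of the class to an event. -/
theorem ap5c (C : KCl m) {a R : ℝ} (ha : 1 ≤ a) (hR : 0 < R) (hUB : UBc C a R) {π₀ η θ : ℝ}
    (hπ : 0 < π₀) (hη : 0 < η) (hθ : 0 < θ) : ∃ η₁ > 0, ∃ θ₁ > 0, ∃ J₁ : ℕ, ∀ J ≥ J₁,
    ∀ F : Fam m J, F.NMa a R η₁ θ₁ → C.P J F (θ₁ * J) → ∀ A : F.Ω → Prop,
    π₀ ≤ law F.p A True → ∃ h : IsLaw (cond F.p A True), (F.res A True h).NMa a R η θ ∧
      C.P J (F.res A True h) (θ * J) := by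
  obtain ⟨Q, hQ, hG⟩ := Ga_le gro_thm m
  have hl2 : 0 < Real.log 2 := Real.log_pos (by norm_num)
  have hL : 0 ≤ (m : ℝ) * Real.log 2 := by positivity
  obtain ⟨c, hcd⟩ : ∃ c, c = π₀ * η / 4 := ⟨_, rfl⟩
  have hc : 0 < c := by rw [hcd]; positivity
  obtain ⟨ε₁, hε⟩ : ∃ ε₁, ε₁ = c / (m * Real.log 2 + 1) := ⟨_, rfl⟩
  have hε0 : 0 < ε₁ := by rw [hε]; positivity
  have hεL : ε₁ * (m * Real.log 2) ≤ c := by
    rw [hε, div_mul_eq_mul_div, div_le_iff₀ (by positivity)]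
    nlinarith
  obtain ⟨θ', hθ', J', hJ'⟩ := hUB c hc
  obtain ⟨J₁, hJ₁⟩ := exists_nat_ge (Real.log 2 / (π₀ * θ / 2) + Real.log 2 / (ε₁ * θ' / 2) +
    (Real.log 2 + Q) / c + |Real.log π₀| / (θ / 2) + |Real.log ε₁| / (θ' / 2))
  obtain ⟨θ₁, hθ₁d⟩ : ∃ θ₁, θ₁ = min (min (π₀ * θ / 2) (ε₁ * θ' / 2)) (min (θ / 2) (θ' / 2)) :=
    ⟨_, rfl⟩
  have hθ₁ : 0 < θ₁ := by
    rw [hθ₁d]
    exact lt_min (lt_min (by positivity) (by positivity)) (lt_min (by positivity) (by positivity))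
  have hm1 : θ₁ ≤ π₀ * θ / 2 := by
    rw [hθ₁d]; exact (min_le_left _ _).trans (min_le_left _ _)
  have hm2 : θ₁ ≤ ε₁ * θ' / 2 := by
    rw [hθ₁d]; exact (min_le_left _ _).trans (min_le_right _ _)
  have hm3 : θ₁ ≤ θ / 2 := by
    rw [hθ₁d]; exact (min_le_right _ _).trans (min_le_left _ _)
  have hm4 : θ₁ ≤ θ' / 2 := by
    rw [hθ₁d]; exact (min_le_right _ _).trans (min_le_right _ _)
  refine ⟨c, hc, θ₁, hθ₁, max J' J₁, fun J hJ F hF hCF A hA => ?_⟩
  have hJJ : (J₁ : ℝ) ≤ J := by exact_mod_cast (le_max_right _ _).trans hJ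
  have t1 : 0 ≤ Real.log 2 / (π₀ * θ / 2) := by positivity
  have t2 : 0 ≤ Real.log 2 / (ε₁ * θ' / 2) := by positivity
  have t3 : 0 ≤ (Real.log 2 + Q) / c := by positivity
  have t4 : 0 ≤ |Real.log π₀| / (θ / 2) := by positivity
  have t5 : 0 ≤ |Real.log ε₁| / (θ' / 2) := by positivity
  have k1 : Real.log 2 ≤ π₀ * θ / 2 * J := by
    rw [← div_le_iff₀' (by positivity)]; linarith
  have k2 : Real.log 2 ≤ ε₁ * θ' / 2 * J := by
    rw [← div_le_iff₀' (by positivity)]; linarith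
  have k3 : Real.log 2 + Q ≤ c * J := by
    rw [← div_le_iff₀' (by positivity)]; linarith
  have k4 : |Real.log π₀| ≤ θ / 2 * J := by
    rw [← div_le_iff₀' (by positivity)]; linarith
  have k5 : |Real.log ε₁| ≤ θ' / 2 * J := by
    rw [← div_le_iff₀' (by positivity)]; linarith
  obtain ⟨hTm, hGa⟩ := hF
  have hJ0 : (0 : ℝ) ≤ J := Nat.cast_nonneg J
  obtain ⟨hlaw, htya⟩ := tya_thm m J F Prop A _ hTm
  have hTime := (htya hlaw).2
  rw [Fintype.card_prop] at hTime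
  push_cast at hTime
  have hP : 0 < law F.p A True := hπ.trans_le hA
  have hsum := law_prop_sum F A
  have hQ0 : 0 ≤ law F.p A False := law_nonneg F.isLaw.nonneg A False
  have haff := Ga_affine F A a (by linarith)
  have eT : (F.res A True (hlaw True hP)).Ga a = CH (cond F.p A True) (F.D J) F.Z -
    a * CH (cond F.p A True) (F.X J) F.W := rfl
  refine ⟨hlaw True hP, ⟨Tm_mono (hTime True hP) ?_, ?_⟩, ?_⟩
  · rw [div_le_iff₀ hP]
    have h1 : θ₁ * J ≤ π₀ * θ / 2 * J := mul_le_mul_of_nonneg_right hm1 hJ0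
    have h2 : π₀ * (θ * J) ≤ law F.p A True * (θ * J) :=
      mul_le_mul_of_nonneg_right hA (by positivity)
    linarith
  · have key : law F.p A False * (CH (cond F.p A False) (F.D J) F.Z -
        a * CH (cond F.p A False) (F.X J) F.W) ≤ law F.p A False * R * J + c * J + Q := by
      rcases hQ0.eq_or_lt with h0 | h0
      · rw [← h0]
        have : 0 ≤ c * J := by positivity
        linarith
      · have eF : (F.res A False (hlaw False h0)).Ga a = CH (cond F.p A False) (F.D J) F.Z -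
          a * CH (cond F.p A False) (F.X J) F.W := rfl
        rw [← eF]
        rcases le_or_gt ε₁ (law F.p A False) with h1 | h1
        · have h2 : (F.res A False (hlaw False h0)).Tm (θ' * J) := by
            refine Tm_mono (hTime False h0) ?_
            rw [div_le_iff₀ h0]
            have h3 : θ₁ * J ≤ ε₁ * θ' / 2 * J := mul_le_mul_of_nonneg_right hm2 hJ0
            have h4 : ε₁ * (θ' * J) ≤ law F.p A False * (θ' * J) :=
              mul_le_mul_of_nonneg_right h1 (by positivity)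
            linarith
          have h2' : C.P J (F.res A False (hlaw False h0)) (θ' * J) := by
            refine C.mono ?_ (C.res |Real.log ε₁| A False (hlaw False h0)
              ((exp_neg_abs_log hε0).trans h1) hCF)
            have : θ₁ * J ≤ θ' / 2 * J := mul_le_mul_of_nonneg_right hm4 hJ0
            linarith
          have h3 := hJ' J ((le_max_left _ _).trans hJ) _ h2 h2'
          have h4 := mul_le_mul_of_nonneg_left h3 h0.le
          have h5 : law F.p A False * (c * J) ≤ 1 * (c * J) :=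
            mul_le_mul_of_nonneg_right (by linarith) (by positivity)
          linarith
        · have h2 := hG J (F.res A False (hlaw False h0)) a ha
          have h3 := mul_le_mul_of_nonneg_left h2 h0.le
          have h4 : law F.p A False * (m * Real.log 2 * J) ≤ ε₁ * (m * Real.log 2 * J) :=
            mul_le_mul_of_nonneg_right h1.le (by positivity)
          have h5 : ε₁ * (m * Real.log 2) * J ≤ c * J := mul_le_mul_of_nonneg_right hεL hJ0
          have h6 : law F.p A False * Q ≤ 1 * Q :=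
            mul_le_mul_of_nonneg_right (by linarith) hQ
          have h7 : 0 ≤ law F.p A False * R * J := by positivity
          linarith
    have h8 : law F.p A True * ((R - η) * J) ≤ law F.p A True *
        (F.res A True (hlaw True hP)).Ga a := by
      rw [eT]
      have h9 : π₀ * (η * J) ≤ law F.p A True * (η * J) :=
        mul_le_mul_of_nonneg_right hA (by positivity)
      have h10 : law F.p A True = 1 - law F.p A False := by linarith
      have h11 : law F.p A True * R * J = R * J - law F.p A False * R * J := by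
        rw [h10]; ring
      have h12 : c * J = π₀ * (η * J) / 4 := by rw [hcd]; ring
      linarith
    exact le_of_mul_le_mul_left h8 hP
  · refine C.mono ?_ (C.res |Real.log π₀| A True (hlaw True hP)
      ((exp_neg_abs_log hπ).trans hA) hCF)
    have : θ₁ * J ≤ θ / 2 * J := mul_le_mul_of_nonneg_right hm3 hJ0
    linarith

/-- `(J + 1) ^ 2 exp (-c J)` is small. -/
theorem exists_small {c ε : ℝ} (hc : 0 < c) (hε : 0 < ε) : ∃ J₁ : ℕ, ∀ J ≥ J₁,
    ((J : ℝ) + 1) ^ 2 * Real.exp (-(c * J)) ≤ ε := by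
  have h1 : Filter.Tendsto (fun x : ℝ => x ^ 2 * Real.exp (-(c * x))) Filter.atTop (nhds 0) := by
    have := Real.tendsto_pow_mul_exp_neg_atTop_nhds_zero 2
    have h2 := (this.comp (Filter.tendsto_id.const_mul_atTop hc)).const_mul (1 / c ^ 2)
    rw [mul_zero] at h2
    refine h2.congr fun x => ?_
    simp only [Function.comp, id]
    field_simp
  have h3 : ∀ᶠ x : ℝ in Filter.atTop, x ^ 2 * Real.exp (-(c * x)) < ε / Real.exp c :=
    h1.eventually_lt_const (by positivity)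
  obtain ⟨X, hX⟩ := Filter.eventually_atTop.1 h3
  refine ⟨⌈X⌉₊, fun J hJ => ?_⟩
  have h4 : X ≤ (J : ℝ) + 1 := by
    have : (⌈X⌉₊ : ℝ) ≤ J := by exact_mod_cast hJ
    linarith [Nat.le_ceil X]
  have h5 := hX _ h4
  rw [lt_div_iff₀ (Real.exp_pos c)] at h5
  have h6 : Real.exp (-(c * (J + 1))) * Real.exp c = Real.exp (-(c * J)) := by
    rw [← Real.exp_add]
    congr 1
    ring
  rw [mul_assoc, h6] at h5
  exact h5.le

open MZV in
/-- One value of the side information. -/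
theorem mzvc (C : KCl m) {a R : ℝ} (ha : 1 ≤ a) (hR : 0 < R) {τ' : ℝ} (hτ' : 0 < τ') :
    ∃ τ > 0, ∃ J₁ : ℕ, ∀ J ≥ J₁, ∀ F : Fam m J, F.Mx a R τ → C.P J F (τ * J) →
      ∃ z, ∃ h : IsLaw (cond F.p F.Z z), (F.res F.Z z h).Mx a R τ' ∧ (F.res F.Z z h).Tr ∧
        C.P J (F.res F.Z z h) (τ' * J) := by
  classical
  obtain ⟨Q, hQ0, hQ⟩ := gro_thm m
  have hl2 : 0 ≤ Real.log 2 := Real.log_nonneg (by norm_num)
  set K : ℝ := m * Real.log 2 + Q + R + τ' with hK
  have hK0 : 0 < K := by positivity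
  set τ : ℝ := min (τ' / 4) (τ' * τ' / (4 * K)) with hτ
  have hτ0 : 0 < τ := lt_min (by positivity) (by positivity)
  have hτ1 : τ ≤ τ' / 4 := min_le_left _ _
  have hτ2 : τ * K ≤ τ' * τ' / 4 := by
    have h1 : τ ≤ τ' * τ' / (4 * K) := min_le_right _ _
    rw [le_div_iff₀ (by positivity)] at h1
    linarith
  obtain ⟨J₂, hJ₂⟩ := exists_small (c := τ' / 2) (ε := τ' / (4 * K)) (by positivity)
    (by positivity)
  refine ⟨τ, hτ0, max 1 J₂, fun J hJ' F hF hCF => ?_⟩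
  have hJ : 1 ≤ J := (le_max_left _ _).trans hJ'
  have hJ0 : (0 : ℝ) < J := by exact_mod_cast hJ
  have hJ1 : (1 : ℝ) ≤ J := by exact_mod_cast hJ
  have hsm := hJ₂ J ((le_max_right _ _).trans hJ')
  obtain ⟨hT, hG⟩ := hF
  have hp := F.isLaw.nonneg
  by_contra hcon
  push Not at hcon
  -- the values of positive probability
  have hlaw : ∀ z, 0 < law F.p F.Z z → IsLaw (cond F.p F.Z z) := fun z hz =>
    ⟨cond_nonneg hp F.Z z, sum_cond F.p F.Z hz.ne'⟩
  set E : F.ζ → ℝ := fun z => J * Real.log 2 -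
    CH (cond F.p F.Z z) F.T (fun ω => (F.l ω, F.Z ω)) with hE
  set G : F.ζ → ℝ := fun z => CH (cond F.p F.Z z) (F.D J) F.Z -
    a * CH (cond F.p F.Z z) (F.X J) F.W with hGd
  have hE0 : ∀ z, 0 < law F.p F.Z z → 0 ≤ E z := by
    intro z hz
    have := TRC.CH_lt (hlaw z hz) F.T (fun ω => (F.l ω, F.Z ω)) J F.tim
    simp only [hE]
    linarith
  have hGle : ∀ z, 0 < law F.p F.Z z → G z ≤ (m * Real.log 2 + Q) * J := by
    intro z hz
    have h1 := (hQ J (F.res F.Z z (hlaw z hz))).2.2 J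
    have h2 : (F.res F.Z z (hlaw z hz)).V J = CH (cond F.p F.Z z) (F.D J) F.Z -
        CH (cond F.p F.Z z) (F.X J) F.W - m * (((J : ℝ) - J) * Real.log 2) := rfl
    rw [h2, sub_self, zero_mul, mul_zero, sub_zero] at h1
    have h3 : 0 ≤ CH (cond F.p F.Z z) (F.X J) F.W := CH_nonneg (hlaw z hz).nonneg _ _
    simp only [hGd]
    nlinarith
  -- the values outside the class
  obtain ⟨bad, hbad⟩ : ∃ bad : F.ζ → Prop, bad = fun z => ∀ h : IsLaw (cond F.p F.Z z),
    ¬ C.P J (F.res F.Z z h) (τ * J + τ' / 2 * J) := ⟨_, rfl⟩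
  have hbadP : Pe F.p (fun ω => bad (F.Z ω)) ≤ τ' / (4 * K) := by
    refine (C.val (τ' / 2 * J) bad hCF fun z hz _ h => ?_).trans hsm
    rw [hbad] at hz
    exact hz h
  have hbadS : ∑ z ∈ univ.image F.Z, law F.p F.Z z * (if bad z then K * J else 0) ≤
      τ' / 4 * J := by
    have h1 : ∑ z ∈ univ.image F.Z, law F.p F.Z z * (if bad z then K * J else 0) =
        K * J * Pe F.p (fun ω => bad (F.Z ω)) := by
      have h2 : ∀ z, law F.p F.Z z * (if bad z then K * J else 0) =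
          ∑ ω, if F.Z ω = z then (if bad (F.Z ω) then F.p ω * (K * J) else 0) else 0 := by
        intro z
        unfold law
        rw [Finset.sum_mul]
        refine Finset.sum_congr rfl fun ω _ => ?_
        by_cases h3 : F.Z ω = z
        · simp only [h3, if_true]
          by_cases h4 : bad z <;> simp [h4]
        · simp [h3]
      rw [Finset.sum_congr rfl fun z _ => h2 z, Finset.sum_comm, Pe_eq, Finset.mul_sum]
      refine Finset.sum_congr rfl fun ω _ => ?_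
      rw [Finset.sum_ite_eq]
      simp only [Finset.mem_image, Finset.mem_univ, true_and, exists_apply_eq_apply, if_true]
      by_cases h4 : bad (F.Z ω)
      · simp [h4]; ring
      · simp [h4]
    rw [h1]
    calc K * J * Pe F.p (fun ω => bad (F.Z ω)) ≤ K * J * (τ' / (4 * K)) :=
          mul_le_mul_of_nonneg_left hbadP (by positivity)
      _ = τ' / 4 * J := by field_simp
  -- averages
  have s1 : ∑ z ∈ univ.image F.Z, law F.p F.Z z = 1 := by rw [sum_law, F.isLaw.sum_one]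
  have s2 : ∑ z ∈ univ.image F.Z, law F.p F.Z z * E z ≤ τ * J := by
    have h1 := CH_avg hp F.T F.l F.Z
    unfold Fam.Tm at hT
    rw [h1] at hT
    have h2 : ∑ z ∈ univ.image F.Z, law F.p F.Z z * E z = J * Real.log 2 -
        ∑ z ∈ univ.image F.Z, law F.p F.Z z *
          CH (cond F.p F.Z z) F.T (fun ω => (F.l ω, F.Z ω)) := by
      simp only [hE, mul_sub, Finset.sum_sub_distrib, ← Finset.sum_mul, s1, one_mul]
    rw [h2]
    linarith
  have s3 : (R - τ) * J ≤ ∑ z ∈ univ.image F.Z, law F.p F.Z z * G z := by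
    have h1 := CH_avg' hp (F.D J) F.Z
    have h2 := CH_avg hp (F.X J) F.T F.Z
    refine hG.trans (le_of_eq ?_)
    unfold Fam.Ga
    have h3 : CH F.p (F.X J) F.W = CH F.p (F.X J) (fun ω => (F.T ω, F.Z ω)) := rfl
    rw [h3, h1, h2]
    simp only [hGd, mul_sub, Finset.sum_sub_distrib, Finset.mul_sum]
    congr 1
    refine Finset.sum_congr rfl fun z _ => ?_
    have h4 : CH (cond F.p F.Z z) (F.X J) F.W =
      CH (cond F.p F.Z z) (F.X J) (fun ω => (F.T ω, F.Z ω)) := rfl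
    rw [h4]
    ring
  -- each value
  have s4 : ∀ z ∈ univ.image F.Z, law F.p F.Z z * G z ≤
      law F.p F.Z z * ((R - τ') * J + K / τ' * E z) +
        law F.p F.Z z * (if bad z then K * J else 0) := by
    intro z _
    rcases (law_nonneg hp F.Z z).eq_or_lt with hz | hz
    · rw [← hz, zero_mul, zero_mul, zero_mul, add_zero]
    rw [← mul_add]
    refine mul_le_mul_of_nonneg_left ?_ hz.le
    have hKE : 0 ≤ K / τ' * E z := mul_nonneg (by positivity) (hE0 z hz)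
    have h3 : (m * Real.log 2 + Q) * J = K * J - (R + τ') * J := by rw [hK]; ring
    by_cases hb : bad z
    · rw [if_pos hb]
      have h1 := hGle z hz
      nlinarith
    rw [if_neg hb, add_zero]
    by_cases hgood : E z ≤ τ' * J
    · -- the deficit is small
      by_contra hlt
      push Not at hlt
      refine hcon z (hlaw z hz) ⟨?_, ?_⟩ ⟨z, ?_⟩ ?_
      · change (J : ℝ) * Real.log 2 - τ' * J ≤
          CH (cond F.p F.Z z) F.T (fun ω => (F.l ω, F.Z ω))
        simp only [hE] at hgood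
        linarith
      · have : (F.res F.Z z (hlaw z hz)).Ga a = G z := rfl
        rw [this]
        linarith
      · intro ω hω
        have h1 : 0 < cond F.p F.Z z ω :=
          lt_of_le_of_ne (cond_nonneg hp F.Z z ω) (Ne.symm hω)
        exact ((cond_pos_iff hp F.Z z ω).mp h1).2
      · rw [hbad] at hb
        push Not at hb
        obtain ⟨h, hh⟩ := hb
        refine C.mono ?_ hh
        nlinarith
    · push Not at hgood
      have h1 := hGle z hz
      have h2 : K * J ≤ K / τ' * E z := by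
        rw [div_mul_eq_mul_div, le_div_iff₀ hτ']
        nlinarith
      nlinarith
  have s5 := Finset.sum_le_sum s4
  rw [Finset.sum_add_distrib] at s5
  have s6 : ∑ z ∈ univ.image F.Z, law F.p F.Z z * ((R - τ') * J + K / τ' * E z) =
      (R - τ') * J + K / τ' * ∑ z ∈ univ.image F.Z, law F.p F.Z z * E z := by
    rw [Finset.mul_sum]
    simp only [mul_add, Finset.sum_add_distrib, ← Finset.sum_mul, s1, one_mul]
    congr 1
    refine Finset.sum_congr rfl fun z _ => ?_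
    ring
  rw [s6] at s5
  have s7 : K / τ' * ∑ z ∈ univ.image F.Z, law F.p F.Z z * E z ≤ τ' / 4 * J := by
    have h1 : K / τ' * ∑ z ∈ univ.image F.Z, law F.p F.Z z * E z ≤ K / τ' * (τ * J) :=
      mul_le_mul_of_nonneg_left s2 (by positivity)
    refine h1.trans ?_
    have h2 : K / τ' * (τ * J) = τ * K / τ' * J := by ring
    rw [h2]
    refine mul_le_mul_of_nonneg_right ?_ hJ0.le
    rw [div_le_iff₀ hτ']
    linarith
  nlinarith

open Classical in
/-- Regular maximal families of the class. -/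
theorem rmxc (C : KCl m) {a R : ℝ} (ha : 1 ≤ a) (hR : 0 < R) (hU : UBc C a R)
    (N : ℕ) {B e τ' : ℝ} (hB : 0 < B) (he : 0 < e) (hτ' : 0 < τ') :
    ∃ τ > 0, ∃ π₀ > 0, ∃ J₁ : ℕ, ∀ J ≥ J₁, ∀ F : Fam m J, F.Mx a R τ → C.P J F (τ * J) →
    ∀ (S : Fin N → Type) (f : ∀ i, F.Ω → S i), (∀ i, H F.p (f i) ≤ B * J) →
    ∃ A : F.Ω → Prop, π₀ ≤ law F.p A True ∧ ∃ h : IsLaw (cond F.p A True),
      (F.res A True h).Mx a R τ' ∧ C.P J (F.res A True h) (τ' * J) ∧
      ∀ i, ∃ h', Rg (cond F.p A True) (f i) h' (e * J) := by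
  obtain ⟨M, hM⟩ := rty_thm N B (e / 2) (1 / 2) hB (by positivity) (by norm_num)
  have hMp : (0 : ℝ) < 2 * ((M : ℝ) + 1) := by positivity
  obtain ⟨η₁, hη₁, θ₁, hθ₁, J₁, h5⟩ := ap5c C ha hR hU (π₀ := 1 / (2 * ((M : ℝ) + 1)))
    (by positivity) hτ' hτ'
  refine ⟨min η₁ θ₁, lt_min hη₁ hθ₁, 1 / (2 * ((M : ℝ) + 1)), by positivity,
    max J₁ (⌈2 * Real.log (2 * ((M : ℝ) + 1)) / e⌉₊ + 1), ?_⟩
  intro J hJ F hF hCF S f hf
  have hJ₁ : J₁ ≤ J := le_trans (le_max_left _ _) hJ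
  have hJ₂ : ⌈2 * Real.log (2 * ((M : ℝ) + 1)) / e⌉₊ + 1 ≤ J := le_trans (le_max_right _ _) hJ
  have hJ1 : 1 ≤ J := le_trans (Nat.le_add_left 1 _) hJ₂
  have hJ0 : (0 : ℝ) < J := by exact_mod_cast hJ1
  have hexp : Real.exp (-(e / 2 * J)) ≤ 1 / (2 * ((M : ℝ) + 1)) := by
    have h1 : 2 * Real.log (2 * ((M : ℝ) + 1)) / e ≤ J := by
      refine (Nat.le_ceil _).trans ?_
      exact_mod_cast (Nat.le_succ _).trans hJ₂
    rw [div_le_iff₀ he] at h1
    have h2 : Real.log (2 * ((M : ℝ) + 1)) ≤ e / 2 * J := by linarith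
    rw [Real.exp_neg, ← one_div]
    refine one_div_le_one_div_of_le hMp ?_
    rw [← Real.log_le_iff_le_exp hMp]
    exact h2
  obtain ⟨t, bad, hbad, ht⟩ := hM J hJ1 F.Ω S F.p F.isLaw f hf
  -- a type of positive probability
  obtain ⟨k, hk, hkp⟩ : ∃ k, k ≠ bad ∧ 1 / (2 * ((M : ℝ) + 1)) ≤ law F.p t k := by
    by_contra hcon
    push Not at hcon
    have h1 : ∑ k, law F.p t k = 1 := by rw [tya_law_sum, F.isLaw.sum_one]
    have h2 : ∑ k, law F.p t k = law F.p t bad + ∑ k ∈ univ.erase bad, law F.p t k := by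
      rw [Finset.add_sum_erase _ _ (Finset.mem_univ bad)]
    have h3 : ∑ k ∈ univ.erase bad, law F.p t k ≤
        ∑ k ∈ (univ : Finset (Fin M)).erase bad, 1 / (2 * ((M : ℝ) + 1)) :=
      Finset.sum_le_sum fun k hk => (hcon k (Finset.ne_of_mem_erase hk)).le
    rw [Finset.sum_const, nsmul_eq_mul] at h3
    have h4 : (((univ : Finset (Fin M)).erase bad).card : ℝ) ≤ M := by
      have : ((univ : Finset (Fin M)).erase bad).card ≤ (univ : Finset (Fin M)).card :=
        Finset.card_le_card (Finset.erase_subset _ _)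
      rw [Finset.card_univ, Fintype.card_fin] at this
      exact_mod_cast this
    have h5 : (((univ : Finset (Fin M)).erase bad).card : ℝ) * (1 / (2 * ((M : ℝ) + 1))) ≤
        M * (1 / (2 * ((M : ℝ) + 1))) := mul_le_mul_of_nonneg_right h4 (by positivity)
    have h6 : (M : ℝ) * (1 / (2 * ((M : ℝ) + 1))) < 1 / 2 := by
      rw [mul_one_div, div_lt_div_iff₀ hMp (by norm_num)]
      linarith
    linarith
  have hMx : F.NMa a R η₁ θ₁ := by
    obtain ⟨h1, h2⟩ := hF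
    constructor
    · unfold Fam.Tm at h1 ⊢
      have : min η₁ θ₁ * (J : ℝ) ≤ θ₁ * J := mul_le_mul_of_nonneg_right (min_le_right _ _) hJ0.le
      linarith
    · have : (R - η₁) * (J : ℝ) ≤ (R - min η₁ θ₁) * J :=
        mul_le_mul_of_nonneg_right (by linarith [min_le_left η₁ θ₁]) hJ0.le
      linarith
  have hCF' : C.P J F (θ₁ * J) :=
    C.mono (mul_le_mul_of_nonneg_right (min_le_right _ _) hJ0.le) hCF
  have hlaw : 1 / (2 * ((M : ℝ) + 1)) ≤ law F.p (fun ω => t ω = k) True := by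
    rw [RMX.law_prop]
    exact hkp
  obtain ⟨h, hN, hP⟩ := h5 J hJ₁ F hMx hCF' (fun ω => t ω = k) hlaw
  refine ⟨fun ω => t ω = k, hlaw, h, hN, hP, fun i => ?_⟩
  obtain ⟨h', hR'⟩ := ht k hk (hexp.trans hkp) i
  refine ⟨h', ?_⟩
  rw [RMX.cond_prop]
  have e1 : 2 * (e / 2) * (J : ℝ) = e * J := by ring
  rwa [e1] at hR'

open REX in
/-- Regular maximal families of the class with constant side information exist. -/
theorem rexc (C : KCl m) {a R : ℝ} (ha : 1 ≤ a) (hR : 0 < R) (hUB : UBc C a R)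
    (hLB : LBc C a R) {τ : ℝ} (hτ : 0 < τ) (J₀ : ℕ) :
    ∃ J ≥ J₀, ∃ F : Fam m J, (mxc C a R).T τ J F := by
  obtain ⟨Q, hQ, hN⟩ := mrn_thm m
  set L : ℝ := m * Real.log 2 with hL
  have hl2 : 0 < Real.log 2 := Real.log_pos (by norm_num)
  have hL0 : 0 ≤ L := mul_nonneg (Nat.cast_nonneg m) hl2.le
  set B : ℝ := 8 * L + Real.log 2 + Q + a * Q + 1 with hB
  have hB0 : 0 < B := by positivity
  obtain ⟨τ₁, hτ₁, π₀, hπ₀, J₁, hM⟩ := rmxc C ha hR hUB 5 hB0 hτ hτ
  set τ' : ℝ := min (τ₁ / 2) R with hτ'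
  have hτ'0 : 0 < τ' := lt_min (by linarith) hR
  have hτ'1 : τ' ≤ τ₁ / 2 := min_le_left _ _
  have hτ'R : τ' ≤ R := min_le_right _ _
  obtain ⟨τ₀, hτ₀, J₂, hZ⟩ := mzvc C ha hR hτ'0
  obtain ⟨J₃, hJ₃⟩ := exists_nat_ge (2 * (a * Q) / τ₁)
  obtain ⟨J₄, hJ₄⟩ := exists_nat_ge (2 * C.C / τ₁)
  obtain ⟨J, hJ, F₀, hT₀, hC₀, hF₀⟩ := hLB τ₀ hτ₀ τ₀ hτ₀ (J₀ + J₁ + J₂ + J₃ + J₄ + 1)
  have hJr : (1 : ℝ) ≤ J := by exact_mod_cast (by omega : 1 ≤ J)
  have hJ3r : (J₃ : ℝ) ≤ J := by exact_mod_cast (by omega : J₃ ≤ J)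
  have hJ4r : (J₄ : ℝ) ≤ J := by exact_mod_cast (by omega : J₄ ≤ J)
  obtain ⟨z, hz, hMx1, hTr1, hC1⟩ := hZ J (by omega) F₀ ⟨hT₀, hF₀⟩ hC₀
  set F₁ := F₀.res F₀.Z z hz with hF₁
  have hr := hN J F₁ a (τ' * J) (by linarith) hMx1.1
  obtain ⟨hr1, hr2, hr3⟩ := hr
  have hTr2 : F₁.rnd.Tr := hTr1
  rw [abs_le] at hr2
  have hJt : a * Q ≤ τ₁ / 2 * J := by
    have := hJ₃.trans hJ3r
    rw [div_le_iff₀ hτ₁] at this
    linarith
  have hJc : C.C ≤ τ₁ / 2 * J := by
    have := hJ₄.trans hJ4r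
    rw [div_le_iff₀ hτ₁] at this
    linarith
  have hC2 : C.P J F₁.rnd (τ₁ * J) := by
    refine C.mono ?_ (C.rnd hC1)
    have h2 : τ' * (J : ℝ) ≤ τ₁ / 2 * J := mul_le_mul_of_nonneg_right hτ'1 (by linarith)
    linarith
  have hMx2 : F₁.rnd.Mx a R τ₁ := by
    refine ⟨?_, ?_⟩
    · have h1 : (J : ℝ) * Real.log 2 - τ' * J ≤
          CH F₁.rnd.p F₁.rnd.T (fun ω => (F₁.rnd.l ω, F₁.rnd.Z ω)) := hr1
      have h2 : τ' * (J : ℝ) ≤ τ₁ * J := by nlinarith
      change (J : ℝ) * Real.log 2 - τ₁ * J ≤ _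
      linarith
    · have h1 := hMx1.2
      have h2 : τ' * (J : ℝ) ≤ τ₁ / 2 * J := mul_le_mul_of_nonneg_right hτ'1 (by linarith)
      linarith [hr2.1]
  -- entropies
  have hdir : ∀ G : Fam m J, CH G.p (G.D J) G.Z ≤ 4 * L * J := by
    intro G
    have h1 := aex_dir G
    have h2 : (m : ℝ) * (((J : ℝ) + 3) * Real.log 2) = L * (J + 3) := by rw [hL]; ring
    rw [h2] at h1
    nlinarith
  have hX1 : CH F₁.p (F₁.X J) F₁.W ≤ 4 * L * J := (CH_X ha hτ'R hMx1).trans (hdir F₁)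
  have hX2 : CH F₁.rnd.p (F₁.rnd.X J) F₁.rnd.W ≤ 4 * L * J + a * Q := by
    have h1 : F₁.rnd.Ga a = CH F₁.rnd.p (F₁.rnd.D J) F₁.rnd.Z -
      a * CH F₁.rnd.p (F₁.rnd.X J) F₁.rnd.W := rfl
    have h2 : 0 ≤ (R - τ') * J := mul_nonneg (by linarith) (by linarith)
    have h3 := hMx1.2
    have h4 := hdir F₁.rnd
    have h5 := CH_nonneg F₁.rnd.isLaw.nonneg (F₁.rnd.X J) F₁.rnd.W
    nlinarith [hr2.1]
  have hl : CH F₁.rnd.p F₁.rnd.l F₁.rnd.W ≤ 8 * L * J + Q := by
    have h1 : CH F₁.rnd.p F₁.rnd.l F₁.rnd.W ≤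
      CH F₁.p (F₁.X J) F₁.W + CH F₁.p (F₁.D J) F₁.Z + Q := hr3
    linarith [hdir F₁]
  have hLJ : 0 ≤ L * J := mul_nonneg hL0 (by linarith)
  have hlJ : 0 ≤ Real.log 2 * J := mul_nonneg hl2.le (by linarith)
  have hCJ : Q ≤ Q * J := by nlinarith
  have haC : 0 ≤ a * Q := mul_nonneg (by linarith) hQ
  have haCJ : a * Q ≤ a * Q * J := by nlinarith
  have hBJ : B * J = 8 * (L * J) + Real.log 2 * J + Q * J + a * Q * J + J := by
    rw [hB]
    ring
  have hbd : ∀ i, H F₁.rnd.p (lst F₁.rnd i) ≤ B * J := by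
    intro i
    refine (H_le hTr2 _).trans ?_
    rw [hBJ]
    match i with
    | 0 =>
      have h1 : CH F₁.rnd.p (F₁.rnd.D J) F₁.rnd.Z ≤ 4 * L * J := hdir F₁.rnd
      change CH F₁.rnd.p (F₁.rnd.D J) F₁.rnd.Z ≤ _
      nlinarith
    | 1 =>
      have h1 := pair_le F₁.rnd (F₁.rnd.X J)
      change CH F₁.rnd.p (fun ω => (F₁.rnd.X J ω, F₁.rnd.T ω)) F₁.rnd.Z ≤ _
      nlinarith
    | 2 =>
      have h1 := T_le F₁.rnd
      change CH F₁.rnd.p F₁.rnd.T F₁.rnd.Z ≤ _
      nlinarith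
    | 3 =>
      have h1 := pair_le F₁.rnd F₁.rnd.l
      change CH F₁.rnd.p (fun ω => (F₁.rnd.l ω, F₁.rnd.T ω)) F₁.rnd.Z ≤ _
      nlinarith
    | 4 =>
      have h1 := pair_le F₁.rnd F₁.rnd.l
      have h2 : CH F₁.rnd.p F₁.rnd.l F₁.rnd.Z ≤
          CH F₁.rnd.p (fun ω => (F₁.rnd.l ω, F₁.rnd.T ω)) F₁.rnd.Z :=
        CH_mono_left F₁.rnd.isLaw.nonneg fun ω ω' _ _ e =>
          (Prod.ext_iff.1 (Prod.ext_iff.1 e).1).1
      change CH F₁.rnd.p F₁.rnd.l F₁.rnd.Z ≤ _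
      nlinarith
  obtain ⟨A, -, hA, hMx3, hC3, hreg⟩ := hM J (by omega) F₁.rnd hMx2 hC2 (S m) (lst F₁.rnd) hbd
  refine ⟨J, by omega, F₁.rnd.res A True hA, ⟨?_, hMx3, ?_⟩, hC3⟩
  · obtain ⟨z', hz'⟩ := hTr2
    refine ⟨z', fun ω hω => hz' ω fun h0 => hω ?_⟩
    change cond F₁.rnd.p A True ω = 0
    unfold Agent.H49.Ent.cond
    split_ifs
    · rw [h0, zero_div]
    · rfl
  · exact ⟨hreg 0, hreg 1, hreg 2, hreg 3, hreg 4⟩

/-- A class with members at all defects. -/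
def Exs (S : FCl m) : Prop :=
  ∀ τ : ℝ, 0 < τ → ∀ J₀ : ℕ, ∃ J ≥ J₀, ∃ F : Fam m J, S.T τ J F

/-- A contradiction shows that the class is empty. -/
theorem not_exs {S : FCl m} (h : Clg S (fun _ _ _ => False)) : ¬ Exs S := by
  intro hS
  obtain ⟨c, hc, J₁, h1⟩ := h.win 1 one_pos
  obtain ⟨J, hJ, F, hF⟩ := hS c hc J₁
  obtain ⟨A, -, -, hA⟩ := h1 J hJ F (fun _ => True) ⟨hF, by
    rw [Pe_univ F.isLaw, Real.exp_le_one_iff]
    have : 0 ≤ c * J := by positivity
    linarith⟩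
  exact hA

/-- **The entropy inequality for a class** follows from a contradiction in its maximal
families. -/
theorem kpc_of_clg (C : KCl m) (h : ∀ a R : ℝ, 1 < a → 0 < R → UBc C a R →
    Clg (mxc C a R) (fun _ _ _ => False)) : KPc C := by
  by_contra hK
  obtain ⟨a₀, ha₀, hex⟩ := aexc C hK
  obtain ⟨R, hR, -, hU, hL⟩ := hex a₀ ha₀ le_rfl
  exact not_exs (h a₀ R ha₀ hR hU) fun τ hτ J₀ => rexc C ha₀.le hR hU hL hτ J₀

/-- **Plan B for a class.** -/
theorem kpc_of_planB (C : KCl m)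
    (hSPS : ∀ a R : ℝ, 1 < a → 0 < R → UBc C a R → SPS (mxc C a R) (m - 2))
    (hCHT : ∀ a R : ℝ, 1 < a → 0 < R → UBc C a R → CHS (mxc C a R))
    (hROW : ∀ a R : ℝ, 1 < a → 0 < R → UBc C a R → ROWS (mxc C a R))
    (hSTP : ∀ S : FCl m, SPS S (m - 2) → STP S) (hSLP : ∀ S : FCl m, SPS S (m - 2) → SLP S)
    (hEND : ∀ a R : ℝ, 1 < a → 0 < R → UBc C a R → SPS (mxc C a R) (m - 2) →
      ENDS (mxc C a R)) : KPc C := by
  refine kpc_of_clg C fun a R ha hR hU => ?_
  have h := hSPS a R ha hR hU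
  exact clg_false (leaf_thm (hCHT a R ha hR hU) (hROW a R ha hR hU) (hSTP _ h) (hSLP _ h))
    (hEND a R ha hR hU h)

end Pool.BR
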