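import Pool.Agent.H52.BR.All
import Pool.Agent.H56.KPM.SloU

/-!
# Broad tubes in all dimensions

The lossy step (`stp_all`) and the slope law (`slp_thm`) are theorems for every class of families
whose fans are spread off subspaces of codimension two.
-/

set_option autoImplicit false

namespace Pool.BR

open Finset Real MeasureTheory
open scoped RealInnerProductSpace ENNReal
open Pool.PB
open Pool.Agent.H53.Kak (E tube)

/-- **Broad tubes** in dimension `n = k + 3`, with no hypothesis left. -/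
theorem broad_tubes_thm (k : ℕ) {c : ℝ} (hc : 0 < c) {ε : ℝ} (hε : 0 < ε) :
    ∃ κ P C : ℝ, 0 < κ ∧ 0 < C ∧ ∀ δ : ℝ, 0 < δ → δ < 1 → ∀ (N : ℕ)
      (x₀ e : Fin N → E (k + 2)),
      (∀ i, ‖e i‖ = 1) → (∀ i i', i ≠ i' → δ ≤ ‖e i - e i'‖) →
      ∀ X : Set (E (k + 2)), MeasurableSet X → ∀ lam : ℝ, 0 < lam → lam ≤ 1 →
      (∀ i, ENNReal.ofReal (lam * δ ^ (k + 2)) ≤ volume (X ∩ tube δ (x₀ i) (e i))) →
      (∀ x ∈ X, ∀ V : Submodule ℝ (E (k + 2)), Module.finrank ℝ V ≤ k + 1 →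
        ∀ ρ : ℝ, δ ≤ ρ → ρ ≤ 1 →
        (Nat.card {i // x ∈ tube δ (x₀ i) (e i) ∧
          Metric.infDist (e i) (V : Set (E (k + 2))) ≤ ρ} : ℝ) ≤
          δ ^ (-κ) * ρ ^ c * (Nat.card {i // x ∈ tube δ (x₀ i) (e i)} : ℝ)) →
      ENNReal.ofReal (C⁻¹ * δ ^ ε * (lam ^ P * (N * δ ^ (k + 2)))) ≤ volume X :=
  broad_tubes k (fun _ hS => stp_all (m := k + 2) (by omega) hS)
    (fun _ hS => slp_thm (k := k + 1) (by omega) hS) hc hε

end Pool.BR
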