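import Mathlib

/-!
# A subfamily and a set on which it is dense

If the sets `T i` have the part `η` of their mass in `B`, then there is a subfamily `I`, which
contains the part `η / 2` of the mass, such that, on the set `X` of the points of `B` at which the
subfamily has at least the part `η / 4` of the sets of the family, each set of the subfamily has at
least the part `η / 4` of its mass.
-/

set_option autoImplicit false

namespace Pool.BR

open Finset MeasureTheory
open scoped ENNReal

section prune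

variable {Ω : Type*} {N : ℕ}

/-- The number of the sets of a subfamily through a point. -/
noncomputable def cnt (T : Fin N → Set Ω) (I : Finset (Fin N)) (x : Ω) : ℝ :=
  ∑ i ∈ I, (T i).indicator (fun _ => (1 : ℝ)) x

lemma cnt_nonneg (T : Fin N → Set Ω) (I : Finset (Fin N)) (x : Ω) : 0 ≤ cnt T I x :=
  Finset.sum_nonneg fun _ _ => Set.indicator_nonneg (fun _ _ => zero_le_one) _

lemma cnt_le_univ (T : Fin N → Set Ω) (I : Finset (Fin N)) (x : Ω) :
    cnt T I x ≤ cnt T univ x :=
  Finset.sum_le_sum_of_subset_of_nonneg (Finset.subset_univ _) fun _ _ _ =>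
    Set.indicator_nonneg (fun _ _ => zero_le_one) _

lemma cnt_erase (T : Fin N → Set Ω) {I : Finset (Fin N)} {i : Fin N} (hi : i ∈ I) (x : Ω) :
    cnt T I x = cnt T (I.erase i) x + (T i).indicator (fun _ => (1 : ℝ)) x := by
  unfold cnt
  rw [Finset.sum_erase_add _ _ hi]

variable [MeasurableSpace Ω] {μ : Measure Ω}

lemma measurable_cnt {T : Fin N → Set Ω} (hT : ∀ i, MeasurableSet (T i)) (I : Finset (Fin N)) :
    Measurable (cnt T I) := by
  unfold cnt
  exact Finset.measurable_sum _ fun i _ => measurable_const.indicator (hT i)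

lemma lintegral_cnt {T : Fin N → Set Ω} (hT : ∀ i, MeasurableSet (T i)) (I : Finset (Fin N))
    (S : Set Ω) : ∫⁻ x in S, ENNReal.ofReal (cnt T I x) ∂μ = ∑ i ∈ I, μ (T i ∩ S) := by
  have h1 : ∀ x, ENNReal.ofReal (cnt T I x) =
      ∑ i ∈ I, (T i).indicator (fun _ => (1 : ℝ≥0∞)) x := by
    intro x
    unfold cnt
    rw [ENNReal.ofReal_sum_of_nonneg fun _ _ => Set.indicator_nonneg (fun _ _ => zero_le_one) _]
    refine Finset.sum_congr rfl fun i _ => ?_
    by_cases hx : x ∈ T i
    · rw [Set.indicator_of_mem hx, Set.indicator_of_mem hx, ENNReal.ofReal_one]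
    · rw [Set.indicator_of_notMem hx, Set.indicator_of_notMem hx, ENNReal.ofReal_zero]
  simp only [h1]
  rw [lintegral_finsetSum _ fun i _ => measurable_const.indicator (hT i)]
  refine Finset.sum_congr rfl fun i _ => ?_
  rw [lintegral_indicator (hT i), lintegral_const, one_mul,
    Measure.restrict_apply MeasurableSet.univ, Set.univ_inter, Measure.restrict_apply (hT i)]

/-- The choice of the subfamily. -/
theorem prune {T : Fin N → Set Ω} (hT : ∀ i, MeasurableSet (T i)) (hfin : ∀ i, μ (T i) ≠ ∞)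
    {B : Set Ω} (hB : MeasurableSet B) {η : ℝ} (hη : 0 < η) (hη1 : η ≤ 1)
    (h : ENNReal.ofReal η * ∑ i, μ (T i) < ∑ i, μ (T i ∩ B)) :
    ∃ I : Finset (Fin N), (∀ i ∈ I, ENNReal.ofReal (η / 4) * μ (T i) ≤
        μ (T i ∩ {x | x ∈ B ∧ η / 4 * cnt T univ x < cnt T I x})) ∧
      ENNReal.ofReal (η / 2) * ∑ i, μ (T i) ≤ ∑ i ∈ I, μ (T i) := by
  classical
  obtain ⟨X, hX⟩ : ∃ X : Finset (Fin N) → Set Ω, ∀ I, X I =
      {x | x ∈ B ∧ η / 4 * cnt T univ x < cnt T I x} := ⟨_, fun _ => rfl⟩
  have hXm : ∀ I, MeasurableSet (X I) := by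
    intro I
    rw [hX]
    exact hB.inter (measurableSet_lt ((measurable_cnt hT univ).const_mul _) (measurable_cnt hT I))
  obtain ⟨g, hg⟩ : ∃ g : Finset (Fin N) → Ω → ℝ≥0∞, ∀ I x, g I x =
      ENNReal.ofReal (cnt T I x - η / 4 * cnt T univ x) := ⟨_, fun _ _ => rfl⟩
  have hgm : ∀ I, Measurable (g I) := by
    intro I
    have : g I = fun x => ENNReal.ofReal (cnt T I x - η / 4 * cnt T univ x) := funext (hg I)
    rw [this]
    exact ((measurable_cnt hT I).sub ((measurable_cnt hT univ).const_mul _)).ennreal_ofReal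
  obtain ⟨A, hA⟩ : ∃ A : Finset (Fin N) → ℝ≥0∞, ∀ I, A I = ∫⁻ x in B, g I x ∂μ :=
    ⟨_, fun _ => rfl⟩
  have hAle : ∀ I, A I ≤ ∑ i ∈ I, μ (T i) := by
    intro I
    calc A I ≤ ∫⁻ x in B, ENNReal.ofReal (cnt T I x) ∂μ := by
          rw [hA]
          refine lintegral_mono fun x => ?_
          rw [hg]
          refine ENNReal.ofReal_le_ofReal ?_
          have := cnt_nonneg T univ x
          have : 0 ≤ η / 4 * cnt T univ x := by positivity
          linarith
      _ = ∑ i ∈ I, μ (T i ∩ B) := lintegral_cnt hT I B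
      _ ≤ _ := Finset.sum_le_sum fun i _ => measure_mono Set.inter_subset_left
  have hsumfin : ∀ I : Finset (Fin N), ∑ i ∈ I, μ (T i) ≠ ∞ := fun I =>
    (ENNReal.sum_lt_top.2 fun i _ => (hfin i).lt_top).ne
  have hAfin : ∀ I, A I ≠ ∞ := fun I => ((hAle I).trans_lt (hsumfin I).lt_top).ne
  obtain ⟨t, ht⟩ : ∃ t : Fin N → ℝ, ∀ i, t i = (μ (T i)).toReal := ⟨_, fun _ => rfl⟩
  have ht0 : ∀ i, 0 ≤ t i := fun i => by rw [ht]; exact ENNReal.toReal_nonneg
  have hts : ∀ I : Finset (Fin N), (∑ i ∈ I, μ (T i)).toReal = ∑ i ∈ I, t i := by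
    intro I
    rw [ENNReal.toReal_sum fun i _ => hfin i]
    exact Finset.sum_congr rfl fun i _ => (ht i).symm
  obtain ⟨I, -, hmax⟩ := Finset.exists_max_image (univ : Finset (Finset (Fin N)))
    (fun I => (A I).toReal - η / 4 * ∑ i ∈ I, t i) ⟨∅, mem_univ _⟩
  have hmax' : ∀ I', (A I').toReal - η / 4 * ∑ i ∈ I', t i ≤
      (A I).toReal - η / 4 * ∑ i ∈ I, t i := fun I' => hmax I' (mem_univ _)
  refine ⟨I, fun i hi => ?_, ?_⟩
  · rw [← hX]
    have hXfin : μ (T i ∩ X I) ≠ ∞ :=
      ((measure_mono Set.inter_subset_left).trans_lt (hfin i).lt_top).ne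
    have h1 : A I ≤ A (I.erase i) + μ (T i ∩ X I) := by
      have h2 : ∀ x ∈ B, g I x ≤ g (I.erase i) x +
          (T i ∩ X I).indicator (fun _ => (1 : ℝ≥0∞)) x := by
        intro x hx
        rw [hg, hg]
        by_cases hxX : η / 4 * cnt T univ x < cnt T I x
        · have hxI : x ∈ X I := by rw [hX]; exact ⟨hx, hxX⟩
          by_cases hxT : x ∈ T i
          · rw [Set.indicator_of_mem (show x ∈ T i ∩ X I from ⟨hxT, hxI⟩), cnt_erase T hi x,
              Set.indicator_of_mem hxT,
              ← ENNReal.ofReal_one]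
            refine le_trans (ENNReal.ofReal_le_ofReal ?_) ENNReal.ofReal_add_le
            linarith
          · rw [Set.indicator_of_notMem (fun h => hxT h.1), add_zero, cnt_erase T hi x,
              Set.indicator_of_notMem hxT, add_zero]
        · have : ENNReal.ofReal (cnt T I x - η / 4 * cnt T univ x) = 0 := by
            rw [ENNReal.ofReal_eq_zero]
            linarith
          rw [this]
          exact bot_le
      calc A I = ∫⁻ x in B, g I x ∂μ := hA I
        _ ≤ ∫⁻ x in B, (g (I.erase i) x + (T i ∩ X I).indicator (fun _ => (1 : ℝ≥0∞)) x) ∂μ :=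
            setLIntegral_mono' hB h2
        _ = A (I.erase i) + ∫⁻ x in B, (T i ∩ X I).indicator (fun _ => (1 : ℝ≥0∞)) x ∂μ := by
            rw [lintegral_add_left (hgm _), hA]
        _ ≤ _ := by
            gcongr
            rw [lintegral_indicator ((hT i).inter (hXm I)), lintegral_const, one_mul,
              Measure.restrict_apply MeasurableSet.univ, Set.univ_inter]
            exact Measure.restrict_apply_le _ _
    have h3 : (A I).toReal ≤ (A (I.erase i)).toReal + (μ (T i ∩ X I)).toReal := by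
      rw [← ENNReal.toReal_add (hAfin _) hXfin]
      exact ENNReal.toReal_mono (ENNReal.add_ne_top.2 ⟨hAfin _, hXfin⟩) h1
    have h4 := hmax' (I.erase i)
    have h5 : ∑ j ∈ I, t j = ∑ j ∈ I.erase i, t j + t i := (Finset.sum_erase_add _ _ hi).symm
    rw [h5, mul_add] at h4
    have h6 : η / 4 * t i ≤ (μ (T i ∩ X I)).toReal := by linarith
    rw [← ENNReal.ofReal_toReal (hfin i), ← ENNReal.ofReal_toReal hXfin,
      ← ENNReal.ofReal_mul (by positivity), ← ht]
    exact ENNReal.ofReal_le_ofReal h6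
  · have hBfin : ∑ i, μ (T i ∩ B) ≠ ∞ := ((Finset.sum_le_sum fun i _ =>
      measure_mono Set.inter_subset_left).trans_lt (hsumfin univ).lt_top).ne
    have h1 : A univ = ENNReal.ofReal (1 - η / 4) * ∑ i, μ (T i ∩ B) := by
      rw [hA, ← lintegral_cnt hT univ B,
        ← lintegral_const_mul _ (measurable_cnt hT univ).ennreal_ofReal]
      refine lintegral_congr fun x => ?_
      rw [hg, ← ENNReal.ofReal_mul (by linarith)]
      congr 1
      ring
    have h2 : (A univ).toReal = (1 - η / 4) * (∑ i, μ (T i ∩ B)).toReal := by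
      rw [h1, ENNReal.toReal_mul, ENNReal.toReal_ofReal (by linarith)]
    have h3 : η * ∑ i, t i ≤ (∑ i, μ (T i ∩ B)).toReal := by
      have := ENNReal.toReal_mono hBfin h.le
      rw [ENNReal.toReal_mul, ENNReal.toReal_ofReal hη.le, hts] at this
      exact this
    have h4 := hmax' univ
    rw [h2] at h4
    have h5 : (A I).toReal ≤ ∑ i ∈ I, t i := by
      rw [← hts]
      exact ENNReal.toReal_mono (hsumfin I) (hAle I)
    have h6 : 0 ≤ ∑ i ∈ I, t i := Finset.sum_nonneg fun i _ => ht0 i
    have h7 : 0 ≤ ∑ i, t i := Finset.sum_nonneg fun i _ => ht0 i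
    have h8 : η / 2 * ∑ i, t i ≤ ∑ i ∈ I, t i := by
      have h9 : (1 - η / 4) * (η * ∑ i, t i) ≤ (1 - η / 4) * (∑ i, μ (T i ∩ B)).toReal :=
        mul_le_mul_of_nonneg_left h3 (by linarith)
      have h10 : 0 ≤ η / 4 * ∑ i ∈ I, t i := by positivity
      have h11 : 0 ≤ (1 - η) * (η * ∑ i, t i) := by
        have : 0 ≤ 1 - η := by linarith
        positivity
      nlinarith
    rw [← hts, ← hts] at h8
    rw [← ENNReal.ofReal_toReal (hsumfin univ), ← ENNReal.ofReal_toReal (hsumfin I),
      ← ENNReal.ofReal_mul (by positivity)]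
    exact ENNReal.ofReal_le_ofReal h8

end prune

end Pool.BR
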