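import Pool.Agent.H52.BR.All
import Pool.Agent.H52.BR.Prune
import Pool.Agent.H1.STK2.TG2

/-!
# The multiplicity of a broad family of tubes

From the volume of broad shadings (`BT`): outside a part `η` of the mass at most
`C η ^ (-P) δ ^ (-ε)` tubes meet, and there the conjectured `L ^ q` bound holds.
-/

set_option autoImplicit false

namespace Pool.BR

open Finset Real MeasureTheory
open scoped RealInnerProductSpace ENNReal
open Pool.Agent.H53.Kak (E tube measurableSet_tube volume_tube_le CG CG_pos card_le_all)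
open Pool.STK (mlt)
open Pool.STK.TG2 (le_volume_tube mlt_nonneg measurable_mlt lintegral_mlt)

/-- At the points of `Y` the tubes of the family are not concentrated near subspaces of dimension
at most `j`. -/
def Brd {d N : ℕ} (j : ℕ) (δ κ c : ℝ) (x₀ e : Fin N → E d) (Y : Set (E d)) : Prop :=
  ∀ x ∈ Y, ∀ V : Submodule ℝ (E d), Module.finrank ℝ V ≤ j → ∀ ρ : ℝ, δ ≤ ρ → ρ ≤ 1 →
    (Nat.card {i // x ∈ tube δ (x₀ i) (e i) ∧ Metric.infDist (e i) (V : Set (E d)) ≤ ρ} : ℝ) ≤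
      δ ^ (-κ) * ρ ^ c * (Nat.card {i // x ∈ tube δ (x₀ i) (e i)} : ℝ)

/-- At the points of `Y` the tubes of the family are not concentrated near subspaces of dimension
at most `j`, up to `δ ^ (-κ)` tubes. -/
def Brw {d N : ℕ} (j : ℕ) (δ κ c : ℝ) (x₀ e : Fin N → E d) (Y : Set (E d)) : Prop :=
  ∀ x ∈ Y, ∀ V : Submodule ℝ (E d), Module.finrank ℝ V ≤ j → ∀ ρ : ℝ, δ ≤ ρ → ρ ≤ 1 →
    (Nat.card {i // x ∈ tube δ (x₀ i) (e i) ∧ Metric.infDist (e i) (V : Set (E d)) ≤ ρ} : ℝ) ≤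
      δ ^ (-κ) * (1 + ρ ^ c * mlt δ x₀ e x)

/-- The volume of broad shadings. -/
def BT (d j : ℕ) (c ε : ℝ) : Prop :=
  ∃ κ P C : ℝ, 0 < κ ∧ 0 < C ∧ ∀ δ : ℝ, 0 < δ → δ < 1 → ∀ (N : ℕ) (x₀ e : Fin N → E d),
    (∀ i, ‖e i‖ = 1) → (∀ i i', i ≠ i' → δ ≤ ‖e i - e i'‖) →
    ∀ X : Set (E d), MeasurableSet X → ∀ lam : ℝ, 0 < lam → lam ≤ 1 →
    (∀ i, ENNReal.ofReal (lam * δ ^ d) ≤ volume (X ∩ tube δ (x₀ i) (e i))) →
    Brd j δ κ c x₀ e X →
    ENNReal.ofReal (C⁻¹ * δ ^ ε * (lam ^ P * (N * δ ^ d))) ≤ volume X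

variable {d N : ℕ}

lemma card_eq_sum (p : Fin N → Prop) :
    (Nat.card {i // p i} : ℝ) = ∑ i, ({i | p i} : Set (Fin N)).indicator (fun _ => (1 : ℝ)) i := by
  classical
  rw [Nat.card_eq_fintype_card, Fintype.card_subtype]
  simp only [Set.indicator_apply, Set.mem_ofPred_eq]
  rw [Finset.sum_boole]

lemma card_comp {n : ℕ} {g : Fin n → Fin N} (hg : Function.Injective g) (p : Fin N → Prop) :
    Nat.card {i' // p (g i')} ≤ Nat.card {i // p i} := by
  refine Nat.card_le_card_of_injective (fun z : {i' // p (g i')} => (⟨g z.1, z.2⟩ : {i // p i})) ?_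
  intro a b hab
  simp only [Subtype.mk.injEq] at hab
  exact Subtype.ext (hg hab)

lemma card_eq_mlt (δ : ℝ) (x₀ e : Fin N → E d) (x : E d) :
    (Nat.card {i // x ∈ tube δ (x₀ i) (e i)} : ℝ) = mlt δ x₀ e x := by
  rw [card_eq_sum]
  refine Finset.sum_congr rfl fun i _ => ?_
  by_cases h : x ∈ tube δ (x₀ i) (e i)
  · rw [Set.indicator_of_mem h, Set.indicator_of_mem (show i ∈ {i | x ∈ tube δ (x₀ i) (e i)} from h)]
  · rw [Set.indicator_of_notMem h,
      Set.indicator_of_notMem (show i ∉ {i | x ∈ tube δ (x₀ i) (e i)} from h)]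

lemma mlt_le_card (δ : ℝ) (x₀ e : Fin N → E d) (x : E d) : mlt δ x₀ e x ≤ N := by
  calc mlt δ x₀ e x ≤ ∑ _i : Fin N, (1 : ℝ) :=
        Finset.sum_le_sum fun i _ => Set.indicator_le_self' (fun _ _ => zero_le_one) _
    _ = N := by simp

/-- The `L ^ q` bound from the multiplicity. -/
lemma lq_bound (hd : 1 ≤ d) {δ : ℝ} (hδ : 0 < δ) {x₀ e : Fin N → E d} (hu : ∀ i, ‖e i‖ = 1)
    {G : Set (E d)} {Λ : ℝ} (hΛ1 : 1 ≤ Λ) (hGb : ∀ x ∈ G, mlt δ x₀ e x ≤ Λ)
    {q : ℝ} (hq : 1 + 1 / (d : ℝ) ≤ q) :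
    eLpNorm (G.indicator (mlt δ x₀ e)) (ENNReal.ofReal q) volume ≤
      ENNReal.ofReal (2 ^ d * Λ * (δ ^ ((d : ℝ) / q) * (N : ℝ) ^ (1 - 1 / (q * d)))) := by
  have hd0 : (0 : ℝ) < d := by exact_mod_cast hd
  have hΛ0 : 0 < Λ := by linarith
  have hmm := measurable_mlt δ x₀ e
  have h2d : (1 : ℝ) ≤ 2 ^ d := one_le_pow₀ (by norm_num)
  have hq1 : 1 < q := by
    have : 0 < 1 / (d : ℝ) := by positivity
    linarith
  have hq0 : 0 < q := by linarith
  have hqE : ENNReal.ofReal q ≠ 0 := (ENNReal.ofReal_pos.2 hq0).ne'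
  rw [eLpNorm_eq_lintegral_rpow_enorm_toReal hqE ENNReal.ofReal_ne_top,
    ENNReal.toReal_ofReal hq0.le]
  have h1 : ∫⁻ x, ‖G.indicator (mlt δ x₀ e) x‖ₑ ^ q ≤
      ENNReal.ofReal (Λ ^ (q - 1) * (2 ^ d * (N * δ ^ d))) := by
    calc ∫⁻ x, ‖G.indicator (mlt δ x₀ e) x‖ₑ ^ q
        ≤ ∫⁻ x, ENNReal.ofReal (Λ ^ (q - 1)) * ENNReal.ofReal (mlt δ x₀ e x) := by
          refine lintegral_mono fun x => ?_
          by_cases hx : x ∈ G
          · rw [Set.indicator_of_mem hx]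
            have h0 := mlt_nonneg δ x₀ e x
            rw [Real.enorm_of_nonneg h0, ENNReal.ofReal_rpow_of_nonneg h0 hq0.le,
              ← ENNReal.ofReal_mul (by positivity)]
            refine ENNReal.ofReal_le_ofReal ?_
            rcases h0.eq_or_lt with h2 | h2
            · rw [← h2, Real.zero_rpow hq0.ne', mul_zero]
            · have h3 : mlt δ x₀ e x ^ q = mlt δ x₀ e x ^ (q - 1) * mlt δ x₀ e x := by
                rw [← Real.rpow_add_one h2.ne']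
                congr 1
                ring
              rw [h3]
              refine mul_le_mul_of_nonneg_right ?_ h0
              exact Real.rpow_le_rpow h0 (hGb x hx) (by linarith)
          · rw [Set.indicator_of_notMem hx, enorm_zero, ENNReal.zero_rpow_of_pos hq0]
            exact bot_le
      _ = ENNReal.ofReal (Λ ^ (q - 1)) * ∑ i, volume (tube δ (x₀ i) (e i)) := by
          rw [lintegral_const_mul _ hmm.ennreal_ofReal, ← setLIntegral_univ, lintegral_mlt]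
          simp only [Set.inter_univ]
      _ ≤ ENNReal.ofReal (Λ ^ (q - 1)) * ∑ _i : Fin N, ENNReal.ofReal ((2 * δ) ^ d) := by
          gcongr with i
          exact volume_tube_le δ hδ.le (x₀ i) (e i) (hu i)
      _ = _ := by
          rw [Finset.sum_const, Finset.card_univ, Fintype.card_fin, nsmul_eq_mul,
            ← ENNReal.ofReal_natCast, ← ENNReal.ofReal_mul (by positivity),
            ← ENNReal.ofReal_mul (by positivity)]
          congr 1
          rw [mul_pow]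
          ring
  have h4 : (ENNReal.ofReal (Λ ^ (q - 1) * (2 ^ d * (N * δ ^ d)))) ^ (1 / q) =
      ENNReal.ofReal ((Λ ^ (q - 1) * (2 ^ d * (N * δ ^ d))) ^ (1 / q)) :=
    ENNReal.ofReal_rpow_of_nonneg (by positivity) (by positivity)
  refine (ENNReal.rpow_le_rpow h1 (by positivity)).trans ?_
  rw [h4]
  refine ENNReal.ofReal_le_ofReal ?_
  have hN0 : (0 : ℝ) ≤ N := Nat.cast_nonneg N
  rw [Real.mul_rpow (by positivity) (by positivity), Real.mul_rpow (by positivity) (by positivity),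
    Real.mul_rpow hN0 (by positivity), ← Real.rpow_mul hΛ0.le]
  have k1 : Λ ^ ((q - 1) * (1 / q)) ≤ Λ := by
    calc Λ ^ ((q - 1) * (1 / q)) ≤ Λ ^ (1 : ℝ) := by
          refine Real.rpow_le_rpow_of_exponent_le hΛ1 ?_
          rw [mul_one_div, div_le_one hq0]
          linarith
      _ = Λ := Real.rpow_one Λ
  have hq2 : 1 / q ≤ 1 := by
    rw [div_le_one hq0]
    exact hq1.le
  have k2 : ((2 : ℝ) ^ d) ^ (1 / q) ≤ 2 ^ d := by
    calc ((2 : ℝ) ^ d) ^ (1 / q) ≤ ((2 : ℝ) ^ d) ^ (1 : ℝ) :=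
          Real.rpow_le_rpow_of_exponent_le h2d hq2
      _ = 2 ^ d := Real.rpow_one _
  have k3 : (N : ℝ) ^ (1 / q) ≤ (N : ℝ) ^ (1 - 1 / (q * d)) := by
    rcases Nat.eq_zero_or_pos N with hN | hN
    · subst hN
      rw [Nat.cast_zero, Real.zero_rpow (by positivity)]
      exact Real.rpow_nonneg le_rfl _
    · have hN1 : (1 : ℝ) ≤ N := by exact_mod_cast hN
      refine Real.rpow_le_rpow_of_exponent_le hN1 ?_
      have h5 : 1 / q + 1 / (q * d) = (1 + 1 / d) / q := by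
        field_simp
      have h6 : (1 + 1 / (d : ℝ)) / q ≤ 1 := by
        rw [div_le_one hq0]
        exact hq
      linarith
  have k4 : (δ ^ d) ^ (1 / q) = δ ^ ((d : ℝ) / q) := by
    rw [← Real.rpow_natCast, ← Real.rpow_mul hδ.le]
    congr 1
    ring
  rw [k4]
  calc Λ ^ ((q - 1) * (1 / q)) * (((2 : ℝ) ^ d) ^ (1 / q) * ((N : ℝ) ^ (1 / q) * δ ^ ((d : ℝ) / q)))
      ≤ Λ * (2 ^ d * ((N : ℝ) ^ (1 - 1 / (q * d)) * δ ^ ((d : ℝ) / q))) := by
        gcongr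
    _ = _ := by ring

/-- The constants of the multiplicity. -/
lemma count_real {C₀ P₁ cd η δ ε μ d2 n N : ℝ} (hC₀ : 0 < C₀) (hcd : 0 < cd)
    (hη : 0 < η) (hδ : 0 < δ) (hd2 : 0 < d2) (hN : 0 < N)
    (hn : η / 2 * (N * cd) ≤ n * d2)
    (hμ : (2 * d2 * d2 / cd * C₀ * (cd / 4) ^ (-P₁) + 1) * η ^ (-(P₁ + 1)) * δ ^ (-ε) ≤ μ)
    (h : μ * (C₀⁻¹ * δ ^ ε * ((η / 4 * cd) ^ P₁ * n)) ≤ N * d2) : False := by
  obtain ⟨A, hA⟩ : ∃ A : ℝ, A = 2 * d2 * d2 / cd * C₀ * (cd / 4) ^ (-P₁) := ⟨_, rfl⟩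
  rw [← hA] at hμ
  have hA0 : 0 < A := by rw [hA]; positivity
  have hμ0 : 0 ≤ μ := le_trans (by positivity) hμ
  have hn' : η * (N * cd) / (2 * d2) ≤ n := by
    rw [div_le_iff₀ (by positivity)]
    linarith
  have h1 : (A + 1) * η ^ (-(P₁ + 1)) * δ ^ (-ε) *
      (C₀⁻¹ * δ ^ ε * ((η / 4 * cd) ^ P₁ * (η * (N * cd) / (2 * d2)))) ≤ N * d2 := by
    refine le_trans ?_ h
    gcongr
  have h2 : (η / 4 * cd) ^ P₁ = η ^ P₁ * (cd / 4) ^ P₁ := by
    rw [← Real.mul_rpow hη.le (by positivity)]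
    congr 1
    ring
  have h3 : δ ^ (-ε) * δ ^ ε = 1 := by
    rw [← Real.rpow_add hδ]
    simp
  have h4 : η ^ (-(P₁ + 1)) * (η ^ P₁ * η) = 1 := by
    have : η ^ P₁ * η = η ^ (P₁ + 1) := by rw [Real.rpow_add_one hη.ne']
    rw [this, ← Real.rpow_add hη]
    simp
  have h5 : (cd / 4) ^ (-P₁) * (cd / 4) ^ P₁ = 1 := by
    rw [← Real.rpow_add (by positivity)]
    simp
  have h6 : (A + 1) * η ^ (-(P₁ + 1)) * δ ^ (-ε) *
      (C₀⁻¹ * δ ^ ε * ((η / 4 * cd) ^ P₁ * (η * (N * cd) / (2 * d2)))) =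
      (A + 1) * (C₀⁻¹ * (cd / 4) ^ P₁ * cd / (2 * d2)) * N := by
    rw [h2]
    calc (A + 1) * η ^ (-(P₁ + 1)) * δ ^ (-ε) *
        (C₀⁻¹ * δ ^ ε * (η ^ P₁ * (cd / 4) ^ P₁ * (η * (N * cd) / (2 * d2)))) =
        (A + 1) * (C₀⁻¹ * (cd / 4) ^ P₁ * cd / (2 * d2)) * N * (δ ^ (-ε) * δ ^ ε) *
          (η ^ (-(P₁ + 1)) * (η ^ P₁ * η)) := by ring
      _ = _ := by rw [h3, h4, mul_one, mul_one]
  rw [h6] at h1
  have h7 : (A + 1) * (C₀⁻¹ * (cd / 4) ^ P₁ * cd / (2 * d2)) ≤ d2 := by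
    have h8 : (A + 1) * (C₀⁻¹ * (cd / 4) ^ P₁ * cd / (2 * d2)) * N ≤ d2 * N := by linarith
    exact le_of_mul_le_mul_right h8 hN
  have h8 : A * (C₀⁻¹ * (cd / 4) ^ P₁ * cd / (2 * d2)) = d2 := by
    rw [hA]
    calc 2 * d2 * d2 / cd * C₀ * (cd / 4) ^ (-P₁) * (C₀⁻¹ * (cd / 4) ^ P₁ * cd / (2 * d2)) =
        (2 * d2 * d2 / cd * cd / (2 * d2)) * (C₀ * C₀⁻¹) *
          ((cd / 4) ^ (-P₁) * (cd / 4) ^ P₁) := by ring
      _ = d2 := by
          rw [h5, mul_inv_cancel₀ hC₀.ne', mul_one, mul_one]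
          field_simp
  have h9 : 0 < C₀⁻¹ * (cd / 4) ^ P₁ * cd / (2 * d2) := by positivity
  nlinarith

/-- **The multiplicity of a broad family.** -/
theorem mult_of_bt (hd : 1 ≤ d) {j : ℕ} {c ε : ℝ} (hε : 0 < ε) (h : BT d j (min c ε) ε) :
    ∃ κ P C : ℝ, 0 < κ ∧ 0 ≤ P ∧ 1 ≤ C ∧ ∀ δ : ℝ, 0 < δ → δ < 1 → ∀ (N : ℕ)
      (x₀ e : Fin N → E d), (∀ i, ‖e i‖ = 1) → (∀ i i', i ≠ i' → δ ≤ ‖e i - e i'‖) →
      ∀ Y : Set (E d), MeasurableSet Y → Brw j δ κ c x₀ e Y → ∀ η : ℝ, 0 < η → η ≤ 1 →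
        ∑ i, volume (tube δ (x₀ i) (e i) ∩ (Y ∩ {x | C * η ^ (-P) * δ ^ (-ε) < mlt δ x₀ e x})) ≤
          ENNReal.ofReal η * ∑ i, volume (tube δ (x₀ i) (e i)) := by
  classical
  obtain ⟨κ₀, P₀, C₀, hκ₀, hC₀, h⟩ := h
  have hd0 : (0 : ℝ) < d := by exact_mod_cast hd
  obtain ⟨c', hc'⟩ : ∃ c' : ℝ, c' = min c ε := ⟨_, rfl⟩
  rw [← hc'] at h
  have hcc : c' ≤ c := by rw [hc']; exact min_le_left _ _
  have hcε : c' ≤ ε := by rw [hc']; exact min_le_right _ _
  obtain ⟨cd, hcd⟩ : ∃ cd : ℝ, cd = min ((2 / (d : ℝ)) ^ d) 1 := ⟨_, rfl⟩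
  have hcd0 : 0 < cd := by rw [hcd]; exact lt_min (by positivity) one_pos
  have hcd1 : cd ≤ 1 := by rw [hcd]; exact min_le_right _ _
  have hcd2 : cd ≤ (2 / d) ^ d := by rw [hcd]; exact min_le_left _ _
  obtain ⟨P₁, hP₁⟩ : ∃ P₁ : ℝ, P₁ = max P₀ 0 := ⟨_, rfl⟩
  have hP₁0 : 0 ≤ P₁ := by rw [hP₁]; exact le_max_right _ _
  have hP₀₁ : P₀ ≤ P₁ := by rw [hP₁]; exact le_max_left _ _
  obtain ⟨κ, hκ⟩ : ∃ κ : ℝ, κ = κ₀ / 2 := ⟨_, rfl⟩
  have hκ0 : 0 < κ := by rw [hκ]; positivity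
  have hκκ : κ + κ = κ₀ := by rw [hκ]; ring
  obtain ⟨P, hP⟩ : ∃ P : ℝ, P = max (P₁ + 1) (d / κ) := ⟨_, rfl⟩
  have hPa : P₁ + 1 ≤ P := by rw [hP]; exact le_max_left _ _
  have hPb : (d : ℝ) ≤ κ * P := by
    have h1 : (d : ℝ) / κ ≤ P := by rw [hP]; exact le_max_right _ _
    rw [div_le_iff₀ hκ0] at h1
    linarith
  have hP0 : 0 ≤ P := by linarith
  obtain ⟨d2, hd2⟩ : ∃ d2 : ℝ, d2 = 2 ^ d := ⟨_, rfl⟩
  have hd20 : 0 < d2 := by rw [hd2]; positivity
  obtain ⟨C, hC⟩ : ∃ C : ℝ, C = max (2 * d2 * d2 / cd * C₀ * (cd / 4) ^ (-P₁) + 1)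
    (CG d * 3 ^ d * 8 ^ P) := ⟨_, rfl⟩
  have hCa : 2 * d2 * d2 / cd * C₀ * (cd / 4) ^ (-P₁) + 1 ≤ C := by
    rw [hC]; exact le_max_left _ _
  have hCc : CG d * 3 ^ d * 8 ^ P ≤ C := by rw [hC]; exact le_max_right _ _
  have hA0 : 0 < 2 * d2 * d2 / cd * C₀ * (cd / 4) ^ (-P₁) := by positivity
  have hC1 : 1 ≤ C := by linarith
  have hC0 : 0 < C := by linarith
  refine ⟨κ, P, C, hκ0, hP0, hC1, ?_⟩
  intro δ hδ hδ1 N x₀ e hu hsep Y hY hB η hη hη1
  have hδd : 0 < δ ^ d := by positivity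
  -- the multiplicity
  obtain ⟨μ, hμ⟩ : ∃ μ : ℝ, μ = C * η ^ (-P) * δ ^ (-ε) := ⟨_, rfl⟩
  have hμ0 : 0 < μ := by rw [hμ]; positivity
  have hμε : δ ^ (-ε) ≤ μ := by
    rw [hμ]
    have k1 : 1 ≤ η ^ (-P) := Real.one_le_rpow_of_pos_of_le_one_of_nonpos hη hη1 (by linarith)
    exact le_mul_of_one_le_left (by positivity) (one_le_mul_of_one_le_of_one_le hC1 k1)
  rw [← hμ]
  have hNle : (N : ℝ) ≤ CG d * 3 ^ d * (δ ^ d)⁻¹ := by
    have h1 := card_le_all hδ hδ1 (S := (univ : Finset (Fin N))) (e := e)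
      ⟨fun i _ => hu i, fun i _ i' _ hii => hsep i i' hii⟩
    simpa using h1
  by_cases hcase : η < 8 * δ ^ κ
  · -- no point has so many tubes
    have h1 : (N : ℝ) ≤ μ := by
      refine hNle.trans ?_
      rw [hμ]
      have h2 : (8 * δ ^ κ) ^ (-P) ≤ η ^ (-P) :=
        Real.rpow_le_rpow_of_nonpos hη hcase.le (by linarith)
      have h3 : (8 * δ ^ κ) ^ (-P) = (8 ^ P)⁻¹ * δ ^ (-(κ * P)) := by
        rw [Real.mul_rpow (by norm_num) (by positivity), Real.rpow_neg (by norm_num),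
          ← Real.rpow_mul hδ.le]
        congr 2
        ring
      have h4 : (δ ^ d)⁻¹ ≤ δ ^ (-(κ * P)) := by
        rw [← Real.rpow_natCast, ← Real.rpow_neg hδ.le]
        exact Real.rpow_le_rpow_of_exponent_ge hδ hδ1.le (by linarith)
      have h5 : 1 ≤ δ ^ (-ε) := Real.one_le_rpow_of_pos_of_le_one_of_nonpos hδ hδ1.le (by linarith)
      have hCG := CG_pos d
      calc CG d * 3 ^ d * (δ ^ d)⁻¹ = (CG d * 3 ^ d * 8 ^ P) * ((8 ^ P)⁻¹ * (δ ^ d)⁻¹) * 1 := by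
            field_simp
        _ ≤ C * ((8 ^ P)⁻¹ * δ ^ (-(κ * P))) * δ ^ (-ε) := by
            gcongr
        _ ≤ C * η ^ (-P) * δ ^ (-ε) := by
            rw [← h3]
            gcongr
    have h2 : {x | μ < mlt δ x₀ e x} = (∅ : Set (E d)) := by
      ext x
      simp only [Set.mem_ofPred_eq, Set.mem_empty_iff_false, iff_false, not_lt]
      exact (mlt_le_card δ x₀ e x).trans h1
    rw [h2]
    simp
  · rw [not_lt] at hcase
    by_contra hcon
    rw [not_le] at hcon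
    have hTm : ∀ i, MeasurableSet (tube δ (x₀ i) (e i)) := fun i => measurableSet_tube _ _ _
    have hfin : ∀ i, volume (tube δ (x₀ i) (e i)) ≠ ∞ := fun i =>
      ((volume_tube_le δ hδ.le (x₀ i) (e i) (hu i)).trans_lt ENNReal.ofReal_lt_top).ne
    have hmm := measurable_mlt δ x₀ e
    have hBm : MeasurableSet (Y ∩ {x | μ < mlt δ x₀ e x}) :=
      hY.inter (measurableSet_lt measurable_const hmm)
    obtain ⟨I, hI1, hI2⟩ := prune hTm hfin hBm hη hη1 hcon
    obtain ⟨X, hXdef⟩ : ∃ X : Set (E d), X = {x | x ∈ Y ∩ {x | μ < mlt δ x₀ e x} ∧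
      η / 4 * cnt (fun i => tube δ (x₀ i) (e i)) univ x <
        cnt (fun i => tube δ (x₀ i) (e i)) I x} := ⟨_, rfl⟩
    rw [← hXdef] at hI1
    have hXm : MeasurableSet X := by
      rw [hXdef]
      exact hBm.inter (measurableSet_lt ((measurable_cnt hTm univ).const_mul _)
        (measurable_cnt hTm I))
    -- the volume of a tube
    have hlow : ∀ i, ENNReal.ofReal (cd * δ ^ d) ≤ volume (tube δ (x₀ i) (e i)) := by
      intro i
      refine le_trans (ENNReal.ofReal_le_ofReal ?_) (le_volume_tube hd δ hδ.le (x₀ i) (e i) (hu i))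
      have h9 : (2 * (δ / d)) ^ d = (2 / d) ^ d * δ ^ d := by
        rw [← mul_pow]
        congr 1
        ring
      rw [h9]
      gcongr
    have hupp : ∀ i, volume (tube δ (x₀ i) (e i)) ≤ ENNReal.ofReal (d2 * δ ^ d) := by
      intro i
      refine (volume_tube_le δ hδ.le (x₀ i) (e i) (hu i)).trans (le_of_eq ?_)
      rw [hd2, ← mul_pow]
    -- the subfamily
    let g := I.orderEmbOfFin rfl
    have hgI : ∀ i', g i' ∈ I := fun i' => I.orderEmbOfFin_mem rfl i'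
    have hginj : ∀ a b, g a = g b → a = b := fun a b hab => g.injective hab
    have hcntg : ∀ p : Fin N → Prop, (Nat.card {i' // p (g i')} : ℝ) ≤ Nat.card {i // p i} := by
      intro p
      exact_mod_cast card_comp g.injective p
    have hcntI : ∀ x, (Nat.card {i' // x ∈ tube δ (x₀ (g i')) (e (g i'))} : ℝ) =
        cnt (fun i => tube δ (x₀ i) (e i)) I x := by
      intro x
      rw [card_eq_mlt δ (fun i' => x₀ (g i')) (fun i' => e (g i')) x]
      unfold mlt cnt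
      have h1 : I = Finset.univ.map g.toEmbedding := by
        ext i
        simp only [Finset.mem_map, Finset.mem_univ, true_and]
        constructor
        · intro hi
          have : i ∈ Set.range (I.orderEmbOfFin rfl) := by
            rw [Finset.range_orderEmbOfFin]
            exact hi
          exact this
        · rintro ⟨a, rfl⟩
          exact hgI a
      conv_rhs => rw [h1]
      rw [Finset.sum_map]
      rfl
    have hcntU : ∀ x, cnt (fun i => tube δ (x₀ i) (e i)) univ x = mlt δ x₀ e x := fun x => rfl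
    have hN : 0 < N := by
      rcases Nat.eq_zero_or_pos N with h0 | h0
      · subst h0
        simp at hcon
      · exact h0
    have hNr : (0 : ℝ) < N := by exact_mod_cast hN
    -- the volume of `X` from below
    have hV := h δ hδ hδ1 I.card (fun i' => x₀ (g i')) (fun i' => e (g i')) (fun i' => hu _)
      (fun a b hab => hsep _ _ fun hh => hab (hginj _ _ hh)) X hXm (η / 4 * cd) (by positivity)
      (by nlinarith) (by
        intro i'
        have h1 := hI1 (g i') (hgI i')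
        rw [Set.inter_comm] at h1
        refine le_trans ?_ h1
        rw [mul_assoc, ENNReal.ofReal_mul (by positivity)]
        gcongr
        exact hlow _) (by
        intro x hx V hV' ρ hρ hρ1
        rw [hXdef] at hx
        have hρ0 : 0 < ρ := lt_of_lt_of_le hδ hρ
        have h1 := hB x hx.1.1 V hV' ρ hρ hρ1
        have h2 := hcntg (fun i => x ∈ tube δ (x₀ i) (e i) ∧
          Metric.infDist (e i) (V : Set (E d)) ≤ ρ)
        refine h2.trans (h1.trans ?_)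
        rw [hcntI]
        have h3 := hx.2
        rw [hcntU] at h3
        have h4 : mlt δ x₀ e x ≤ 4 / η * cnt (fun i => tube δ (x₀ i) (e i)) I x := by
          have h5 : 4 / η * (η / 4 * mlt δ x₀ e x) ≤
              4 / η * cnt (fun i => tube δ (x₀ i) (e i)) I x :=
            mul_le_mul_of_nonneg_left h3.le (by positivity)
          have h6 : 4 / η * (η / 4 * mlt δ x₀ e x) = mlt δ x₀ e x := by field_simp
          rwa [h6] at h5
        have h5 : 8 / η ≤ δ ^ (-κ) := by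
          rw [Real.rpow_neg hδ.le, div_le_iff₀ hη]
          have h6 : 0 < δ ^ κ := by positivity
          rw [inv_mul_eq_div, le_div_iff₀ h6]
          exact hcase
        have h6 := cnt_nonneg (fun i => tube δ (x₀ i) (e i)) I x
        have hmlt : μ < mlt δ x₀ e x := hx.1.2
        have hm0 : 0 < mlt δ x₀ e x := hμ0.trans hmlt
        have h7 : 1 ≤ ρ ^ c' * mlt δ x₀ e x := by
          have k1 : δ ^ ε ≤ ρ ^ ε := Real.rpow_le_rpow hδ.le hρ hε.le
          have k2 : ρ ^ ε ≤ ρ ^ c' := Real.rpow_le_rpow_of_exponent_ge hρ0 hρ1 hcε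
          have k3 : δ ^ ε * δ ^ (-ε) = 1 := by
            rw [← Real.rpow_add hδ]
            simp
          calc (1 : ℝ) = δ ^ ε * δ ^ (-ε) := k3.symm
            _ ≤ ρ ^ c' * mlt δ x₀ e x := by
                refine mul_le_mul (k1.trans k2) (hμε.trans hmlt.le) (by positivity) (by positivity)
        have h8 : ρ ^ c ≤ ρ ^ c' := Real.rpow_le_rpow_of_exponent_ge hρ0 hρ1 hcc
        calc δ ^ (-κ) * (1 + ρ ^ c * mlt δ x₀ e x) ≤
            δ ^ (-κ) * (ρ ^ c' * mlt δ x₀ e x + ρ ^ c' * mlt δ x₀ e x) := by gcongr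
          _ = δ ^ (-κ) * ρ ^ c' * (2 * mlt δ x₀ e x) := by ring
          _ ≤ δ ^ (-κ) * ρ ^ c' * (2 * (4 / η * cnt (fun i => tube δ (x₀ i) (e i)) I x)) := by
              gcongr
          _ = δ ^ (-κ) * ρ ^ c' * (8 / η * cnt (fun i => tube δ (x₀ i) (e i)) I x) := by ring
          _ ≤ δ ^ (-κ) * ρ ^ c' * (δ ^ (-κ) * cnt (fun i => tube δ (x₀ i) (e i)) I x) := by gcongr
          _ = δ ^ (-κ₀) * ρ ^ c' * cnt (fun i => tube δ (x₀ i) (e i)) I x := by
              rw [← hκκ, neg_add, Real.rpow_add hδ]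
              ring)
    -- the volume of `X` from above
    have hU : ENNReal.ofReal μ * volume X ≤ ENNReal.ofReal (N * (d2 * δ ^ d)) := by
      calc ENNReal.ofReal μ * volume X = ∫⁻ _ in X, ENNReal.ofReal μ := by
            rw [setLIntegral_const]
        _ ≤ ∫⁻ x in X, ENNReal.ofReal (mlt δ x₀ e x) := by
            refine setLIntegral_mono' hXm fun x hx => ENNReal.ofReal_le_ofReal ?_
            rw [hXdef] at hx
            exact (show μ < mlt δ x₀ e x from hx.1.2).le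
        _ = ∑ i, volume (tube δ (x₀ i) (e i) ∩ X) := lintegral_mlt δ x₀ e X
        _ ≤ ∑ _i : Fin N, ENNReal.ofReal (d2 * δ ^ d) :=
            Finset.sum_le_sum fun i _ => (measure_mono Set.inter_subset_left).trans (hupp i)
        _ = _ := by
            rw [Finset.sum_const, Finset.card_univ, Fintype.card_fin, nsmul_eq_mul,
              ← ENNReal.ofReal_natCast, ← ENNReal.ofReal_mul (by positivity)]
    have h1 : μ * (C₀⁻¹ * δ ^ ε * ((η / 4 * cd) ^ P₀ * (I.card * δ ^ d))) ≤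
        N * (d2 * δ ^ d) := by
      have h2 : ENNReal.ofReal (μ * (C₀⁻¹ * δ ^ ε * ((η / 4 * cd) ^ P₀ * (I.card * δ ^ d)))) ≤
          ENNReal.ofReal (N * (d2 * δ ^ d)) := by
        rw [ENNReal.ofReal_mul hμ0.le]
        refine le_trans ?_ hU
        gcongr
      rwa [ENNReal.ofReal_le_ofReal_iff (by positivity)] at h2
    have h2 : η / 2 * (N * cd) ≤ I.card * d2 := by
      have h3 : ENNReal.ofReal (η / 2 * (N * (cd * δ ^ d))) ≤
          ENNReal.ofReal (I.card * (d2 * δ ^ d)) := by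
        calc ENNReal.ofReal (η / 2 * (N * (cd * δ ^ d))) =
            ENNReal.ofReal (η / 2) * ∑ _i : Fin N, ENNReal.ofReal (cd * δ ^ d) := by
              rw [Finset.sum_const, Finset.card_univ, Fintype.card_fin, nsmul_eq_mul,
                ← ENNReal.ofReal_natCast, ← ENNReal.ofReal_mul (by positivity),
                ← ENNReal.ofReal_mul (by positivity)]
          _ ≤ ENNReal.ofReal (η / 2) * ∑ i, volume (tube δ (x₀ i) (e i)) := by
              gcongr with i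
              exact hlow i
          _ ≤ ∑ i ∈ I, volume (tube δ (x₀ i) (e i)) := hI2
          _ ≤ ∑ _i ∈ I, ENNReal.ofReal (d2 * δ ^ d) := Finset.sum_le_sum fun i _ => hupp i
          _ = _ := by
              rw [Finset.sum_const, nsmul_eq_mul, ← ENNReal.ofReal_natCast,
                ← ENNReal.ofReal_mul (by positivity)]
      rw [ENNReal.ofReal_le_ofReal_iff (by positivity)] at h3
      have h4 : η / 2 * (N * cd) * δ ^ d ≤ I.card * d2 * δ ^ d := by linarith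
      exact le_of_mul_le_mul_right h4 hδd
    have h3 : (η / 4 * cd) ^ P₁ ≤ (η / 4 * cd) ^ P₀ :=
      Real.rpow_le_rpow_of_exponent_ge (by positivity) (by nlinarith) hP₀₁
    have h4 : μ * (C₀⁻¹ * δ ^ ε * ((η / 4 * cd) ^ P₁ * I.card)) ≤ N * d2 := by
      have h5 : μ * (C₀⁻¹ * δ ^ ε * ((η / 4 * cd) ^ P₁ * I.card)) * δ ^ d ≤ N * d2 * δ ^ d := by
        calc μ * (C₀⁻¹ * δ ^ ε * ((η / 4 * cd) ^ P₁ * I.card)) * δ ^ d ≤
            μ * (C₀⁻¹ * δ ^ ε * ((η / 4 * cd) ^ P₀ * I.card)) * δ ^ d := by gcongr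
          _ = μ * (C₀⁻¹ * δ ^ ε * ((η / 4 * cd) ^ P₀ * (I.card * δ ^ d))) := by ring
          _ ≤ N * (d2 * δ ^ d) := h1
          _ = N * d2 * δ ^ d := by ring
      exact le_of_mul_le_mul_right h5 hδd
    refine count_real hC₀ hcd0 hη hδ hd20 hNr h2 ?_ h4
    rw [hμ]
    have h5 : η ^ (-(P₁ + 1)) ≤ η ^ (-P) :=
      Real.rpow_le_rpow_of_exponent_ge hη hη1 (by linarith)
    gcongr

/-- **Broad families**: multiplicity, `L ^ q` bounds, shadings. -/
theorem broad_of_bt (hd : 1 ≤ d) {j : ℕ} {c ε : ℝ} (hε : 0 < ε) (h : BT d j (min c ε) ε) :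
    ∃ κ P C : ℝ, 0 < κ ∧ 0 ≤ P ∧ 0 < C ∧ ∀ δ : ℝ, 0 < δ → δ < 1 → ∀ (N : ℕ)
      (x₀ e : Fin N → E d), (∀ i, ‖e i‖ = 1) → (∀ i i', i ≠ i' → δ ≤ ‖e i - e i'‖) →
      ∀ Y : Set (E d), MeasurableSet Y → Brw j δ κ c x₀ e Y →
      (∀ η : ℝ, 0 < η → η ≤ 1 → ∃ G : Set (E d), G ⊆ Y ∧ MeasurableSet G ∧
        ∑ i, volume (tube δ (x₀ i) (e i) ∩ (Y \ G)) ≤
          ENNReal.ofReal η * ∑ i, volume (tube δ (x₀ i) (e i)) ∧
        (∀ x ∈ G, mlt δ x₀ e x ≤ C * η ^ (-P) * δ ^ (-ε)) ∧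
        ∀ q : ℝ, 1 + 1 / (d : ℝ) ≤ q →
          eLpNorm (G.indicator (mlt δ x₀ e)) (ENNReal.ofReal q) volume ≤
            ENNReal.ofReal (C * η ^ (-P) * δ ^ (-ε) *
              (δ ^ ((d : ℝ) / q) * (N : ℝ) ^ (1 - 1 / (q * d))))) ∧
      (∀ X : Set (E d), X ⊆ Y → MeasurableSet X → ∀ lam : ℝ, 0 < lam → lam ≤ 1 →
        ENNReal.ofReal (lam * (N * δ ^ d)) ≤ ∑ i, volume (tube δ (x₀ i) (e i) ∩ X) →
        ENNReal.ofReal (C⁻¹ * δ ^ ε * (lam ^ P * (N * δ ^ d))) ≤ volume X) := by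
  obtain ⟨κ, P, C, hκ, hP, hC, h⟩ := mult_of_bt hd hε h
  have h2d : (1 : ℝ) ≤ 2 ^ d := one_le_pow₀ (by norm_num)
  have hC0 : 0 < C := by linarith
  obtain ⟨d3, hd3⟩ : ∃ d3 : ℝ, d3 = 2 ^ (d + 1) := ⟨_, rfl⟩
  have hd30 : 0 < d3 := by rw [hd3]; positivity
  have hd31 : 1 ≤ d3 := by rw [hd3]; exact one_le_pow₀ (by norm_num)
  obtain ⟨C', hC'⟩ : ∃ C' : ℝ, C' = max (2 ^ d * C) (2 * C * d3 ^ P) := ⟨_, rfl⟩
  have hC'a : 2 ^ d * C ≤ C' := by rw [hC']; exact le_max_left _ _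
  have hC'b : 2 * C * d3 ^ P ≤ C' := by rw [hC']; exact le_max_right _ _
  have hCC : C ≤ C' := (le_mul_of_one_le_left hC0.le h2d).trans hC'a
  have hC'0 : 0 < C' := hC0.trans_le hCC
  refine ⟨κ, P + 1, C', hκ, by linarith, hC'0, ?_⟩
  intro δ hδ hδ1 N x₀ e hu hsep Y hY hB
  have hmm := measurable_mlt δ x₀ e
  have hupp : ∀ i, volume (tube δ (x₀ i) (e i)) ≤ ENNReal.ofReal (2 ^ d * δ ^ d) := by
    intro i
    refine (volume_tube_le δ hδ.le (x₀ i) (e i) (hu i)).trans (le_of_eq ?_)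
    rw [← mul_pow]
  refine ⟨fun η hη hη1 => ?_, fun X hXY hX lam hlam hlam1 hvol => ?_⟩
  · obtain ⟨μ, hμ⟩ : ∃ μ : ℝ, μ = C * η ^ (-P) * δ ^ (-ε) := ⟨_, rfl⟩
    have h3 := h δ hδ hδ1 N x₀ e hu hsep Y hY hB η hη hη1
    rw [← hμ] at h3
    have k0 : η ^ (-P) ≤ η ^ (-(P + 1)) :=
      Real.rpow_le_rpow_of_exponent_ge hη hη1 (by linarith)
    have hμ1 : 1 ≤ μ := by
      rw [hμ]
      have k1 : 1 ≤ η ^ (-P) :=
        Real.one_le_rpow_of_pos_of_le_one_of_nonpos hη hη1 (by linarith)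
      have k2 : 1 ≤ δ ^ (-ε) :=
        Real.one_le_rpow_of_pos_of_le_one_of_nonpos hδ hδ1.le (by linarith)
      exact one_le_mul_of_one_le_of_one_le (one_le_mul_of_one_le_of_one_le hC k1) k2
    have hμ2 : μ ≤ C' * η ^ (-(P + 1)) * δ ^ (-ε) := by
      rw [hμ]
      gcongr
    refine ⟨Y ∩ {x | mlt δ x₀ e x ≤ μ}, Set.inter_subset_left,
      hY.inter (measurableSet_le hmm measurable_const), ?_, ?_, ?_⟩
    · refine le_trans (Finset.sum_le_sum fun i _ => measure_mono ?_) h3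
      rintro x ⟨hx1, hx2, hx3⟩
      refine ⟨hx1, hx2, ?_⟩
      by_contra hcon
      exact hx3 ⟨hx2, (not_lt.1 fun hh => hcon hh : mlt δ x₀ e x ≤ μ)⟩
    · intro x hx
      exact (show mlt δ x₀ e x ≤ μ from hx.2).trans hμ2
    · intro q hq
      refine (lq_bound hd hδ hu hμ1 (fun x hx => hx.2) hq).trans (ENNReal.ofReal_le_ofReal ?_)
      rw [hμ]
      calc 2 ^ d * (C * η ^ (-P) * δ ^ (-ε)) * (δ ^ ((d : ℝ) / q) * (N : ℝ) ^ (1 - 1 / (q * d))) =
          2 ^ d * C * η ^ (-P) * δ ^ (-ε) * (δ ^ ((d : ℝ) / q) * (N : ℝ) ^ (1 - 1 / (q * d))) := by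
            ring
        _ ≤ C' * η ^ (-(P + 1)) * δ ^ (-ε) *
            (δ ^ ((d : ℝ) / q) * (N : ℝ) ^ (1 - 1 / (q * d))) := by
            gcongr
  · obtain ⟨η, hη⟩ : ∃ η : ℝ, η = lam / d3 := ⟨_, rfl⟩
    have hη0 : 0 < η := by rw [hη]; positivity
    have hη1 : η ≤ 1 := by
      rw [hη, div_le_one hd30]
      linarith
    obtain ⟨μ, hμ⟩ : ∃ μ : ℝ, μ = C * η ^ (-P) * δ ^ (-ε) := ⟨_, rfl⟩
    have hμ0 : 0 < μ := by rw [hμ]; positivity
    have h3 := h δ hδ hδ1 N x₀ e hu hsep Y hY hB η hη0 hη1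
    rw [← hμ] at h3
    have hNδ : 0 ≤ (N : ℝ) * δ ^ d := by positivity
    have h4 : ∑ i, volume (tube δ (x₀ i) (e i)) ≤ ENNReal.ofReal (2 ^ d * (N * δ ^ d)) := by
      calc ∑ i, volume (tube δ (x₀ i) (e i)) ≤ ∑ _i : Fin N, ENNReal.ofReal (2 ^ d * δ ^ d) :=
            Finset.sum_le_sum fun i _ => hupp i
        _ = _ := by
            rw [Finset.sum_const, Finset.card_univ, Fintype.card_fin, nsmul_eq_mul,
              ← ENNReal.ofReal_natCast, ← ENNReal.ofReal_mul (by positivity)]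
            congr 1
            ring
    have h5 : ENNReal.ofReal η * ∑ i, volume (tube δ (x₀ i) (e i)) ≤
        ENNReal.ofReal (lam / 2 * (N * δ ^ d)) := by
      calc ENNReal.ofReal η * ∑ i, volume (tube δ (x₀ i) (e i)) ≤
          ENNReal.ofReal η * ENNReal.ofReal (2 ^ d * (N * δ ^ d)) := by gcongr
        _ = _ := by
            rw [← ENNReal.ofReal_mul hη0.le]
            congr 1
            rw [hη, hd3, pow_succ]
            field_simp
    have hXm : MeasurableSet {x | mlt δ x₀ e x ≤ μ} := measurableSet_le hmm measurable_const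
    have h6 : ∑ i, volume (tube δ (x₀ i) (e i) ∩ X) ≤
        ∑ i, volume (tube δ (x₀ i) (e i) ∩ (Y ∩ {x | μ < mlt δ x₀ e x})) +
          ENNReal.ofReal μ * volume X := by
      have k1 : ∑ i, volume (tube δ (x₀ i) (e i) ∩ (X ∩ {x | mlt δ x₀ e x ≤ μ})) ≤
          ENNReal.ofReal μ * volume X := by
        rw [← lintegral_mlt]
        calc ∫⁻ x in X ∩ {x | mlt δ x₀ e x ≤ μ}, ENNReal.ofReal (mlt δ x₀ e x) ≤
            ∫⁻ _ in X ∩ {x | mlt δ x₀ e x ≤ μ}, ENNReal.ofReal μ :=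
              setLIntegral_mono' (hX.inter hXm) fun x hx => ENNReal.ofReal_le_ofReal hx.2
          _ = ENNReal.ofReal μ * volume (X ∩ {x | mlt δ x₀ e x ≤ μ}) := by
              rw [setLIntegral_const]
          _ ≤ _ := by
              gcongr
              exact Set.inter_subset_left
      refine le_trans ?_ (add_le_add le_rfl k1)
      rw [← Finset.sum_add_distrib]
      refine Finset.sum_le_sum fun i _ => ?_
      refine (measure_mono ?_).trans (measure_union_le _ _)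
      rintro x ⟨hx1, hx2⟩
      by_cases hx3 : mlt δ x₀ e x ≤ μ
      · exact Or.inr ⟨hx1, hx2, hx3⟩
      · exact Or.inl ⟨hx1, hXY hx2, not_le.1 hx3⟩
    have h7 : ENNReal.ofReal (lam * (N * δ ^ d)) ≤
        ENNReal.ofReal (lam / 2 * (N * δ ^ d)) + ENNReal.ofReal μ * volume X :=
      hvol.trans (h6.trans (add_le_add (h3.trans h5) le_rfl))
    have h8 : ENNReal.ofReal (lam / 2 * (N * δ ^ d)) ≤ ENNReal.ofReal μ * volume X := by
      have k1 : ENNReal.ofReal (lam * (N * δ ^ d)) = ENNReal.ofReal (lam / 2 * (N * δ ^ d)) +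
          ENNReal.ofReal (lam / 2 * (N * δ ^ d)) := by
        rw [← ENNReal.ofReal_add (by positivity) (by positivity)]
        congr 1
        ring
      rw [k1] at h7
      exact (ENNReal.add_le_add_iff_left ENNReal.ofReal_ne_top).1 h7
    have h9 : ENNReal.ofReal (μ * (C'⁻¹ * δ ^ ε * (lam ^ (P + 1) * (N * δ ^ d)))) ≤
        ENNReal.ofReal μ * volume X := by
      refine (ENNReal.ofReal_le_ofReal ?_).trans h8
      have k1 : δ ^ (-ε) * δ ^ ε = 1 := by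
        rw [← Real.rpow_add hδ]
        simp
      have k2 : η ^ (-P) * lam ^ (P + 1) = d3 ^ P * lam := by
        rw [hη, Real.rpow_add_one hlam.ne', Real.div_rpow hlam.le hd30.le, Real.rpow_neg hlam.le,
          Real.rpow_neg hd30.le]
        have : lam ^ P ≠ 0 := by positivity
        have : d3 ^ P ≠ 0 := by positivity
        field_simp
      calc μ * (C'⁻¹ * δ ^ ε * (lam ^ (P + 1) * (N * δ ^ d))) =
          C * C'⁻¹ * (δ ^ (-ε) * δ ^ ε) * (η ^ (-P) * lam ^ (P + 1)) * (N * δ ^ d) := by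
            rw [hμ]
            ring
        _ = (C * d3 ^ P * C'⁻¹) * lam * (N * δ ^ d) := by
            rw [k1, k2]
            ring
        _ ≤ 1 / 2 * lam * (N * δ ^ d) := by
            have k3 : C * d3 ^ P * C'⁻¹ ≤ 1 / 2 := by
              rw [← div_eq_mul_inv, div_le_iff₀ hC'0]
              linarith
            gcongr
        _ = _ := by ring
    rw [ENNReal.ofReal_mul hμ0.le] at h9
    exact (ENNReal.mul_le_mul_iff_right (ENNReal.ofReal_pos.2 hμ0).ne' ENNReal.ofReal_ne_top).1 h9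

end Pool.BR
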