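import Pool.Agent.H52.BR.Fin
import Pool.Agent.H52.BR.Mult
import Pool.Agent.H94.BR.Avg

/-!
# Broad families of tubes in all dimensions: the final form
-/

set_option autoImplicit false

namespace Pool.BR

open Finset Real MeasureTheory
open scoped RealInnerProductSpace ENNReal
open Pool.Agent.H53.Kak (E tube)
open Pool.Agent.H94.BR (inc mem_inc card_inc measurableSet_inc)
open Pool.STK (mlt)

theorem bt_thm (k : ℕ) {c : ℝ} (hc : 0 < c) {ε : ℝ} (hε : 0 < ε) : BT (k + 2) (k + 1) c ε :=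
  broad_tubes_thm k hc hε

/-- The point `x` is broad. -/
def Bpt {d N : ℕ} (j : ℕ) (δ κ c : ℝ) (x₀ e : Fin N → E d) (x : E d) : Prop :=
  ∀ V : Submodule ℝ (E d), Module.finrank ℝ V ≤ j → ∀ ρ : ℝ, δ ≤ ρ → ρ ≤ 1 →
    (Nat.card {i // x ∈ tube δ (x₀ i) (e i) ∧ Metric.infDist (e i) (V : Set (E d)) ≤ ρ} : ℝ) ≤
      δ ^ (-κ) * (1 + ρ ^ c * mlt δ x₀ e x)

/-- The set of the broad points is measurable. -/
theorem measurableSet_bpt {d N : ℕ} (j : ℕ) (δ κ c : ℝ) (x₀ e : Fin N → E d) :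
    MeasurableSet {x | Bpt j δ κ c x₀ e x} := by
  obtain ⟨Q, hQ⟩ : ∃ Q : Finset (Fin N) → Prop, ∀ S, Q S ↔
      ∀ V : Submodule ℝ (E d), Module.finrank ℝ V ≤ j → ∀ ρ : ℝ, δ ≤ ρ → ρ ≤ 1 →
        (Nat.card {i // i ∈ S ∧ Metric.infDist (e i) (V : Set (E d)) ≤ ρ} : ℝ) ≤
          δ ^ (-κ) * (1 + ρ ^ c * (S.card : ℝ)) := ⟨_, fun _ => Iff.rfl⟩
  have h : {x | Bpt j δ κ c x₀ e x} = {x | Q (inc δ x₀ e x)} := by
    ext x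
    simp only [Set.mem_ofPred_eq, Bpt, hQ, mem_inc, ← card_inc, card_eq_mlt]
  rw [h]
  exact measurableSet_inc δ x₀ e Q

/-- **Broad families of tubes** in dimension `n = k + 3`. -/
theorem broad_final (k : ℕ) {s ε : ℝ} (hs : 0 < s) (hε : 0 < ε) :
    ∃ κ P C : ℝ, 0 < κ ∧ 0 ≤ P ∧ 0 < C ∧ ∀ δ : ℝ, 0 < δ → δ < 1 → ∀ (N : ℕ)
      (x₀ e : Fin N → E (k + 2)), (∀ i, ‖e i‖ = 1) → (∀ i i', i ≠ i' → δ ≤ ‖e i - e i'‖) →
      MeasurableSet {x | Bpt (k + 1) δ κ s x₀ e x} ∧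
      (∀ η : ℝ, 0 < η → η ≤ 1 → ∃ G : Set (E (k + 2)), G ⊆ {x | Bpt (k + 1) δ κ s x₀ e x} ∧
        MeasurableSet G ∧
        ∑ i, volume (tube δ (x₀ i) (e i) ∩ ({x | Bpt (k + 1) δ κ s x₀ e x} \ G)) ≤
          ENNReal.ofReal η * ∑ i, volume (tube δ (x₀ i) (e i)) ∧
        (∀ x ∈ G, mlt δ x₀ e x ≤ C * η ^ (-P) * δ ^ (-ε)) ∧
        ∀ q : ℝ, 1 + 1 / ((k + 2 : ℕ) : ℝ) ≤ q →
          eLpNorm (G.indicator (mlt δ x₀ e)) (ENNReal.ofReal q) volume ≤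
            ENNReal.ofReal (C * η ^ (-P) * δ ^ (-ε) *
              (δ ^ (((k + 2 : ℕ) : ℝ) / q) * (N : ℝ) ^ (1 - 1 / (q * ((k + 2 : ℕ) : ℝ)))))) ∧
      (∀ X : Set (E (k + 2)), X ⊆ {x | Bpt (k + 1) δ κ s x₀ e x} → MeasurableSet X →
        ∀ lam : ℝ, 0 < lam → lam ≤ 1 →
        ENNReal.ofReal (lam * (N * δ ^ (k + 2))) ≤ ∑ i, volume (tube δ (x₀ i) (e i) ∩ X) →
        ENNReal.ofReal (C⁻¹ * δ ^ ε * (lam ^ P * (N * δ ^ (k + 2)))) ≤ volume X) := by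
  obtain ⟨κ, P, C, hκ, hP, hC, h⟩ :=
    broad_of_bt (d := k + 2) (by omega) hε (bt_thm k (lt_min hs hε) hε)
  refine ⟨κ, P, C, hκ, hP, hC, ?_⟩
  intro δ hδ hδ1 N x₀ e hu hsep
  have hm := measurableSet_bpt (k + 1) δ κ s x₀ e
  exact ⟨hm, h δ hδ hδ1 N x₀ e hu hsep _ hm fun x hx => hx⟩

end Pool.BR
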