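import Pool.Agent.H52.BR.TFam

/-!
# Entropies of the family of a set of tubes
-/

set_option autoImplicit false

namespace Pool.BR

open Finset Real MeasureTheory
open scoped RealInnerProductSpace ENNReal
open Pool.Agent.H49.Ent Pool.Agent.H32.Dense Pool.STK Pool.KA Pool.K2S Pool.PB
open Pool.Agent.H53.Kak (E tube measurableSet_tube volume_tube_le norm_le_of_coord card_Icc_floor)
open Pool.Agent.H53.Dns (slp psl Mx slab near_psl height_near vol_slab Cv Cv_pos
  measurableSet_slab vv Cw card_vv one_le_Cw)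

variable {d N : ℕ}

section Gen

variable {Ω S T : Type} [Fintype Ω]

/-- Lower bound for a conditional entropy. -/
lemma log_le_CH {p : Ω → ℝ} (hp : IsLaw p) (X : Ω → S) (Z : Ω → T) {b : ℝ} (hb : 0 < b)
    (h : ∀ ω, 0 < p ω → b * law p (fun w => (X w, Z w)) (X ω, Z ω) ≤ law p Z (Z ω)) :
    Real.log b ≤ CH p X Z := by
  rw [CH_eq_neg_sum hp.nonneg]
  have hb1 : Ex p (fun _ => Real.log b) = Real.log b := Ex_const hp.sum_one _
  rw [← hb1]
  refine Ex_mono hp.nonneg fun w hw => ?_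
  have h3 := law_pos hp.nonneg (fun w' => (X w', Z w')) hw
  rw [← Real.log_inv, inv_div]
  refine Real.log_le_log hb ?_
  rw [le_div_iff₀ h3]
  exact h w hw

/-- Lower bound for an entropy. -/
lemma log_le_H {p : Ω → ℝ} (hp : IsLaw p) (X : Ω → S) {b : ℝ}
    (h : ∀ ω, 0 < p ω → law p X (X ω) ≤ b) : -Real.log b ≤ H p X := by
  unfold H
  rw [neg_le_neg_iff]
  have e1 : Real.log b = ∑ ω, p ω * Real.log b := by rw [← Finset.sum_mul, hp.sum_one, one_mul]
  rw [e1]
  refine Finset.sum_le_sum fun ω _ => ?_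
  rcases (hp.nonneg ω).eq_or_lt with h0 | h0
  · rw [← h0, zero_mul, zero_mul]
  · exact mul_le_mul_of_nonneg_left (Real.log_le_log (law_pos hp.nonneg X h0) (h ω h0)) h0.le

end Gen

namespace TD

variable {D : TD d N} (h : 0 < D.tot)

lemma law_fam {S : Type} [DecidableEq S] (f : Fin N × D.Q → S) (s : S) : law (D.fam h).p f s =
    (∑ i, ∑ q : D.Q, if f (i, q) = s then D.w i q.1 else 0) / D.tot := by
  classical
  have e1 : law (D.fam h).p f s =
      ∑ a : Fin N × D.Q, (if f a = s then D.w a.1 a.2.1 / D.tot else 0) := by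
    unfold law
    exact Finset.sum_congr rfl fun a _ => by congr
  rw [e1, Fintype.sum_prod_type, Finset.sum_div]
  refine Finset.sum_congr rfl fun i _ => ?_
  rw [Finset.sum_div]
  refine Finset.sum_congr rfl fun q _ => ?_
  split_ifs
  · rfl
  · rw [zero_div]

/-- The tube of a sample. -/
def ti (D : TD d N) (h : 0 < D.tot) (a : (D.fam h).Ω) : Fin N := Prod.fst (α := Fin N) (β := D.Q) a

lemma pos_of_p {a : Fin N × D.Q} (ha : 0 < (D.fam h).p a) : 0 < D.w a.1 a.2.1 := by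
  have h1 : 0 < D.w a.1 a.2.1 / D.tot := ha
  exact (div_pos_iff_of_pos_right h).1 h1

/-- The mass of a tube. -/
noncomputable def ms (D : TD d N) (i : Fin N) : ℝ := ∑ q : D.Q, D.w i q.1

lemma ms_eq (D : TD d N) (i : Fin N) : D.ms i = ∑ q ∈ D.Q, D.w i q := by
  unfold ms
  exact Finset.sum_coe_sort D.Q fun q => D.w i q

lemma ms_le (D : TD d N) (i : Fin N) : D.ms i ≤ (2 * D.δ) ^ d := by
  rw [ms_eq]
  have := D.hδ
  exact D.sum_w_le i D.Q (by positivity) (fun q _ => Set.inter_subset_right) (D.vol_T i)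

lemma ms_nonneg (D : TD d N) (i : Fin N) : 0 ≤ D.ms i :=
  Finset.sum_nonneg fun q _ => D.w_nonneg i q.1

/-- The window. -/
def sw (D : TD d N) (a : Fin N × D.Q) : ℤ := a.2.1 (D.kk a.1) / 2 ^ D.J

/-- The window of a sample. -/
def wi (D : TD d N) (h : 0 < D.tot) (a : (D.fam h).Ω) : ℤ := D.sw a

/-- The law of the tube. -/
lemma law_fst (a : Fin N × D.Q) : law (D.fam h).p (D.ti h) (D.ti h a) =
    D.ms a.1 / D.tot := by
  have e1 := law_fam h (fun b : Fin N × D.Q => b.1) a.1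
  refine Eq.trans e1 ?_
  congr 1
  have h1 : ∀ i : Fin N, (∑ q : D.Q, if ((i, q) : Fin N × D.Q).1 = a.1 then D.w i q.1 else 0) =
      if i = a.1 then D.ms i else 0 := by
    intro i
    by_cases hi : i = a.1
    · simp [hi, ms]
    · simp [hi]
  rw [Finset.sum_congr rfl fun i _ => h1 i]
  simp

/-- The law of the tube, the window and the time. -/
lemma law_time (a : Fin N × D.Q) :
    law (D.fam h).p (fun b => (((D.fam h).T b, D.wi h b), D.ti h b))
      (((D.fam h).T a, D.wi h a), D.ti h a) ≤ Cv d * D.δ ^ (d + 1) / D.tot := by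
  have e1 := law_fam h (fun b : Fin N × D.Q => (((D.fam h).T b, D.sw b), b.1))
    (((D.fam h).T a, D.sw a), a.1)
  refine (le_of_eq e1).trans ?_
  refine div_le_div_of_nonneg_right ?_ h.le
  have hδ := D.hδ
  have hCv := Cv_pos d
  obtain ⟨z, hz⟩ : ∃ z : ℤ, z = a.2.1 (D.kk a.1) := ⟨_, rfl⟩
  have h1 : ∀ i : Fin N, (∑ q : D.Q, if (((D.fam h).T (i, q), D.sw (i, q)), i) =
      (((D.fam h).T a, D.sw a), a.1) then D.w i q.1 else 0) ≤
      if i = a.1 then ∑ q ∈ D.Q.filter (fun q => q (D.kk a.1) = z), D.w i q else 0 := by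
    intro i
    by_cases hi : i = a.1
    · rw [if_pos hi, Finset.sum_filter, ← Finset.sum_coe_sort D.Q fun q =>
        if q (D.kk a.1) = z then D.w i q else 0]
      refine Finset.sum_le_sum fun q _ => ?_
      split_ifs with h2 h3
      · exact le_rfl
      · exfalso
        apply h3
        simp only [Prod.mk.injEq] at h2
        obtain ⟨⟨h4, h5⟩, -⟩ := h2
        have h6 := fam_T h (i, q)
        have h7 := fam_T h a
        rw [h4, h7] at h6
        unfold sw at h5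
        simp only at h5 h6
        rw [hi] at h5 h6
        have h8 := Int.mul_ediv_add_emod (q.1 (D.kk a.1)) (2 ^ D.J)
        have h9 := Int.mul_ediv_add_emod (a.2.1 (D.kk a.1)) (2 ^ D.J)
        rw [h5, ← h6, h9] at h8
        rw [hz, h8]
      · exact D.w_nonneg _ _
      · exact le_rfl
    · rw [if_neg hi]
      refine le_of_eq (Finset.sum_eq_zero fun q _ => ?_)
      rw [if_neg]
      intro h2
      exact hi (Prod.ext_iff.1 h2).2
  refine (Finset.sum_le_sum fun i _ => h1 i).trans ?_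
  rw [Finset.sum_ite_eq' univ a.1, if_pos (Finset.mem_univ _)]
  refine D.sum_w_le a.1 _ (by positivity) (Y := tube D.δ (D.x₀ a.1) (D.e a.1) ∩
    slab (D.kk a.1) D.J z) ?_ (vol_slab D.hδ (D.mx a.1) (D.unit a.1) D.hJ2 z)
  intro q hq x hx
  rw [Finset.mem_filter] at hq
  refine ⟨hx.2, ?_⟩
  have h2 : cub D.J x = q := hx.1.2
  change ⌊x (D.kk a.1) * 2 ^ D.J⌋ = z
  rw [← hq.2, ← h2]
  rfl

/-- The windows of a tube. -/
lemma sw_diff {a b : Fin N × D.Q} (ha : 0 < (D.fam h).p a) (hb : 0 < (D.fam h).p b)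
    (hab : D.ti h a = D.ti h b) : |((D.wi h a - D.wi h b : ℤ) : ℝ)| ≤ 5 := by
  have hab : a.1 = b.1 := hab
  change |((D.sw a - D.sw b : ℤ) : ℝ)| ≤ 5
  have key : ∀ a : Fin N × D.Q, 0 < (D.fam h).p a →
      |(D.sw a : ℝ) - (D.x₀ a.1 (D.kk a.1) - 1)| ≤ 5 / 2 := by
    intro a ha
    obtain ⟨x, hx, hq⟩ := D.exists_of_pos (pos_of_p h ha)
    have h1 := abs_le.1 (height_near (k := D.kk a.1) D.hδ1 (D.unit a.1) hx)
    obtain ⟨q, hqd⟩ : ∃ q : ℤ, q = a.2.1 (D.kk a.1) := ⟨_, rfl⟩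
    have h2 : q = ⌊x (D.kk a.1) * 2 ^ D.J⌋ := by rw [hqd, ← hq]; rfl
    have h3 := Int.floor_le (x (D.kk a.1) * 2 ^ D.J)
    have h4 := Int.lt_floor_add_one (x (D.kk a.1) * 2 ^ D.J)
    rw [← h2] at h3 h4
    have h5 : (1 : ℝ) ≤ 2 ^ D.J := one_le_pow₀ (by norm_num)
    have h6 : (0 : ℤ) < 2 ^ D.J := by positivity
    have h7 := Int.mul_ediv_add_emod q (2 ^ D.J)
    have h8 := Int.emod_nonneg q h6.ne'
    have h9 := Int.emod_lt_of_pos q h6
    have e : D.sw a = q / 2 ^ D.J := by rw [hqd]; rfl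
    rw [← e] at h7
    have k7 : (2 : ℝ) ^ D.J * (D.sw a : ℝ) + ((q % 2 ^ D.J : ℤ) : ℝ) = q := by exact_mod_cast h7
    have k8 : (0 : ℝ) ≤ ((q % 2 ^ D.J : ℤ) : ℝ) := by exact_mod_cast h8
    have k9 : ((q % 2 ^ D.J : ℤ) : ℝ) < 2 ^ D.J := by exact_mod_cast h9
    have a1 : (D.sw a : ℝ) ≤ x (D.kk a.1) := by
      have : 2 ^ D.J * (D.sw a : ℝ) ≤ 2 ^ D.J * x (D.kk a.1) := by nlinarith
      exact le_of_mul_le_mul_left this (by positivity)
    have a2 : x (D.kk a.1) ≤ D.sw a + 2 := by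
      have : 2 ^ D.J * x (D.kk a.1) ≤ 2 ^ D.J * ((D.sw a : ℝ) + 2) := by nlinarith
      exact le_of_mul_le_mul_left this (by positivity)
    rw [abs_le]
    constructor <;> linarith [h1.1, h1.2]
  have h1 := abs_le.1 (key a ha)
  have h2 := abs_le.1 (key b hb)
  rw [hab] at h1
  push_cast
  rw [abs_le]
  constructor <;> linarith [h1.1, h1.2, h2.1, h2.2]

/-- Given the tube and the window, the time has large entropy. -/
theorem ch_time {lam : ℝ} (hlam : 0 < lam) (hm : ∀ i, lam / 2 * D.δ ^ d ≤ D.ms i) :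
    Real.log (lam / (2 * Cv d * D.δ)) - Real.log 11 ≤
      CH (D.fam h).p (D.fam h).T (fun ω => ((D.fam h).l ω, (D.fam h).Z ω)) := by
  have hp := (D.fam h).isLaw
  have hδ := D.hδ
  have hCv := Cv_pos d
  have h1 : CH (D.fam h).p (D.fam h).T (fun a => (D.wi h a, D.ti h a)) ≤
      CH (D.fam h).p (D.fam h).T (fun ω => ((D.fam h).l ω, (D.fam h).Z ω)) := by
    refine CH_mono_cond hp.nonneg ?_
    intro (a : Fin N × D.Q) (b : Fin N × D.Q) _ _ hab
    obtain ⟨h2, h3⟩ := Prod.ext_iff.1 hab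
    have h2 : D.sw a = D.sw b := h2
    have h3 : a.1 = b.1 := h3
    have e1 : (D.fam h).d a = (D.fam h).d b := by
      change slp (D.kk a.1) (D.e a.1) = slp (D.kk b.1) (D.e b.1)
      rw [h3]
    have e2 : (D.fam h).u a = (D.fam h).u b := by
      change psl (D.kk a.1) (D.x₀ a.1) (D.e a.1) ((D.sw a : ℤ) : ℝ) =
        psl (D.kk b.1) (D.x₀ b.1) (D.e b.1) ((D.sw b : ℤ) : ℝ)
      rw [h2, h3]
    have e3 : (D.fam h).Z a = (D.fam h).Z b := by
      change ((D.kk a.1, D.sg a.1), D.sw a) = ((D.kk b.1, D.sg b.1), D.sw b)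
      rw [h2, h3]
    exact Prod.ext (Prod.ext e2 e1) e3
  have h2 := CH_chain hp.nonneg (D.fam h).T (D.wi h) (D.ti h)
  have h3 : CH (D.fam h).p (D.wi h) (D.ti h) ≤ Real.log 11 := by
    refine (CH_le_int hp.nonneg hp.sum_one (D.wi h) (D.ti h) (fun _ => 5)
      fun a b ha hb hab => sw_diff h ha hb hab).trans (le_of_eq ?_)
    rw [Ex_const hp.sum_one]
    norm_num
  have h4 : Real.log (lam / (2 * Cv d * D.δ)) ≤
      CH (D.fam h).p (fun a => ((D.fam h).T a, D.wi h a)) (D.ti h) := by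
    refine log_le_CH hp _ _ (by positivity) fun (a : Fin N × D.Q) _ => ?_
    refine (mul_le_mul_of_nonneg_left (law_time h a) (by positivity)).trans
      (le_trans ?_ (le_of_eq (law_fst h a).symm))
    rw [← mul_div_assoc]
    refine div_le_div_of_nonneg_right (le_trans (le_of_eq ?_) (hm a.1)) h.le
    field_simp
    rw [pow_succ]
    ring
  linarith

/-- The entropy of the direction and the chart. -/
theorem h_dir {lam : ℝ} (hlam : 0 < lam) (hm : ∀ i, lam / 2 * D.δ ^ d ≤ D.ms i)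
    (hsep : ∀ i i', i ≠ i' → D.δ ≤ ‖D.e i - D.e i'‖) :
    -Real.log (Cw d * 2 ^ (d + 1) / (lam * N)) ≤
      H (D.fam h).p (fun ω => ((D.fam h).D D.J ω, (D.fam h).Z ω)) := by
  have hp := (D.fam h).isLaw
  have hδ := D.hδ
  have hCw := one_le_Cw d
  have hne : Nonempty (Fin N) := by
    by_contra hcon
    rw [not_nonempty_iff] at hcon
    have : D.tot = 0 := by
      unfold tot
      exact Finset.sum_of_isEmpty _
    rw [this] at h
    exact lt_irrefl _ h
  have hN : (0 : ℝ) < N := by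
    have : 0 < N := Fin.pos hne.some
    exact_mod_cast this
  obtain ⟨G, hG⟩ : ∃ G : (D.fam h).Ω → (Fin d → ℤ) × (Fin (d + 1) × Bool),
    G = fun a : Fin N × D.Q => (vv (D.kk a.1) D.J (D.e a.1), (D.kk a.1, D.sg a.1)) := ⟨_, rfl⟩
  have h1 : H (D.fam h).p G ≤ H (D.fam h).p (fun ω => ((D.fam h).D D.J ω, (D.fam h).Z ω)) := by
    refine H_mono hp.nonneg ?_
    intro (a : Fin N × D.Q) (b : Fin N × D.Q) _ _ hab
    obtain ⟨h2, h3⟩ := Prod.ext_iff.1 hab
    have h2' : vv (D.kk a.1) D.J (D.e a.1) = vv (D.kk b.1) D.J (D.e b.1) := h2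
    have h3' : ((D.kk a.1, D.sg a.1), D.sw a) = ((D.kk b.1, D.sg b.1), D.sw b) := h3
    rw [hG]
    exact Prod.ext h2' (Prod.ext_iff.1 h3').1
  refine le_trans ?_ h1
  refine log_le_H hp G fun (a : Fin N × D.Q) ha => ?_
  -- the tubes with the same label
  obtain ⟨L, hL⟩ : ∃ L : Finset (Fin N), L = univ.filter fun i => (vv (D.kk i) D.J (D.e i),
    (D.kk i, D.sg i)) = G a := ⟨_, rfl⟩
  have hkL : ∀ i ∈ L, D.kk i = D.kk a.1 ∧ D.sg i = D.sg a.1 ∧
      vv (D.kk i) D.J (D.e i) = vv (D.kk a.1) D.J (D.e a.1) := by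
    intro i hi
    rw [hL, hG, Finset.mem_filter] at hi
    have := hi.2
    simp only [Prod.mk.injEq] at this
    exact ⟨this.2.1, this.2.2, this.1⟩
  have hcard : (L.card : ℝ) ≤ Cw d := by
    have h2 := card_vv D.hδ (D.kk a.1) L D.e ⟨fun i _ => D.unit i, fun i _ i' _ hii =>
      hsep i i' hii⟩ (fun i hi => by rw [← (hkL i hi).1]; exact D.mx i) (m := D.J) (b := 0)
      (by
        by_cases hs : D.sg a.1 = true
        · left
          intro i hi
          obtain ⟨k1, k2, -⟩ := hkL i hi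
          rw [hs] at k2
          unfold sg at k2
          rw [decide_eq_true_eq, k1] at k2
          exact k2
        · right
          intro i hi
          obtain ⟨k1, k2, -⟩ := hkL i hi
          have k3 : D.sg i ≠ true := by rw [k2]; exact hs
          unfold sg at k3
          rw [Ne, decide_eq_true_eq, not_lt] at k3
          rw [← k1]
          exact lt_of_le_of_ne k3 ((D.mx i).ne (D.unit i))) (Nat.zero_le _) D.hJ2
    rw [Nat.sub_zero, pow_zero, one_pow, mul_one] at h2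
    have h3 : (L.image fun i => vv (D.kk a.1) D.J (D.e i)).card ≤ 1 := by
      rw [Finset.card_le_one]
      intro x hx y hy
      obtain ⟨i, hi, rfl⟩ := Finset.mem_image.1 hx
      obtain ⟨i', hi', rfl⟩ := Finset.mem_image.1 hy
      have e1 := (hkL i hi).2.2
      have e2 := (hkL i' hi').2.2
      rw [(hkL i hi).1] at e1
      rw [(hkL i' hi').1] at e2
      rw [e1, e2]
    have h4 : ((L.image fun i => vv (D.kk a.1) D.J (D.e i)).card : ℝ) ≤ 1 := by exact_mod_cast h3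
    refine h2.trans ?_
    have h5 : Pool.Agent.H53.Kak.CG d * (5 * ((d : ℝ) + 1)) ^ d = Cw d := rfl
    rw [h5]
    calc Cw d * _ ≤ Cw d * 1 := mul_le_mul_of_nonneg_left h4 (by linarith)
      _ = Cw d := mul_one _
  have htot : N * (lam / 2 * D.δ ^ d) ≤ D.tot := by
    have : ∑ _i : Fin N, lam / 2 * D.δ ^ d ≤ ∑ i, D.ms i := Finset.sum_le_sum fun i _ => hm i
    rw [Finset.sum_const, Finset.card_univ, Fintype.card_fin, nsmul_eq_mul] at this
    exact this
  rw [law_fam h G]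
  have h2 : ∀ i : Fin N, (∑ q : D.Q, if G (i, q) = G a then D.w i q.1 else 0) =
      if i ∈ L then D.ms i else 0 := by
    intro i
    have e1 : ∀ q : D.Q, (G (i, q) = G a ↔ i ∈ L) := by
      intro q
      rw [hL, Finset.mem_filter, hG]
      simp
    by_cases hi : i ∈ L
    · rw [if_pos hi]
      unfold ms
      exact Finset.sum_congr rfl fun q _ => by rw [if_pos ((e1 q).2 hi)]
    · rw [if_neg hi]
      exact Finset.sum_eq_zero fun q _ => by rw [if_neg fun hh => hi ((e1 q).1 hh)]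
  rw [Finset.sum_congr rfl fun i _ => h2 i, Finset.sum_ite_mem, Finset.univ_inter]
  have h3 : ∑ i ∈ L, D.ms i ≤ Cw d * (2 * D.δ) ^ d := by
    calc ∑ i ∈ L, D.ms i ≤ ∑ _i ∈ L, (2 * D.δ) ^ d := Finset.sum_le_sum fun i _ => D.ms_le i
      _ = L.card * (2 * D.δ) ^ d := by rw [Finset.sum_const, nsmul_eq_mul]
      _ ≤ _ := by gcongr
  rw [div_le_div_iff₀ h (by positivity)]
  calc (∑ i ∈ L, D.ms i) * (lam * N) ≤ (Cw d * (2 * D.δ) ^ d) * (lam * N) := by gcongr
    _ = Cw d * 2 ^ (d + 1) * (N * (lam / 2 * D.δ ^ d)) := by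
        rw [mul_pow, pow_succ]
        ring
    _ ≤ _ := by gcongr

/-- Upper bound for the entropy of the positions. -/
theorem h_pos : H (D.fam h).p (fun ω => ((D.fam h).X D.J ω, (D.fam h).W ω)) ≤
    Real.log (2 * (d + 1) * D.Q.card) + d * Real.log 17 := by
  classical
  have hp := (D.fam h).isLaw
  obtain ⟨G, hG⟩ : ∃ G : (D.fam h).Ω → (Fin (d + 1) → ℤ) × (Fin (d + 1) × Bool),
    G = fun a : Fin N × D.Q => (a.2.1, (D.kk a.1, D.sg a.1)) := ⟨_, rfl⟩
  have h1 : H (D.fam h).p (fun ω => ((D.fam h).X D.J ω, (D.fam h).W ω)) ≤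
      H (D.fam h).p (fun a => ((D.fam h).X D.J a, G a)) := by
    refine H_mono hp.nonneg ?_
    intro (a : Fin N × D.Q) (b : Fin N × D.Q) _ _ hab
    obtain ⟨h2, h3⟩ := Prod.ext_iff.1 hab
    rw [hG] at h3
    simp only [Prod.mk.injEq] at h3
    obtain ⟨h4, h5, h6⟩ := h3
    refine Prod.ext h2 (Prod.ext ?_ ?_)
    · change (a.2.1 (D.kk a.1) % 2 ^ D.J).toNat = (b.2.1 (D.kk b.1) % 2 ^ D.J).toNat
      rw [h4, h5]
    · change ((D.kk a.1, D.sg a.1), a.2.1 (D.kk a.1) / 2 ^ D.J) =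
        ((D.kk b.1, D.sg b.1), b.2.1 (D.kk b.1) / 2 ^ D.J)
      rw [h4, h5, h6]
  have h2 : H (D.fam h).p (fun a => ((D.fam h).X D.J a, G a)) =
      H (D.fam h).p G + CH (D.fam h).p ((D.fam h).X D.J) G := (add_sub_cancel _ _).symm
  have h3 : H (D.fam h).p G ≤ Real.log (2 * (d + 1) * D.Q.card) := by
    have h4 := H_le_log_card hp.nonneg hp.sum_one G (D.Q ×ˢ univ)
      (fun (a : Fin N × D.Q) _ => by
        rw [hG, Finset.mem_product]
        exact ⟨a.2.2, Finset.mem_univ _⟩)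
    refine h4.trans (le_of_eq ?_)
    rw [Finset.card_product]
    congr 1
    simp
    ring
  have h4 : CH (D.fam h).p ((D.fam h).X D.J) G ≤ d * Real.log 17 := by
    refine (CH_le_vec hp.nonneg hp.sum_one ((D.fam h).X D.J) G (fun _ => 8)
      fun (a : Fin N × D.Q) (b : Fin N × D.Q) ha hb hab l => ?_).trans (le_of_eq ?_)
    · rw [hG] at hab
      simp only [Prod.mk.injEq] at hab
      obtain ⟨h4, h5, -⟩ := hab
      obtain ⟨x, hx, hxq⟩ := D.exists_of_pos (pos_of_p h ha)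
      obtain ⟨y, hy, hyq⟩ := D.exists_of_pos (pos_of_p h hb)
      have k1 := near_cub D.hδ.le (D.mx a.1) (D.unit a.1) D.hJ1 hx l
      have k2 := near_cub D.hδ.le (D.mx b.1) (D.unit b.1) D.hJ1 hy l
      rw [hxq] at k1
      rw [hyq, ← h4, ← h5] at k2
      rw [fam_X, fam_X]
      rw [← h4, ← h5]
      rw [abs_le] at k1 k2
      rw [← Int.cast_abs]
      have : |axs (D.kk a.1) D.J (D.x₀ a.1) (D.e a.1) (a.2.1 (D.kk a.1)) l -
          axs (D.kk a.1) D.J (D.x₀ b.1) (D.e b.1) (a.2.1 (D.kk a.1)) l| ≤ 8 := by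
        rw [abs_le]
        constructor <;> linarith [k1.1, k1.2, k2.1, k2.2]
      exact_mod_cast this
    · rw [Ex_const hp.sum_one]
      norm_num
  linarith

/-- **The number of cubes.** -/
theorem card_Q {lam : ℝ} (hlam : 0 < lam) (hm : ∀ i, lam / 2 * D.δ ^ d ≤ D.ms i)
    (hsep : ∀ i i', i ≠ i' → D.δ ≤ ‖D.e i - D.e i'‖) {v : ℝ} (hV : (D.fam h).V D.J ≤ v) :
    Real.log (lam / (2 * Cv d * D.δ)) - Real.log 11 - Real.log (Cw d * 2 ^ (d + 1) / (lam * N)) -
      v ≤ Real.log (2 * (d + 1) * D.Q.card) + d * Real.log 17 := by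
  have hp := (D.fam h).isLaw
  have h1 := ch_time h hlam hm
  have h2 := h_dir h hlam hm hsep
  have h3 := h_pos h
  have h4 : (D.fam h).V D.J = CH (D.fam h).p ((D.fam h).D D.J) (D.fam h).Z -
      CH (D.fam h).p ((D.fam h).X D.J) (D.fam h).W - d * (((D.J : ℝ) - D.J) * Real.log 2) := rfl
  rw [sub_self, zero_mul, mul_zero, sub_zero] at h4
  have h5 : CH (D.fam h).p ((D.fam h).D D.J) (D.fam h).Z = H (D.fam h).p
      (fun ω => ((D.fam h).D D.J ω, (D.fam h).Z ω)) - H (D.fam h).p (D.fam h).Z := rfl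
  have h6 : CH (D.fam h).p ((D.fam h).X D.J) (D.fam h).W = H (D.fam h).p
      (fun ω => ((D.fam h).X D.J ω, (D.fam h).W ω)) - H (D.fam h).p (D.fam h).W := rfl
  have h7 : H (D.fam h).p (D.fam h).W = H (D.fam h).p (D.fam h).Z +
      CH (D.fam h).p (D.fam h).T (D.fam h).Z := by
    unfold CH
    have : H (D.fam h).p (fun ω => ((D.fam h).T ω, (D.fam h).Z ω)) =
      H (D.fam h).p (D.fam h).W := rfl
    rw [this]
    ring
  have h8 : CH (D.fam h).p (D.fam h).T (fun ω => ((D.fam h).l ω, (D.fam h).Z ω)) ≤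
      CH (D.fam h).p (D.fam h).T (D.fam h).Z :=
    CH_mono_cond hp.nonneg fun _ _ _ _ hh => (Prod.ext_iff.1 hh).2
  linarith

end TD

end Pool.BR
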