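import Pool.Agent.H52.BR.Cube
import Pool.Agent.H52.BR.Ops

/-!
# The family of a set of tubes with a shading

The samples are the pairs of a tube and a cube; the weight is the volume of the part of the shading
in the cube and in the tube.
-/

set_option autoImplicit false

namespace Pool.BR

open Finset Real MeasureTheory
open scoped RealInnerProductSpace ENNReal
open Pool.Agent.H49.Ent Pool.Agent.H32.Dense Pool.STK Pool.KA Pool.K2S Pool.PB
open Pool.Agent.H53.Kak (E tube measurableSet_tube volume_tube_le norm_le_of_coord card_Icc_floor)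
open Pool.Agent.H53.Dns (slp psl Mx slab near_psl height_near vol_slab Cv Cv_pos
  measurableSet_slab vv Cw card_vv)

variable {d N : ℕ}

/-- Tubes with a shading, a resolution and a finite set of cubes. -/
structure TD (d N : ℕ) where
  /-- the width of the tubes -/
  δ : ℝ
  /-- the resolution -/
  J : ℕ
  /-- the centres -/
  x₀ : Fin N → E d
  /-- the directions -/
  e : Fin N → E d
  /-- the time coordinates -/
  kk : Fin N → Fin (d + 1)
  /-- the shading -/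
  X : Set (E d)
  /-- the cubes -/
  Q : Finset (Fin (d + 1) → ℤ)
  hX : MeasurableSet X
  hδ : 0 < δ
  hδ1 : δ < 1
  hJ1 : δ * 2 ^ J ≤ 1
  hJ2 : 1 ≤ 2 * (δ * 2 ^ J)
  unit : ∀ i, ‖e i‖ = 1
  mx : ∀ i, Mx (kk i) (e i)

namespace TD

variable (D : TD d N)

/-- The tube. -/
def T (i : Fin N) : Set (E d) := tube D.δ (D.x₀ i) (D.e i)

/-- The weight of a tube and a cube. -/
noncomputable def w (i : Fin N) (q : Fin (d + 1) → ℤ) : ℝ :=
  (volume (D.X ∩ cube D.J q ∩ D.T i)).toReal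

lemma w_nonneg (i : Fin N) (q : Fin (d + 1) → ℤ) : 0 ≤ D.w i q := ENNReal.toReal_nonneg

lemma vol_T (i : Fin N) : volume (D.T i) ≤ ENNReal.ofReal ((2 * D.δ) ^ d) :=
  volume_tube_le D.δ D.hδ.le _ _ (D.unit i)

lemma w_eq (i : Fin N) (q : Fin (d + 1) → ℤ) :
    ENNReal.ofReal (D.w i q) = volume (D.X ∩ cube D.J q ∩ D.T i) := by
  unfold w
  rw [ENNReal.ofReal_toReal]
  exact ne_top_of_le_ne_top ENNReal.ofReal_ne_top
    ((measure_mono Set.inter_subset_right).trans (D.vol_T i))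

lemma measT (i : Fin N) : MeasurableSet (D.T i) := measurableSet_tube _ _ _

/-- The weights of different cubes are the volumes of disjoint sets. -/
lemma sum_w_le (i : Fin N) (R : Finset (Fin (d + 1) → ℤ)) {Y : Set (E d)} {b : ℝ} (hb : 0 ≤ b)
    (hY : ∀ q ∈ R, D.X ∩ cube D.J q ∩ D.T i ⊆ Y) (hv : volume Y ≤ ENNReal.ofReal b) :
    ∑ q ∈ R, D.w i q ≤ b := by
  have h1 : ENNReal.ofReal (∑ q ∈ R, D.w i q) ≤ ENNReal.ofReal b := by
    rw [ENNReal.ofReal_sum_of_nonneg fun q _ => D.w_nonneg i q]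
    simp only [D.w_eq]
    rw [← measure_biUnion_finset]
    · refine (measure_mono ?_).trans hv
      exact Set.iUnion₂_subset hY
    · intro q _ q' _ hqq
      refine Set.disjoint_of_subset (fun x hx => hx.1.2) (fun x hx => hx.1.2)
        (cube_disjoint D.J hqq)
    · intro q _
      exact (D.hX.inter (measurableSet_cube _ _)).inter (D.measT i)
  rwa [ENNReal.ofReal_le_ofReal_iff hb] at h1

lemma exists_of_pos {i : Fin N} {q : Fin (d + 1) → ℤ} (h : 0 < D.w i q) :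
    ∃ x ∈ D.T i, cub D.J x = q := by
  by_contra hcon
  push Not at hcon
  have h1 : D.X ∩ cube D.J q ∩ D.T i = ∅ := by
    rw [Set.eq_empty_iff_forall_notMem]
    intro x hx
    exact hcon x hx.2 hx.1.2
  unfold w at h
  rw [h1, measure_empty, ENNReal.toReal_zero] at h
  exact lt_irrefl _ h

/-- The total weight. -/
noncomputable def tot : ℝ := ∑ i, ∑ q : D.Q, D.w i q.1

/-- The sign of the direction. -/
noncomputable def sg (i : Fin N) : Bool := decide (0 < D.e i (D.kk i))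

/-- The family. -/
noncomputable def fam (h : 0 < D.tot) : Fam d D.J where
  Ω := Fin N × D.Q
  ζ := (Fin (d + 1) × Bool) × ℤ
  fin := inferInstance
  p := fun a => D.w a.1 a.2.1 / D.tot
  u := fun a => psl (D.kk a.1) (D.x₀ a.1) (D.e a.1) ((a.2.1 (D.kk a.1) / 2 ^ D.J : ℤ) : ℝ)
  d := fun a => slp (D.kk a.1) (D.e a.1)
  T := fun a => (a.2.1 (D.kk a.1) % 2 ^ D.J).toNat
  Z := fun a => ((D.kk a.1, D.sg a.1), a.2.1 (D.kk a.1) / 2 ^ D.J)
  isLaw := by
    refine ⟨fun a => div_nonneg (D.w_nonneg _ _) h.le, ?_⟩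
    rw [← Finset.sum_div, Fintype.sum_prod_type]
    exact div_self h.ne'
  dir := fun a i => (D.mx a.1).slp (D.unit a.1) i
  tim := fun a => by
    have h2 : (0 : ℤ) < 2 ^ D.J := by positivity
    have h3 := Int.emod_lt_of_pos (a.2.1 (D.kk a.1)) h2
    have h4 := Int.emod_nonneg (a.2.1 (D.kk a.1)) h2.ne'
    have h5 : (((a.2.1 (D.kk a.1) % 2 ^ D.J).toNat : ℕ) : ℤ) < ((2 ^ D.J : ℕ) : ℤ) := by
      rw [Int.toNat_of_nonneg h4]
      push_cast
      exact h3
    exact_mod_cast h5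

variable {D} (h : 0 < D.tot)

lemma fam_T (a : Fin N × D.Q) : (((D.fam h).T a : ℕ) : ℤ) = a.2.1 (D.kk a.1) % 2 ^ D.J := by
  have h2 : (0 : ℤ) < 2 ^ D.J := by positivity
  exact Int.toNat_of_nonneg (Int.emod_nonneg (a.2.1 (D.kk a.1)) h2.ne')

/-- The position is the rounded axis. -/
lemma fam_X (a : Fin N × D.Q) : (D.fam h).X D.J a =
    axs (D.kk a.1) D.J (D.x₀ a.1) (D.e a.1) (a.2.1 (D.kk a.1)) := by
  funext l
  obtain ⟨q, hq⟩ : ∃ q : ℤ, q = a.2.1 (D.kk a.1) := ⟨_, rfl⟩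
  have h2 : (0 : ℝ) < 2 ^ D.J := by positivity
  have h3 : ((((D.fam h).T a : ℕ) : ℤ) : ℝ) = ((q % 2 ^ D.J : ℤ) : ℝ) := by rw [fam_T h, hq]
  have h4 : (q : ℝ) = 2 ^ D.J * ((q / 2 ^ D.J : ℤ) : ℝ) + ((q % 2 ^ D.J : ℤ) : ℝ) := by
    exact_mod_cast (Int.mul_ediv_add_emod q (2 ^ D.J)).symm
  change ⌊(2 : ℝ) ^ D.J * (psl (D.kk a.1) (D.x₀ a.1) (D.e a.1)
    ((a.2.1 (D.kk a.1) / 2 ^ D.J : ℤ) : ℝ) l + (((D.fam h).T a : ℕ) : ℝ) / 2 ^ D.J *
      slp (D.kk a.1) (D.e a.1) l)⌋ = ⌊(2 : ℝ) ^ D.J * psl (D.kk a.1) (D.x₀ a.1) (D.e a.1)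
        ((a.2.1 (D.kk a.1) : ℝ) / 2 ^ D.J) l⌋
  congr 2
  rw [← hq]
  have h5 : (((D.fam h).T a : ℕ) : ℝ) = ((q % 2 ^ D.J : ℤ) : ℝ) := by
    rw [← h3]
    push_cast
    rfl
  rw [h5, h4]
  unfold psl
  field_simp
  ring

/-! ### Broad families -/

/-- Near the points of the shading the directions are not concentrated near subspaces of dimension
`j`. -/
def Brd (D : TD d N) (j : ℕ) (K c : ℝ) : Prop := by
  classical
  exact ∀ x ∈ D.X, ∀ V : Submodule ℝ (E d), Module.finrank ℝ V ≤ j → ∀ ρ : ℝ, D.δ ≤ ρ → ρ ≤ 1 →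
    ((univ.filter fun i => x ∈ D.T i ∧ Metric.infDist (D.e i) (V : Set (E d)) ≤ ρ).card : ℝ) ≤
      K * ρ ^ c * ((univ.filter fun i => x ∈ D.T i).card : ℝ)

open Classical in
/-- The number of tubes through a point of a cube whose directions are close to the planes which
depend on the sample. -/
lemma count {j : ℕ} {K c : ℝ} (hK : 1 ≤ K) (hc : 0 ≤ c) (hB : D.Brd (j + 1) K c)
    {g : ℕ} (hg : g ≤ D.J) {B : (D.fam h).Ω → Prop}
    (hPl : PlU j (1 / 2 ^ g) (Fam.pt (D.fam h)) (D.fam h).d B) (q : D.Q) {x : E d}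
    (hxX : x ∈ D.X) (hxq : cub D.J x = q.1) :
    (((univ.filter fun i : Fin N => B (i, q)).filter fun i => x ∈ D.T i).card : ℝ) ≤
      (2 * (d + 1) * 9 ^ d) * (K * ((d + 1) * (1 / 2 ^ g)) ^ c) *
        ((univ.filter fun i => x ∈ D.T i).card : ℝ) := by
  obtain ⟨ρ, hρ⟩ : ∃ ρ : ℝ, ρ = (d + 1) * (1 / 2 ^ g) := ⟨_, rfl⟩
  have hρ0 : 0 < ρ := by rw [hρ]; positivity
  rw [← hρ]
  have hd0 : (0 : ℝ) ≤ d := Nat.cast_nonneg d
  have h9 : (1 : ℝ) ≤ 9 ^ d := one_le_pow₀ (by norm_num)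
  obtain ⟨A, hA⟩ : ∃ A : Finset (Fin N), A = (univ.filter fun i : Fin N => B (i, q)).filter
    fun i => x ∈ D.T i := ⟨_, rfl⟩
  rw [← hA]
  have hAT : A ⊆ univ.filter fun i => x ∈ D.T i := by
    intro i hi
    rw [hA, Finset.mem_filter] at hi
    exact Finset.mem_filter.2 ⟨Finset.mem_univ _, hi.2⟩
  have hKρ : 0 ≤ K * ρ ^ c := mul_nonneg (by linarith) (Real.rpow_nonneg hρ0.le c)
  have hn : (0 : ℝ) ≤ ((univ.filter fun i => x ∈ D.T i).card : ℝ) := Nat.cast_nonneg _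
  have h29 : (1 : ℝ) ≤ 2 * (d + 1) * 9 ^ d := by nlinarith
  rcases le_or_gt ρ 1 with hρ1 | hρ1
  swap
  · -- trivial scales
    have h1 : (A.card : ℝ) ≤ ((univ.filter fun i => x ∈ D.T i).card : ℝ) := by
      exact_mod_cast Finset.card_le_card hAT
    have h2 : 1 ≤ K * ρ ^ c := by
      have : 1 ≤ ρ ^ c := Real.one_le_rpow hρ1.le hc
      nlinarith
    have h3 : 1 ≤ (2 * (d + 1) * 9 ^ d) * (K * ρ ^ c) := by nlinarith
    nlinarith
  have hρδ : D.δ ≤ ρ := by
    have h2 : (0 : ℝ) < 2 ^ g := by positivity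
    have h3 : (2 : ℝ) ^ g ≤ 2 ^ D.J := pow_le_pow_right₀ (by norm_num) hg
    have h4 : D.δ * 2 ^ g ≤ 1 :=
      (mul_le_mul_of_nonneg_left h3 D.hδ.le).trans D.hJ1
    have h5 : D.δ ≤ 1 / 2 ^ g := by rwa [le_div_iff₀ h2]
    have h6 : (0 : ℝ) < 1 / 2 ^ g := by positivity
    rw [hρ]
    nlinarith
  -- the labels
  obtain ⟨f, hf⟩ : ∃ f : Fin N → (Fin (d + 1) × Bool) × (Fin d → ℤ), f = fun i =>
    ((D.kk i, D.sg i), fun l => q.1 ((D.kk i).succAbove l) -
      axs (D.kk i) D.J (D.x₀ i) (D.e i) (q.1 (D.kk i)) l) := ⟨_, rfl⟩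
  obtain ⟨Y, hY⟩ : ∃ Y : Finset ((Fin (d + 1) × Bool) × (Fin d → ℤ)),
    Y = univ ×ˢ (Fintype.piFinset fun _ : Fin d => Finset.Icc (-4 : ℤ) 4) := ⟨_, rfl⟩
  have hYc : (Y.card : ℝ) = 2 * (d + 1) * 9 ^ d := by
    rw [hY, Finset.card_product, Fintype.card_piFinset]
    simp
    ring
  have hfY : ∀ i ∈ A, f i ∈ Y := by
    intro i hi
    have hxi : x ∈ D.T i := (Finset.mem_filter.1 (hAT hi)).2
    rw [hf, hY, Finset.mem_product]
    refine ⟨Finset.mem_univ _, ?_⟩
    rw [Fintype.mem_piFinset]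
    intro l
    have h1 := near_cub D.hδ.le (D.mx i) (D.unit i) D.hJ1 hxi l
    rw [hxq] at h1
    rw [Finset.mem_Icc]
    exact abs_le.1 h1
  have hsum : (A.card : ℝ) = ∑ y ∈ Y, ((A.filter fun i => f i = y).card : ℝ) := by
    have := Finset.card_eq_sum_card_fiberwise (s := A) (t := Y) (f := f)
      (fun i hi => Finset.mem_coe.2 (hfY i (Finset.mem_coe.1 hi)))
    exact_mod_cast this
  obtain ⟨ζ, hζ⟩ := hPl
  have hfib : ∀ y ∈ Y, ((A.filter fun i => f i = y).card : ℝ) ≤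
      K * ρ ^ c * ((univ.filter fun i => x ∈ D.T i).card : ℝ) := by
    intro y _
    rcases (A.filter fun i => f i = y).eq_empty_or_nonempty with h0 | ⟨i₀, hi₀⟩
    · rw [h0, Finset.card_empty, Nat.cast_zero]
      positivity
    rw [Finset.mem_filter] at hi₀
    obtain ⟨V, hV⟩ : ∃ V : Submodule ℝ (E d),
      V = lfV (D.kk i₀) (ζ (Fam.pt (D.fam h) (i₀, q))) := ⟨_, rfl⟩
    refine le_trans ?_ (hB x hxX V (by rw [hV]; exact finrank_lfV _ _) ρ hρδ hρ1)
    have hsub : (A.filter fun i => f i = y) ⊆ univ.filter fun i => x ∈ D.T i ∧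
        Metric.infDist (D.e i) (V : Set (E d)) ≤ ρ := by
      intro i hi
      rw [Finset.mem_filter] at hi
      refine Finset.mem_filter.2 ⟨Finset.mem_univ _, (Finset.mem_filter.1 (hAT hi.1)).2, ?_⟩
      have hff : f i = f i₀ := hi.2.trans hi₀.2.symm
      rw [hf] at hff
      simp only [Prod.mk.injEq] at hff
      obtain ⟨⟨hk, hs⟩, ha⟩ := hff
      have hBi : B (i, q) := by
        have := hi.1
        rw [hA, Finset.mem_filter, Finset.mem_filter] at this
        exact this.1.2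
      have hpt : Fam.pt (D.fam h) (i, q) = Fam.pt (D.fam h) (i₀, q) := by
        refine Prod.ext ?_ (Prod.ext ?_ ?_)
        · change (D.fam h).X D.J (i, q) = (D.fam h).X D.J (i₀, q)
          rw [fam_X, fam_X]
          funext l
          have h1 := congrFun ha l
          simp only at h1 ⊢
          rw [hk] at h1 ⊢
          linarith
        · change (q.1 (D.kk i) % 2 ^ D.J).toNat = (q.1 (D.kk i₀) % 2 ^ D.J).toNat
          rw [hk]
        · change ((D.kk i, D.sg i), q.1 (D.kk i) / 2 ^ D.J) =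
            ((D.kk i₀, D.sg i₀), q.1 (D.kk i₀) / 2 ^ D.J)
          rw [hk, hs]
      obtain ⟨cc, hcc⟩ := hζ (i, q) hBi
      rw [hpt] at hcc
      have h1 := infDist_lfV (D.mx i) (D.unit i) (ζ (Fam.pt (D.fam h) (i₀, q))) cc
        (r := 1 / 2 ^ g) (by positivity) hcc
      rw [hk] at h1
      rw [hV, hρ]
      exact h1
    exact_mod_cast Finset.card_le_card hsub
  rw [hsum]
  refine (Finset.sum_le_sum hfib).trans (le_of_eq ?_)
  rw [Finset.sum_const, nsmul_eq_mul, hYc]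
  ring

/-- The family of broad tubes is broad. -/
theorem brp {j : ℕ} {K c : ℝ} (hK : 1 ≤ K) (hc : 0 ≤ c) (hB : D.Brd (j + 1) K c) {b : ℝ}
    (hb : Real.log (2 * (d + 1) * 9 ^ d * (d + 1) ^ c * K) ≤ b) :
    BrP j (c * Real.log 2) D.J (D.fam h) b := by
  classical
  intro g hg B hP hPl
  obtain ⟨L, hL⟩ : ∃ L : ℝ, L = (2 * (d + 1) * 9 ^ d) * (K * ((d + 1) * (1 / 2 ^ g)) ^ c) :=
    ⟨_, rfl⟩
  have hd1 : (0 : ℝ) < (d : ℝ) + 1 := by positivity
  have hL0 : 0 < L := by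
    rw [hL]
    have : 0 < ((d : ℝ) + 1) * (1 / 2 ^ g) := by positivity
    have := Real.rpow_pos_of_pos this c
    positivity
  -- each cube
  have key : ∀ q : D.Q, ∑ i ∈ univ.filter (fun i : Fin N => B (i, q)), D.w i q.1 ≤
      L * ∑ i, D.w i q.1 := by
    intro q
    have h1 := sum_vol_le (S := (univ : Finset (Fin N))) (A := univ.filter fun i => B (i, q))
      (Y := D.X ∩ cube D.J q.1) (D.hX.inter (measurableSet_cube _ _)) (T := D.T) D.measT
      (L := L) hL0.le (fun x hx => by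
        rw [hL]
        exact count h hK hc hB hg hPl q hx.1 hx.2)
    have h2 : ENNReal.ofReal (∑ i ∈ univ.filter (fun i : Fin N => B (i, q)), D.w i q.1) ≤
        ENNReal.ofReal (L * ∑ i, D.w i q.1) := by
      rw [ENNReal.ofReal_mul hL0.le, ENNReal.ofReal_sum_of_nonneg fun i _ => D.w_nonneg i q.1,
        ENNReal.ofReal_sum_of_nonneg fun i _ => D.w_nonneg i q.1]
      simp only [D.w_eq]
      exact h1
    rwa [ENNReal.ofReal_le_ofReal_iff (mul_nonneg hL0.le
      (Finset.sum_nonneg fun i _ => D.w_nonneg i q.1))] at h2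
  have hPe : Pe (D.fam h).p B ≤ L := by
    rw [Pe_eq]
    change ∑ a : Fin N × D.Q, (if B a then D.w a.1 a.2.1 / D.tot else 0) ≤ L
    rw [Fintype.sum_prod_type, Finset.sum_comm]
    have h1 : ∀ q : D.Q, ∑ i, (if B (i, q) then D.w i q.1 / D.tot else 0) ≤
        L * ((∑ i, D.w i q.1) / D.tot) := by
      intro q
      rw [← Finset.sum_filter, ← Finset.sum_div, ← mul_div_assoc]
      exact div_le_div_of_nonneg_right (key q) h.le
    refine (Finset.sum_le_sum fun q _ => h1 q).trans (le_of_eq ?_)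
    rw [← Finset.mul_sum, ← Finset.sum_div, Finset.sum_comm]
    change L * (D.tot / D.tot) = L
    rw [div_self h.ne', mul_one]
  have hK0 : 0 < K := by linarith
  have hdc : 0 < ((d : ℝ) + 1) ^ c := Real.rpow_pos_of_pos hd1 c
  have hLe : L ≤ Real.exp (-(c * Real.log 2 * g - b)) := by
    have h2 : Real.log L = Real.log (2 * (d + 1) * 9 ^ d * (d + 1) ^ c * K) -
        c * Real.log 2 * g := by
      have e1 : L = (2 * (d + 1) * 9 ^ d * (d + 1) ^ c * K) * (1 / 2 ^ g) ^ c := by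
        rw [hL, Real.mul_rpow hd1.le (by positivity)]
        ring
      rw [e1, Real.log_mul (by positivity) (by positivity), Real.log_rpow (by positivity),
        Real.log_div one_ne_zero (by positivity), Real.log_one, Real.log_pow]
      ring
    rw [← Real.log_le_iff_le_exp hL0, h2]
    linarith
  linarith

end TD

end Pool.BR
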