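import Pool.Agent.H52.BR.TEnt
import Pool.Agent.H52.BR.End

/-!
# Tubes which are not concentrated near subspaces of dimension `j + 1`
-/

set_option autoImplicit false

namespace Pool.BR

open Finset Real MeasureTheory
open scoped RealInnerProductSpace ENNReal
open Pool.Agent.H49.Ent Pool.Agent.H32.Dense Pool.STK Pool.KA Pool.K2S Pool.PB
open Pool.Agent.H53.Kak (E tube measurableSet_tube volume_tube_le CG one_le_CG card_le_all)
open Pool.Agent.H53.Dns (Mx Cv Cv_pos Cw one_le_Cw exists_mx)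

variable {d N : ℕ}

/-- The weights of a tube in the good cubes. -/
lemma mass {δ : ℝ} (hδ : 0 < δ) (hδ1 : δ < 1) {J : ℕ} (hJ1 : δ * 2 ^ J ≤ 1)
    (hJ2 : 1 ≤ 2 * (δ * 2 ^ J)) {x₀ e : Fin N → E d} {kk : Fin N → Fin (d + 1)}
    (hu : ∀ i, ‖e i‖ = 1) (hmx : ∀ i, Mx (kk i) (e i)) {X : Set (E d)} (hX : MeasurableSet X)
    {lam : ℝ} (hlam : 0 < lam)
    (hvol : ∀ i, ENNReal.ofReal (lam * δ ^ d) ≤ volume (X ∩ tube δ (x₀ i) (e i))) :
    ∃ D : TD d N, D.δ = δ ∧ D.J = J ∧ D.x₀ = x₀ ∧ D.e = e ∧ D.X = X ∧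
      (∀ i, lam / 2 * D.δ ^ d ≤ D.ms i) ∧
      ∀ q ∈ D.Q, ENNReal.ofReal (lam / (10 * 18 ^ d) * ((2 ^ J : ℝ)⁻¹) ^ (d + 1)) ≤
        volume (X ∩ cube J q) := by
  classical
  obtain ⟨η, hη⟩ : ∃ η : ℝ, η = lam / (10 * 18 ^ d) * ((2 ^ J : ℝ)⁻¹) ^ (d + 1) := ⟨_, rfl⟩
  have hη0 : 0 < η := by rw [hη]; positivity
  obtain ⟨D, hD⟩ : ∃ D : TD d N, D = ⟨δ, J, x₀, e, kk, X,
    (univ.biUnion fun i => tcub (kk i) J (x₀ i) (e i)).filter fun q =>
      ENNReal.ofReal η ≤ volume (X ∩ cube J q), hX, hδ, hδ1, hJ1, hJ2, hu, hmx⟩ := ⟨_, rfl⟩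
  have e1 : D.δ = δ := by rw [hD]
  have e2 : D.J = J := by rw [hD]
  have e3 : D.x₀ = x₀ := by rw [hD]
  have e4 : D.e = e := by rw [hD]
  have e5 : D.X = X := by rw [hD]
  have e6 : D.Q = (univ.biUnion fun i => tcub (kk i) J (x₀ i) (e i)).filter fun q =>
      ENNReal.ofReal η ≤ volume (X ∩ cube J q) := by rw [hD]
  refine ⟨D, e1, e2, e3, e4, e5, fun i => ?_, fun q hq => ?_⟩
  swap
  · rw [e6, Finset.mem_filter] at hq
    rw [← hη]
    exact hq.2
  rw [D.ms_eq, e1]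
  have hw : ∀ q, ENNReal.ofReal (D.w i q) = volume (X ∩ cube J q ∩ tube δ (x₀ i) (e i)) := by
    intro q
    rw [D.w_eq, e5, e2]
    unfold TD.T
    rw [e1, e3, e4]
  have hsum : lam * δ ^ d ≤ ∑ q ∈ tcub (kk i) J (x₀ i) (e i), D.w i q := by
    have h1 : ENNReal.ofReal (lam * δ ^ d) ≤
        ENNReal.ofReal (∑ q ∈ tcub (kk i) J (x₀ i) (e i), D.w i q) := by
      rw [ENNReal.ofReal_sum_of_nonneg fun q _ => D.w_nonneg i q]
      simp only [hw]
      refine (hvol i).trans ((measure_mono ?_).trans (measure_biUnion_finset_le _ _))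
      intro x hx
      simp only [Set.mem_iUnion]
      exact ⟨cub J x, mem_tcub hδ.le hδ1 (hmx i) (hu i) hJ1 hx.2, ⟨hx.1, rfl⟩, hx.2⟩
    rwa [ENNReal.ofReal_le_ofReal_iff (Finset.sum_nonneg fun q _ => D.w_nonneg i q)] at h1
  have hbad : ∀ q ∈ tcub (kk i) J (x₀ i) (e i), q ∉ D.Q → D.w i q ≤ η := by
    intro q hq hqQ
    rw [e6, Finset.mem_filter, not_and] at hqQ
    have h1 := hqQ (Finset.mem_biUnion.2 ⟨i, Finset.mem_univ _, hq⟩)
    rw [not_le] at h1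
    have h2 : ENNReal.ofReal (D.w i q) ≤ ENNReal.ofReal η := by
      rw [hw]
      exact (measure_mono Set.inter_subset_left).trans h1.le
    rwa [ENNReal.ofReal_le_ofReal_iff hη0.le] at h2
  have hsplit : ∑ q ∈ tcub (kk i) J (x₀ i) (e i), D.w i q ≤
      ∑ q ∈ D.Q, D.w i q + (tcub (kk i) J (x₀ i) (e i)).card * η := by
    rw [← Finset.sum_filter_add_sum_filter_not (tcub (kk i) J (x₀ i) (e i)) (fun q => q ∈ D.Q)]
    refine add_le_add ?_ ?_
    · refine Finset.sum_le_sum_of_subset_of_nonneg ?_ fun q _ _ => D.w_nonneg i q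
      intro q hq
      exact (Finset.mem_filter.1 hq).2
    · calc ∑ q ∈ (tcub (kk i) J (x₀ i) (e i)).filter (fun q => q ∉ D.Q), D.w i q ≤
            ∑ _q ∈ (tcub (kk i) J (x₀ i) (e i)).filter (fun q => q ∉ D.Q), η :=
            Finset.sum_le_sum fun q hq => hbad q (Finset.mem_filter.1 hq).1
              (Finset.mem_filter.1 hq).2
        _ = (((tcub (kk i) J (x₀ i) (e i)).filter fun q => q ∉ D.Q).card : ℝ) * η := by
            rw [Finset.sum_const, nsmul_eq_mul]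
        _ ≤ _ := by
            refine mul_le_mul_of_nonneg_right ?_ hη0.le
            exact_mod_cast Finset.card_filter_le _ _
  have hsmall : ((tcub (kk i) J (x₀ i) (e i)).card : ℝ) * η ≤ lam / 2 * δ ^ d := by
    have h1 := card_tcub (kk i) J (x₀ i) (e i)
    have h2 : (0 : ℝ) < 2 ^ J := by positivity
    have h3 : ((2 : ℝ) ^ J)⁻¹ ≤ 2 * δ := by
      rw [inv_le_iff_one_le_mul₀ h2]
      linarith
    calc ((tcub (kk i) J (x₀ i) (e i)).card : ℝ) * η ≤ (5 * 2 ^ J * 9 ^ d) * η :=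
          mul_le_mul_of_nonneg_right h1 hη0.le
      _ = lam * (9 ^ d / (2 * 18 ^ d)) * ((2 ^ J : ℝ)⁻¹) ^ d := by
          rw [hη, pow_succ]
          field_simp
          ring
      _ ≤ lam * (9 ^ d / (2 * 18 ^ d)) * (2 * δ) ^ d := by gcongr
      _ = lam / 2 * δ ^ d := by
          rw [mul_pow]
          have : (18 : ℝ) ^ d = 9 ^ d * 2 ^ d := by rw [← mul_pow]; norm_num
          rw [this]
          field_simp
  linarith

/-- The main case. -/
theorem main_case {j : ℕ} {c : ℝ} (hc : 0 ≤ c) {ε θ : ℝ} {J : ℕ} {K : ℝ} (hK : 1 ≤ K)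
    (hKP : ∀ F : Fam d J, F.Tm (θ * J) → (KCl.br d j (c * Real.log 2)).P J F (θ * J) →
      F.V J ≤ ε * Real.log 2 * J) (hε : 0 ≤ ε)
    {δ : ℝ} (hδ : 0 < δ) (hδ1 : δ < 1) (hJ1 : δ * 2 ^ J ≤ 1) (hJ2 : 1 ≤ 2 * (δ * 2 ^ J))
    {x₀ e : Fin N → E d} (hu : ∀ i, ‖e i‖ = 1) (hsep : ∀ i i', i ≠ i' → δ ≤ ‖e i - e i'‖)
    {X : Set (E d)} (hX : MeasurableSet X) {lam : ℝ} (hlam : 0 < lam) (hN : 0 < N)
    (hvol : ∀ i, ENNReal.ofReal (lam * δ ^ d) ≤ volume (X ∩ tube δ (x₀ i) (e i)))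
    (hB : ∀ D : TD d N, D.δ = δ → D.x₀ = x₀ → D.e = e → D.X = X → D.Brd (j + 1) K c)
    (hθ1 : Real.log (2 * Cv d / lam) + Real.log 11 ≤ θ * J)
    (hθ2 : Real.log (2 * (d + 1) * 9 ^ d * (d + 1) ^ c * K) ≤ θ * J) :
    ENNReal.ofReal ((Cw d * 2 ^ (d + 1) * (2 * Cv d) * 11 * (2 * (d + 1) * 17 ^ d) *
      (10 * 18 ^ d))⁻¹ * δ ^ ε * (lam ^ 3 * (N * δ ^ d))) ≤ volume X := by
  classical
  have hmx : ∀ i, ∃ k, Mx k (e i) := fun i => exists_mx (e i)
  choose kk hkk using hmx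
  obtain ⟨D, e1, e2, e3, e4, e5, hm, hQ⟩ := mass hδ hδ1 hJ1 hJ2 hu hkk hX hlam hvol
  have hCv := Cv_pos d
  have hCw := one_le_Cw d
  have hNr : (0 : ℝ) < N := by exact_mod_cast hN
  have h2J : (0 : ℝ) < 2 ^ J := by positivity
  have hl2 : 0 < Real.log 2 := Real.log_pos (by norm_num)
  have htot : 0 < D.tot := by
    have h1 : ∑ _i : Fin N, lam / 2 * D.δ ^ d ≤ ∑ i, D.ms i := Finset.sum_le_sum fun i _ => hm i
    rw [Finset.sum_const, Finset.card_univ, Fintype.card_fin, nsmul_eq_mul] at h1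
    have h2 : ∑ i, D.ms i = D.tot := rfl
    rw [h2] at h1
    have := D.hδ
    exact lt_of_lt_of_le (by positivity) h1
  have hBr := TD.brp htot (j := j) hK hc (hB D e1 e3 e4 e5) hθ2
  have ht := TD.ch_time htot hlam hm
  have hlog : ∀ y : ℝ, 0 < y → Real.log (lam / (2 * Cv d * y)) =
      Real.log (1 / y) - Real.log (2 * Cv d / lam) := by
    intro y hy
    rw [← Real.log_div (by positivity) (by positivity)]
    congr 1
    field_simp
  have hJlog : (J : ℝ) * Real.log 2 ≤ Real.log (1 / δ) := by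
    rw [← Real.log_pow]
    refine Real.log_le_log h2J ?_
    rw [le_div_iff₀ hδ]
    linarith
  have e2r : (D.J : ℝ) = J := by rw [e2]
  have hTm : (D.fam htot).Tm (θ * (D.J : ℝ)) := by
    unfold Fam.Tm
    rw [e1, hlog δ hδ] at ht
    have h1 : (D.J : ℝ) * Real.log 2 - θ * D.J ≤
        Real.log (1 / δ) - Real.log (2 * Cv d / lam) - Real.log 11 := by
      rw [e2r]
      linarith
    exact h1.trans ht
  have hV : (D.fam htot).V D.J ≤ ε * Real.log 2 * J := by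
    have h1 : ∀ J' : ℕ, J' = J → ∀ F : Fam d J', F.Tm (θ * (J' : ℝ)) →
        BrP j (c * Real.log 2) J' F (θ * J) → F.V J' ≤ ε * Real.log 2 * J := by
      rintro _ rfl F h2 h3
      exact hKP F h2 h3
    exact h1 D.J e2 _ hTm hBr
  have hcard := TD.card_Q htot hlam hm (by rw [e4, e1]; exact hsep) hV
  rw [e1, hlog δ hδ] at hcard
  -- the number of cubes
  obtain ⟨n, hn⟩ : ∃ n : ℝ, n = D.Q.card := ⟨_, rfl⟩
  have hn0 : 0 < n := by
    rw [hn]
    have h1 : D.Q.Nonempty := by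
      by_contra hcon
      rw [Finset.not_nonempty_iff_eq_empty] at hcon
      have h2 := hm ⟨0, hN⟩
      rw [D.ms_eq, hcon, Finset.sum_empty] at h2
      have := D.hδ
      have : 0 < lam / 2 * D.δ ^ d := by positivity
      linarith
    exact_mod_cast h1.card_pos
  rw [← hn] at hcard
  have hd1 : (0 : ℝ) < (d : ℝ) + 1 := by positivity
  have hcard2 : (lam * N / (Cw d * 2 ^ (d + 1))) * (lam / (2 * Cv d)) * δ⁻¹ * δ ^ ε / 11 ≤
      2 * (d + 1) * n * 17 ^ d := by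
    have h1 : Real.log ((lam * N / (Cw d * 2 ^ (d + 1))) * (lam / (2 * Cv d)) * δ⁻¹ * δ ^ ε /
        11) ≤ Real.log (2 * (d + 1) * n * 17 ^ d) := by
      have hCw0 : 0 < Cw d := by linarith
      rw [Real.log_div (by positivity) (by norm_num), Real.log_mul (by positivity) (by positivity),
        Real.log_mul (by positivity) (by positivity), Real.log_mul (by positivity) (by positivity),
        Real.log_mul (by positivity) (by positivity), Real.log_rpow hδ, Real.log_pow]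
      have h2 : Real.log (lam / (2 * Cv d)) = -Real.log (2 * Cv d / lam) := by
        rw [← Real.log_inv, inv_div]
      have h3 : Real.log (lam * N / (Cw d * 2 ^ (d + 1))) =
          -Real.log (Cw d * 2 ^ (d + 1) / (lam * N)) := by
        rw [← Real.log_inv, inv_div]
      have h4 : Real.log δ⁻¹ = Real.log (1 / δ) := by rw [one_div]
      have h5 : Real.log δ = -Real.log (1 / δ) := by rw [one_div, Real.log_inv, neg_neg]
      rw [h2, h3, h4, h5]
      have h6 : ε * Real.log 2 * J ≤ ε * Real.log (1 / δ) := by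
        have := mul_le_mul_of_nonneg_left hJlog hε
        linarith
      linarith
    exact (Real.log_le_log_iff (by positivity) (by positivity)).1 h1
  -- the volume
  have hvolX : ENNReal.ofReal (n * (lam / (10 * 18 ^ d) * ((2 ^ J : ℝ)⁻¹) ^ (d + 1))) ≤
      volume X := by
    have h1 : ∑ q ∈ D.Q, volume (X ∩ cube J q) ≤ volume X := by
      rw [← measure_biUnion_finset]
      · exact measure_mono (Set.iUnion₂_subset fun q _ => Set.inter_subset_left)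
      · intro q _ q' _ hqq
        exact Set.disjoint_of_subset Set.inter_subset_right Set.inter_subset_right
          (cube_disjoint J hqq)
      · intro q _
        exact hX.inter (measurableSet_cube J q)
    refine le_trans ?_ h1
    rw [hn, ENNReal.ofReal_mul (Nat.cast_nonneg _), ENNReal.ofReal_natCast, ← nsmul_eq_mul,
      ← Finset.sum_const]
    exact Finset.sum_le_sum fun q hq => hQ q hq
  refine le_trans (ENNReal.ofReal_le_ofReal ?_) hvolX
  have h3 : δ ≤ (2 ^ J : ℝ)⁻¹ := by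
    rw [← one_div, le_div_iff₀ h2J]
    exact hJ1
  have h4 : δ ^ (d + 1) ≤ ((2 ^ J : ℝ)⁻¹) ^ (d + 1) := pow_le_pow_left₀ hδ.le h3 _
  have hCw0 : 0 < Cw d := by linarith
  calc (Cw d * 2 ^ (d + 1) * (2 * Cv d) * 11 * (2 * (d + 1) * 17 ^ d) * (10 * 18 ^ d))⁻¹ *
        δ ^ ε * (lam ^ 3 * (N * δ ^ d)) =
      ((lam * N / (Cw d * 2 ^ (d + 1))) * (lam / (2 * Cv d)) * δ⁻¹ * δ ^ ε / 11) /
        (2 * (d + 1) * 17 ^ d) * (lam / (10 * 18 ^ d) * δ ^ (d + 1)) := by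
        rw [pow_succ δ d]
        field_simp
    _ ≤ (2 * (d + 1) * n * 17 ^ d) / (2 * (d + 1) * 17 ^ d) *
        (lam / (10 * 18 ^ d) * ((2 ^ J : ℝ)⁻¹) ^ (d + 1)) := by gcongr
    _ = _ := by field_simp

/-- **Broad tubes**, from the entropy inequality for broad families. -/
theorem tubes_of_KPc {j : ℕ} {c : ℝ} (hc : 0 < c) (h : KPc (KCl.br d j (c * Real.log 2)))
    {ε : ℝ} (hε : 0 < ε) :
    ∃ κ P C : ℝ, 0 < κ ∧ 0 < C ∧ ∀ δ : ℝ, 0 < δ → δ < 1 → ∀ (N : ℕ) (x₀ e : Fin N → E d),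
      (∀ i, ‖e i‖ = 1) → (∀ i i', i ≠ i' → δ ≤ ‖e i - e i'‖) →
      ∀ X : Set (E d), MeasurableSet X → ∀ lam : ℝ, 0 < lam → lam ≤ 1 →
      (∀ i, ENNReal.ofReal (lam * δ ^ d) ≤ volume (X ∩ tube δ (x₀ i) (e i))) →
      (∀ x ∈ X, ∀ V : Submodule ℝ (E d), Module.finrank ℝ V ≤ j + 1 → ∀ ρ : ℝ, δ ≤ ρ → ρ ≤ 1 →
        (Nat.card {i // x ∈ tube δ (x₀ i) (e i) ∧ Metric.infDist (e i) (V : Set (E d)) ≤ ρ} : ℝ) ≤
          δ ^ (-κ) * ρ ^ c * (Nat.card {i // x ∈ tube δ (x₀ i) (e i)} : ℝ)) →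
      ENNReal.ofReal (C⁻¹ * δ ^ ε * (lam ^ P * (N * δ ^ d))) ≤ volume X := by
  classical
  have hl2 : 0 < Real.log 2 := Real.log_pos (by norm_num)
  have hl2' : Real.log 2 ≤ 1 := by
    have := Real.log_le_sub_one_of_pos (show (0 : ℝ) < 2 by norm_num)
    linarith
  obtain ⟨θ, hθ, J₀, hKP⟩ := h (ε * Real.log 2) (by positivity)
  have hCv := Cv_pos d
  have hCw := one_le_Cw d
  have hCw0 : 0 < Cw d := by linarith
  have hG := one_le_CG d
  obtain ⟨C₅, hC₅⟩ : ∃ C₅, C₅ = |Real.log (2 * Cv d)| + Real.log 11 +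
    |Real.log (2 * (d + 1) * 9 ^ d * (d + 1) ^ c)| := ⟨_, rfl⟩
  have h11 : 0 ≤ Real.log 11 := Real.log_nonneg (by norm_num)
  obtain ⟨J₁, hJ₁⟩ := exists_nat_ge (C₅ / (θ / 2))
  obtain ⟨J₂, hJ₂⟩ : ∃ J₂, J₂ = J₀ + J₁ + 1 := ⟨_, rfl⟩
  obtain ⟨P, hP⟩ : ∃ P, P = 3 + d / (θ / 4) := ⟨_, rfl⟩
  have hP3 : 3 ≤ P := by
    rw [hP]
    have : (0 : ℝ) ≤ d / (θ / 4) := by positivity
    linarith
  obtain ⟨C₃, hC₃⟩ : ∃ C₃ : ℝ, C₃ = CG d * 3 ^ d := ⟨_, rfl⟩
  have hC₃1 : 1 ≤ C₃ := by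
    rw [hC₃]
    have : (1 : ℝ) ≤ 3 ^ d := one_le_pow₀ (by norm_num)
    nlinarith
  obtain ⟨C₄, hC₄⟩ : ∃ C₄ : ℝ, C₄ = Cw d * 2 ^ (d + 1) * (2 * Cv d) * 11 *
    (2 * (d + 1) * 17 ^ d) * (10 * 18 ^ d) := ⟨_, rfl⟩
  have hC₄0 : 0 < C₄ := by rw [hC₄]; positivity
  obtain ⟨C, hC⟩ : ∃ C, C = C₃ * 2 ^ (J₂ * d) + C₄ := ⟨_, rfl⟩
  have h2J₂ : (1 : ℝ) ≤ 2 ^ (J₂ * d) := one_le_pow₀ (by norm_num)
  have hC0 : 0 < C := by rw [hC]; positivity
  have hCC₄ : C₄ ≤ C := by rw [hC]; linarith [show 0 ≤ C₃ * 2 ^ (J₂ * d) by positivity]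
  have hCC₃ : C₃ * 2 ^ (J₂ * d) ≤ C := by rw [hC]; linarith
  refine ⟨θ / 4, P, C, by positivity, hC0, ?_⟩
  intro δ hδ hδ1 N x₀ e hu hsep X hX lam hlam hlam1 hvol hbr
  rcases Nat.eq_zero_or_pos N with hN | hN
  · rw [hN, Nat.cast_zero, zero_mul, mul_zero, mul_zero, ENNReal.ofReal_zero]
    exact bot_le
  have hNr : (0 : ℝ) < N := by exact_mod_cast hN
  have hcard : (N : ℝ) ≤ C₃ * (δ ^ d)⁻¹ := by
    have h1 := card_le_all hδ hδ1 (S := (univ : Finset (Fin N))) (e := e)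
      ⟨fun i _ => hu i, fun i _ i' _ hii => hsep i i' hii⟩
    rw [Finset.card_univ, Fintype.card_fin, ← hC₃] at h1
    exact h1
  have hδε : δ ^ ε ≤ 1 := Real.rpow_le_one hδ.le hδ1.le hε.le
  have hδε0 : 0 < δ ^ ε := by positivity
  have hδd : 0 < δ ^ d := by positivity
  -- the trivial bound
  have triv2 : lam ^ P * (N * δ ^ d) ≤ C * (lam * δ ^ d) →
      ENNReal.ofReal (C⁻¹ * δ ^ ε * (lam ^ P * (N * δ ^ d))) ≤ volume X := by
    intro h1
    refine le_trans (ENNReal.ofReal_le_ofReal ?_) ((hvol ⟨0, hN⟩).trans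
      (measure_mono Set.inter_subset_left))
    calc C⁻¹ * δ ^ ε * (lam ^ P * (N * δ ^ d)) ≤ C⁻¹ * 1 * (C * (lam * δ ^ d)) := by gcongr
      _ = lam * δ ^ d := by field_simp
  have hlamP : lam ^ P ≤ lam := by
    calc lam ^ P ≤ lam ^ (1 : ℝ) :=
          Real.rpow_le_rpow_of_exponent_ge hlam hlam1 (by linarith)
      _ = lam := Real.rpow_one lam
  -- the resolution
  obtain ⟨J, hJA, hJB⟩ := exists_nat_pow_near (x := δ⁻¹) (y := 2)
    ((one_le_inv₀ hδ).2 hδ1.le) (by norm_num)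
  have h2J : (0 : ℝ) < 2 ^ J := by positivity
  have hJ1 : δ * 2 ^ J ≤ 1 := by
    calc δ * 2 ^ J ≤ δ * δ⁻¹ := mul_le_mul_of_nonneg_left hJA hδ.le
      _ = 1 := mul_inv_cancel₀ hδ.ne'
  have hJ2' : 1 ≤ 2 * (δ * 2 ^ J) := by
    have h1 : δ * δ⁻¹ ≤ δ * 2 ^ (J + 1) := mul_le_mul_of_nonneg_left hJB.le hδ.le
    rw [mul_inv_cancel₀ hδ.ne', pow_succ] at h1
    linarith
  rcases Nat.lt_or_ge J J₂ with hJJ | hJJ
  · -- large `δ`
    refine triv2 ?_
    have h1 : (δ ^ d)⁻¹ ≤ 2 ^ (J₂ * d) := by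
      rw [← inv_pow, pow_mul]
      refine pow_le_pow_left₀ (by positivity) (hJB.le.trans ?_) d
      exact pow_le_pow_right₀ (by norm_num) hJJ
    have h2 : (N : ℝ) ≤ C := by
      calc (N : ℝ) ≤ C₃ * (δ ^ d)⁻¹ := hcard
        _ ≤ C₃ * 2 ^ (J₂ * d) := by gcongr
        _ ≤ C := hCC₃
    calc lam ^ P * (N * δ ^ d) ≤ lam * (C * δ ^ d) := by gcongr
      _ = C * (lam * δ ^ d) := by ring
  have hJ0 : J₀ ≤ J := by omega
  have hJ1r : (1 : ℝ) ≤ J := by
    have : 1 ≤ J := by omega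
    exact_mod_cast this
  have hJ₁r : C₅ ≤ θ / 2 * J := by
    have h1 : (J₁ : ℝ) ≤ J := by
      have : J₁ ≤ J := by omega
      exact_mod_cast this
    have h2 := hJ₁.trans h1
    rw [div_le_iff₀ (by positivity)] at h2
    linarith
  -- `log (1 / δ) ≤ 2 J`
  have hlogδ : Real.log (1 / δ) ≤ 2 * J := by
    have h1 : Real.log (1 / δ) ≤ (J + 1) * Real.log 2 := by
      rw [one_div]
      have := Real.log_le_log (inv_pos.2 hδ) hJB.le
      rw [Real.log_pow] at this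
      push_cast at this
      exact this
    nlinarith
  have hlogδ0 : 0 ≤ Real.log (1 / δ) := Real.log_nonneg (by
    rw [le_div_iff₀ hδ]
    linarith)
  rcases lt_or_ge lam (δ ^ (θ / 4)) with hcase | hcase
  · -- very small density
    refine triv2 ?_
    have h1 : lam ^ P ≤ lam * δ ^ d := by
      calc lam ^ P ≤ lam ^ (1 + d / (θ / 4)) :=
            Real.rpow_le_rpow_of_exponent_ge hlam hlam1 (by rw [hP]; linarith)
        _ = lam * lam ^ (d / (θ / 4)) := by rw [Real.rpow_add hlam, Real.rpow_one]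
        _ ≤ lam * (δ ^ (θ / 4)) ^ (d / (θ / 4)) := by gcongr
        _ = lam * δ ^ d := by
            rw [← Real.rpow_mul hδ.le, ← Real.rpow_natCast δ d]
            congr 2
            field_simp
    calc lam ^ P * (N * δ ^ d) ≤ (lam * δ ^ d) * (C₃ * (δ ^ d)⁻¹ * δ ^ d) := by gcongr
      _ = C₃ * (lam * δ ^ d) := by field_simp
      _ ≤ C * (lam * δ ^ d) := by
          have : C₃ ≤ C := le_trans (le_mul_of_one_le_right (by linarith) h2J₂) hCC₃
          gcongr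
  -- the main case
  have hK : (1 : ℝ) ≤ δ ^ (-(θ / 4)) := by
    rw [Real.rpow_neg hδ.le]
    exact (one_le_inv₀ (by positivity)).2 (Real.rpow_le_one hδ.le hδ1.le (by positivity))
  have hloglam : Real.log (1 / lam) ≤ θ / 4 * Real.log (1 / δ) := by
    have h1 := Real.log_le_log (by positivity) hcase
    rw [Real.log_rpow hδ] at h1
    rw [one_div, one_div, Real.log_inv, Real.log_inv]
    linarith
  have hθ4 : θ / 4 * Real.log (1 / δ) ≤ θ / 2 * J := by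
    have := mul_le_mul_of_nonneg_left hlogδ (by positivity : 0 ≤ θ / 4)
    linarith
  have habs := abs_nonneg (Real.log (2 * Cv d))
  have habs2 := abs_nonneg (Real.log (2 * ((d : ℝ) + 1) * 9 ^ d * ((d : ℝ) + 1) ^ c))
  have hd1 : (0 : ℝ) < (d : ℝ) + 1 := by positivity
  have hmain := main_case (j := j) (c := c) (K := δ ^ (-(θ / 4))) hc.le hK
    (fun F h1 h2 => hKP J hJ0 F h1 h2) hε.le hδ hδ1 hJ1 hJ2' hu hsep hX hlam hN hvol
    (by
      intro D e1 e2 e3 e4 x hx V hV ρ hρ1 hρ2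
      rw [e1] at hρ1
      rw [e4] at hx
      have h1 := hbr x hx V hV ρ hρ1 hρ2
      rw [Nat.card_eq_fintype_card, Nat.card_eq_fintype_card, Fintype.card_subtype,
        Fintype.card_subtype] at h1
      unfold TD.T
      rw [e1, e2, e3]
      convert h1 using 3)
    (by
      have h1 : Real.log (2 * Cv d / lam) = Real.log (2 * Cv d) + Real.log (1 / lam) := by
        rw [← Real.log_mul (by positivity) (by positivity)]
        congr 1
        ring
      rw [h1]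
      have := le_abs_self (Real.log (2 * Cv d))
      rw [hC₅] at hJ₁r
      linarith)
    (by
      have hdc : 0 < ((d : ℝ) + 1) ^ c := Real.rpow_pos_of_pos hd1 c
      rw [Real.log_mul (by positivity) (by positivity), Real.log_rpow hδ]
      have h1 : Real.log (1 / δ) = -Real.log δ := by rw [one_div, Real.log_inv]
      rw [h1] at hθ4
      have := le_abs_self (Real.log (2 * ((d : ℝ) + 1) * 9 ^ d * ((d : ℝ) + 1) ^ c))
      rw [hC₅] at hJ₁r
      linarith)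
  refine le_trans (ENNReal.ofReal_le_ofReal ?_) hmain
  rw [← hC₄]
  have h1 : lam ^ P ≤ lam ^ 3 := by
    rw [← Real.rpow_natCast lam 3]
    exact Real.rpow_le_rpow_of_exponent_ge hlam hlam1 (by push_cast; linarith)
  have h2 : C⁻¹ ≤ C₄⁻¹ := inv_anti₀ hC₄0 hCC₄
  gcongr

end Pool.BR
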